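import Pool.Agent.FKC.Defs

/-!
A weighted form of the bound of Caro and Wei for cliques: if `w` is a nonnegative weight on a finite set `S` of
vertices then `S` contains a clique, maximal in `S`, whose weight is at least the sum over `S` of the weight of a
vertex divided by its number of non-neighbours in `S` (itself included).
-/

namespace Pool.Agent.FKC

open Finset Classical

variable {V : Type*}

theorem caroWei (G : SimpleGraph V) (w : V → ℝ) (S : Finset V) (hw : ∀ v ∈ S, 0 ≤ w v) :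
    ∃ Q ⊆ S, G.IsClique (Q : Set V) ∧ (∀ v ∈ S, ∃ p ∈ Q, ¬ G.Adj p v) ∧
      ∑ v ∈ S, w v / (nn G S v : ℝ) ≤ ∑ v ∈ Q, w v := by
  induction hn : S.card using Nat.strong_induction_on generalizing S with
  | _ n ih =>
  rcases S.eq_empty_or_nonempty with rfl | hne
  · exact ⟨∅, Finset.Subset.refl _, by simp, by simp, by simp⟩
  obtain ⟨v, hv, hmax⟩ := Finset.exists_max_image S (fun u => w u / (nn G S u : ℝ)) hne
  set T := S.filter (fun u => G.Adj v u) with hT
  have hTS : T ⊆ S := Finset.filter_subset _ _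
  have hvT : v ∉ T := by
    intro h
    exact G.irrefl ((Finset.mem_filter.1 h).2)
  have hlt : T.card < n := by
    rw [← hn]
    exact Finset.card_lt_card ⟨hTS, fun h => hvT (h hv)⟩
  obtain ⟨Q, hQT, hQc, hQm, hQw⟩ := ih T.card hlt T (fun u hu => hw u (hTS hu)) rfl
  have hvQ : v ∉ Q := fun h => hvT (hQT h)
  refine ⟨insert v Q, ?_, ?_, ?_, ?_⟩
  · intro u hu
    rcases Finset.mem_insert.1 hu with rfl | h
    · exact hv
    · exact hTS (hQT h)
  · intro a ha b hb hab
    rcases Finset.mem_insert.1 (Finset.mem_coe.1 ha) with rfl | ha'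
    · rcases Finset.mem_insert.1 (Finset.mem_coe.1 hb) with rfl | hb'
      · exact absurd rfl hab
      · exact (Finset.mem_filter.1 (hQT hb')).2
    · rcases Finset.mem_insert.1 (Finset.mem_coe.1 hb) with rfl | hb'
      · exact ((Finset.mem_filter.1 (hQT ha')).2).symm
      · exact hQc ha' hb' hab
  · intro u hu
    by_cases hvu : G.Adj v u
    · obtain ⟨p, hp, hpu⟩ := hQm u (Finset.mem_filter.2 ⟨hu, hvu⟩)
      exact ⟨p, Finset.mem_insert_of_mem hp, hpu⟩
    · exact ⟨v, Finset.mem_insert_self _ _, hvu⟩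
  · rw [Finset.sum_insert hvQ]
    have hsplit : ∑ u ∈ S, w u / (nn G S u : ℝ)
        = ∑ u ∈ T, w u / (nn G S u : ℝ) + ∑ u ∈ S.filter (fun u => ¬ G.Adj v u), w u / (nn G S u : ℝ) :=
      (Finset.sum_filter_add_sum_filter_not S _ _).symm
    have hnnpos : ∀ u ∈ S, (0 : ℝ) < nn G S u := by
      intro u hu
      have : 0 < nn G S u := by
        unfold nn
        exact Finset.card_pos.2 ⟨u, Finset.mem_filter.2 ⟨hu, G.irrefl⟩⟩
      exact_mod_cast this
    have h1 : ∑ u ∈ T, w u / (nn G S u : ℝ) ≤ ∑ u ∈ T, w u / (nn G T u : ℝ) := by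
      refine Finset.sum_le_sum (fun u hu => ?_)
      have hpos : (0 : ℝ) < nn G T u := by
        have : 0 < nn G T u := by
          unfold nn
          exact Finset.card_pos.2 ⟨u, Finset.mem_filter.2 ⟨hu, G.irrefl⟩⟩
        exact_mod_cast this
      have hle : (nn G T u : ℝ) ≤ nn G S u := by
        have : nn G T u ≤ nn G S u := by
          unfold nn
          exact Finset.card_le_card (Finset.filter_subset_filter _ hTS)
        exact_mod_cast this
      exact div_le_div_of_nonneg_left (hw u (hTS hu)) hpos hle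
    have h2 : ∑ u ∈ S.filter (fun u => ¬ G.Adj v u), w u / (nn G S u : ℝ) ≤ w v := by
      calc ∑ u ∈ S.filter (fun u => ¬ G.Adj v u), w u / (nn G S u : ℝ)
          ≤ (S.filter (fun u => ¬ G.Adj v u)).card • (w v / (nn G S v : ℝ)) :=
            Finset.sum_le_card_nsmul _ _ _ (fun u hu => hmax u (Finset.mem_filter.1 hu).1)
        _ = w v := by
            rw [nsmul_eq_mul]
            have : ((S.filter (fun u => ¬ G.Adj v u)).card : ℝ) = nn G S v := rfl
            rw [this, mul_div_cancel₀]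
            exact (hnnpos v hv).ne'
    linarith

theorem caro_wei (G : SimpleGraph V) (S : Finset V) (w : V → ℝ) (hw : ∀ v ∈ S, 0 ≤ w v) :
    ∃ Q ⊆ S, G.IsClique (Q : Set V) ∧ (∀ v ∈ S, ∃ p ∈ Q, ¬ G.Adj p v) ∧
      ∑ v ∈ S, w v / (nn G S v : ℝ) ≤ ∑ p ∈ Q, w p := caroWei G w S hw

/-- The number of vertices of `S` is at most the sum of the numbers of non-neighbours of a maximal clique. -/
theorem card_le_sum_nn (G : SimpleGraph V) (S Q : Finset V) (hQ : ∀ v ∈ S, ∃ p ∈ Q, ¬ G.Adj p v) :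
    S.card ≤ ∑ p ∈ Q, nn G S p := by
  unfold nn
  refine le_trans (Finset.card_le_card ?_) (Finset.card_biUnion_le)
  intro v hv
  obtain ⟨p, hp, hpv⟩ := hQ v hv
  rw [Finset.mem_biUnion]
  exact ⟨p, hp, Finset.mem_filter.2 ⟨hv, hpv⟩⟩

/-- If every vertex of `S` has at most `B` non-neighbours in `S`, itself included, and there are less than `|S|^2 / r`
ordered pairs of non-adjacent vertices in `S`, then `S` contains a maximal clique `Q` whose vertices have together
less than `|S| + B (|Q| - r)` non-neighbours in `S`. In particular `|Q| > r`. -/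
theorem caroWei_clique (G : SimpleGraph V) (S : Finset V) {B r : ℝ}
    (hB : ∀ v ∈ S, (nn G S v : ℝ) ≤ B) (hM : r * ∑ v ∈ S, (nn G S v : ℝ) < (S.card : ℝ) ^ 2) :
    ∃ Q ⊆ S, G.IsClique (Q : Set V) ∧ (∀ v ∈ S, ∃ p ∈ Q, ¬ G.Adj p v) ∧ r < Q.card ∧
      (S.card : ℝ) ≤ ∑ p ∈ Q, (nn G S p : ℝ) ∧
      ∑ p ∈ Q, (nn G S p : ℝ) < S.card + B * ((Q.card : ℝ) - r) := by
  have hnn1 : ∀ u ∈ S, (1 : ℝ) ≤ nn G S u := by
    intro u hu
    have : 0 < nn G S u := by
      unfold nn
      exact Finset.card_pos.2 ⟨u, Finset.mem_filter.2 ⟨hu, G.irrefl⟩⟩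
    exact_mod_cast this
  have hne : S.Nonempty := by
    rcases S.eq_empty_or_nonempty with rfl | h
    · simp at hM
    · exact h
  obtain ⟨Q, hQS, hQc, hQm, hQw⟩ := caroWei G (fun v => B - (nn G S v : ℝ)) S
    (fun v hv => sub_nonneg.2 (hB v hv))
  have hBpos : 0 < B := by
    obtain ⟨u, hu⟩ := hne
    linarith [hB u hu, hnn1 u hu]
  have hMpos : 0 < ∑ v ∈ S, (nn G S v : ℝ) :=
    Finset.sum_pos (fun v hv => by linarith [hnn1 v hv]) hne
  have hsum : ∑ v ∈ S, (B - (nn G S v : ℝ)) / (nn G S v : ℝ)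
      = B * ∑ v ∈ S, (1 : ℝ) ^ 2 / (nn G S v : ℝ) - S.card := by
    rw [Finset.mul_sum, Finset.card_eq_sum_ones, Nat.cast_sum, ← Finset.sum_sub_distrib]
    refine Finset.sum_congr rfl (fun v hv => ?_)
    have : (nn G S v : ℝ) ≠ 0 := by linarith [hnn1 v hv]
    field_simp
    simp
  have hcs := Finset.sq_sum_div_le_sum_sq_div S (fun _ => (1 : ℝ)) (g := fun v => (nn G S v : ℝ))
    (fun v hv => by linarith [hnn1 v hv])
  have hr2 : r < ∑ v ∈ S, (1 : ℝ) ^ 2 / (nn G S v : ℝ) := by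
    refine lt_of_lt_of_le ?_ hcs
    rw [lt_div_iff₀ hMpos]
    simpa using hM
  have hQsum : ∑ v ∈ Q, (B - (nn G S v : ℝ)) = B * Q.card - ∑ v ∈ Q, (nn G S v : ℝ) := by
    rw [Finset.sum_sub_distrib, Finset.sum_const, nsmul_eq_mul, mul_comm]
  rw [hsum, hQsum] at hQw
  have h1 : (S.card : ℝ) ≤ ∑ p ∈ Q, (nn G S p : ℝ) := by
    exact_mod_cast card_le_sum_nn G S Q hQm
  have h2 : B * r < B * ∑ v ∈ S, (1 : ℝ) ^ 2 / (nn G S v : ℝ) := mul_lt_mul_of_pos_left hr2 hBpos
  have h3 : ∑ p ∈ Q, (nn G S p : ℝ) < S.card + B * ((Q.card : ℝ) - r) := by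
    have : B * ((Q.card : ℝ) - r) = B * Q.card - B * r := by ring
    linarith
  refine ⟨Q, hQS, hQc, hQm, ?_, h1, h3⟩
  have h4 : 0 < B * ((Q.card : ℝ) - r) := by linarith
  have h5 : 0 < (Q.card : ℝ) - r := by
    by_contra hle
    push Not at hle
    have := mul_nonpos_of_nonneg_of_nonpos hBpos.le hle
    linarith
  linarith

end Pool.Agent.FKC
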