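import Pool.Agent.FKC.Defs

/-!
Counting the pairs of non-adjacent vertices in a set on which a map to a finite set of colours is a proper colouring.
-/

namespace Pool.Agent.FKC

open Finset Classical

variable {V ι : Type*}

/-- a map is a proper colouring of the vertices in `S` -/
def ProperOn (G : SimpleGraph V) (col : V → ι) (S : Finset V) : Prop :=
  ∀ v ∈ S, ∀ w ∈ S, col v = col w → ¬ G.Adj v w

theorem Proper.on {G : SimpleGraph V} {col : V → ι} (h : Proper G col) (S : Finset V) : ProperOn G col S :=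
  fun v _ w _ => h v w

theorem ProperOn.mono {G : SimpleGraph V} {col : V → ι} {S T : Finset V} (h : ProperOn G col S) (hT : T ⊆ S) :
    ProperOn G col T :=
  fun v hv w hw => h v (hT hv) w (hT hw)

theorem mem_cl {col : V → ι} {S : Finset V} {a : ι} {v : V} : v ∈ cl col S a ↔ v ∈ S ∧ col v = a := by
  simp [cl]

theorem cl_subset (col : V → ι) (S : Finset V) (a : ι) : cl col S a ⊆ S := Finset.filter_subset _ _

/-- the classes partition `S` -/
theorem card_eq_sum_cl [Fintype ι] (col : V → ι) (S : Finset V) : S.card = ∑ a, (cl col S a).card :=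
  Finset.card_eq_sum_card_fiberwise (fun v _ => Finset.mem_coe.2 (Finset.mem_univ (col v)))

theorem sq_card_le [Fintype ι] (col : V → ι) (S : Finset V) :
    S.card ^ 2 ≤ Fintype.card ι * ∑ a, (cl col S a).card ^ 2 := by
  rw [card_eq_sum_cl col S]
  exact sq_sum_le_card_mul_sum_sq

theorem nn_eq {G : SimpleGraph V} {col : V → ι} {S : Finset V} (h : ProperOn G col S) {v : V} (hv : v ∈ S) :
    nn G S v = ex G col S v + (cl col S (col v)).card := by
  unfold nn ex
  rw [← Finset.card_union_of_disjoint]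
  · congr 1
    ext w
    simp only [Finset.mem_filter, Finset.mem_union, mem_cl]
    constructor
    · rintro ⟨hw, hvw⟩
      by_cases hc : col w = col v
      · exact Or.inr ⟨hw, hc⟩
      · exact Or.inl ⟨hw, hc, hvw⟩
    · rintro (⟨hw, _, hvw⟩ | ⟨hw, hc⟩)
      · exact ⟨hw, hvw⟩
      · exact ⟨hw, h v hv w hw hc.symm⟩
  · rw [Finset.disjoint_left]
    intro w hw1 hw2
    exact (Finset.mem_filter.1 hw1).2.1 (mem_cl.1 hw2).2

theorem cls_card_le_nn {G : SimpleGraph V} {col : V → ι} {S : Finset V} (h : ProperOn G col S) {v : V}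
    (hv : v ∈ S) : (cl col S (col v)).card ≤ nn G S v := by
  rw [nn_eq h hv]
  omega

/-- a bound for all numbers of non-neighbours bounds the size of the classes -/
theorem cls_card_le {G : SimpleGraph V} {col : V → ι} {S : Finset V} (h : ProperOn G col S) {B : ℝ} (hB0 : 0 ≤ B)
    (hB : ∀ v ∈ S, (nn G S v : ℝ) ≤ B) (a : ι) : ((cl col S a).card : ℝ) ≤ B := by
  rcases (cl col S a).eq_empty_or_nonempty with h0 | ⟨v, hv⟩
  · rw [h0]
    simpa using hB0
  · obtain ⟨hvS, rfl⟩ := mem_cl.1 hv
    exact le_trans (by exact_mod_cast cls_card_le_nn h hvS) (hB v hvS)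

theorem sum_eq_sum_cl [Fintype ι] (col : V → ι) (S : Finset V) (g : V → ℕ) :
    ∑ v ∈ S, g v = ∑ a, ∑ v ∈ cl col S a, g v := by
  unfold cl
  exact (Finset.sum_fiberwise S col g).symm

/-- the number of pairs of non-adjacent vertices of `S` -/
theorem sum_nn_eq [Fintype ι] {G : SimpleGraph V} {col : V → ι} {S : Finset V} (h : ProperOn G col S) :
    ∑ v ∈ S, nn G S v = ∑ a, Ex G col S a + ∑ a, (cl col S a).card ^ 2 := by
  rw [sum_eq_sum_cl col S, ← Finset.sum_add_distrib]
  refine Finset.sum_congr rfl (fun a _ => ?_)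
  unfold Ex
  rw [sq, ← smul_eq_mul, ← Finset.sum_const, ← Finset.sum_add_distrib]
  refine Finset.sum_congr rfl (fun v hv => ?_)
  obtain ⟨hvS, rfl⟩ := mem_cl.1 hv
  exact nn_eq h hvS

/-- `|S|^2 <= |ι| M(S)` -/
theorem sq_card_le_mul_sum_nn [Fintype ι] {G : SimpleGraph V} {col : V → ι} {S : Finset V}
    (h : ProperOn G col S) : S.card ^ 2 ≤ Fintype.card ι * ∑ v ∈ S, nn G S v := by
  refine le_trans (sq_card_le col S) (Nat.mul_le_mul_left _ ?_)
  rw [sum_nn_eq h]
  omega

/-- the number of pairs of non-adjacent vertices in two sets -/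
noncomputable def mm (G : SimpleGraph V) (X Y : Finset V) : ℕ := ((X ×ˢ Y).filter fun p => ¬ G.Adj p.1 p.2).card

theorem mm_eq (G : SimpleGraph V) (X Y : Finset V) :
    mm G X Y = ∑ w ∈ X, (Y.filter fun u => ¬ G.Adj w u).card := by
  unfold mm
  rw [Finset.card_filter, Finset.sum_product]
  exact Finset.sum_congr rfl (fun w _ => (Finset.card_filter _ _).symm)

theorem mm_comm (G : SimpleGraph V) (X Y : Finset V) : mm G X Y = mm G Y X := by
  unfold mm
  refine Finset.card_bij (fun p _ => (p.2, p.1)) ?_ ?_ ?_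
  · intro p hp
    simp only [Finset.mem_filter, Finset.mem_product] at hp ⊢
    exact ⟨⟨hp.1.2, hp.1.1⟩, fun h => hp.2 h.symm⟩
  · intro p _ p' _ h
    simp only [Prod.mk.injEq] at h
    exact Prod.ext h.2 h.1
  · intro p hp
    simp only [Finset.mem_filter, Finset.mem_product] at hp
    refine ⟨(p.2, p.1), ?_, rfl⟩
    simp only [Finset.mem_filter, Finset.mem_product]
    exact ⟨⟨hp.1.2, hp.1.1⟩, fun h => hp.2 h.symm⟩

/-- non-adjacent pairs between a subset of the class of `a` and subsets of the other classes -/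
theorem sum_mm_le [Fintype ι] (G : SimpleGraph V) (col : V → ι) (S : Finset V) (X : ι → Finset V)
    (hX : ∀ a, X a ⊆ cl col S a) (a : ι) :
    ∑ b ∈ Finset.univ.erase a, mm G (X a) (X b) ≤ Ex G col S a := by
  calc ∑ b ∈ Finset.univ.erase a, mm G (X a) (X b)
      = ∑ w ∈ X a, ∑ b ∈ Finset.univ.erase a, ((X b).filter fun u => ¬ G.Adj w u).card := by
        rw [Finset.sum_comm]
        exact Finset.sum_congr rfl (fun b _ => mm_eq G _ _)
    _ ≤ ∑ w ∈ X a, ex G col S w := by
        refine Finset.sum_le_sum (fun w hw => ?_)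
        have hwa := (mem_cl.1 (hX a hw)).2
        unfold ex
        rw [← Finset.card_biUnion]
        · refine Finset.card_le_card ?_
          intro u hu
          rw [Finset.mem_biUnion] at hu
          obtain ⟨b, hb, hu⟩ := hu
          rw [Finset.mem_filter] at hu
          have hub := mem_cl.1 (hX b hu.1)
          rw [Finset.mem_filter]
          refine ⟨hub.1, ?_, hu.2⟩
          rw [hub.2, hwa]
          exact (Finset.mem_erase.1 hb).1
        · intro b _ b' _ hbb
          refine Finset.disjoint_left.2 ?_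
          intro u hu hu'
          have h1 := (mem_cl.1 (hX b (Finset.mem_filter.1 hu).1)).2
          have h2 := (mem_cl.1 (hX b' (Finset.mem_filter.1 hu').1)).2
          exact hbb (h1.symm.trans h2)
    _ ≤ Ex G col S a := by
        unfold Ex
        exact Finset.sum_le_sum_of_subset (hX a)

/-- the sum over all pairs of classes -/
theorem sum_sum_mm_le [Fintype ι] (G : SimpleGraph V) (col : V → ι) (S : Finset V) (X : ι → Finset V)
    (hX : ∀ a, X a ⊆ cl col S a) :
    ∑ a, ∑ b ∈ Finset.univ.erase a, mm G (X a) (X b) ≤ ∑ a, Ex G col S a :=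
  Finset.sum_le_sum (fun a _ => sum_mm_le G col S X hX a)

/-- vertices of other colours which miss many vertices of a subset of the class of `a` -/
theorem mul_card_le_Ex (G : SimpleGraph V) (col : V → ι) (S : Finset V) {a : ι} {X Z : Finset V}
    (hX : X ⊆ cl col S a) (hZ : ∀ z ∈ Z, z ∈ S ∧ col z ≠ a) {m : ℕ}
    (hm : ∀ z ∈ Z, m ≤ (X.filter fun v => ¬ G.Adj z v).card) : Z.card * m ≤ Ex G col S a := by
  calc Z.card * m ≤ ∑ z ∈ Z, (X.filter fun v => ¬ G.Adj z v).card := by
        rw [← smul_eq_mul]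
        exact Finset.card_nsmul_le_sum _ _ _ hm
    _ = ∑ w ∈ X, (Z.filter fun z => ¬ G.Adj w z).card := by
        rw [← mm_eq, mm_comm, mm_eq]
    _ ≤ ∑ w ∈ X, ex G col S w := by
        refine Finset.sum_le_sum (fun w hw => ?_)
        unfold ex
        refine Finset.card_le_card ?_
        intro z hz
        rw [Finset.mem_filter] at hz ⊢
        refine ⟨(hZ z hz.1).1, ?_, hz.2⟩
        rw [(mem_cl.1 (hX hw)).2]
        exact (hZ z hz.1).2
    _ ≤ Ex G col S a := by
        unfold Ex
        exact Finset.sum_le_sum_of_subset hX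

/-- the same with one exceptional vertex -/
theorem mul_card_le_Ex' (G : SimpleGraph V) (col : V → ι) (S : Finset V) {a : ι} {X Z : Finset V} (v0 : V)
    (hX : X ⊆ cl col S a) (hZ : ∀ z ∈ Z, z ≠ v0 → z ∈ S ∧ col z ≠ a) {m : ℕ}
    (hm : ∀ z ∈ Z, m ≤ (X.filter fun v => ¬ G.Adj z v).card) : (Z.card - 1) * m ≤ Ex G col S a := by
  have h1 := mul_card_le_Ex G col S (Z := Z.erase v0) hX
    (fun z hz => hZ z (Finset.mem_erase.1 hz).2 (Finset.mem_erase.1 hz).1)
    (fun z hz => hm z (Finset.mem_erase.1 hz).2)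
  refine le_trans (Nat.mul_le_mul_right m ?_) h1
  exact Finset.pred_card_le_card_erase

end Pool.Agent.FKC
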