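import Mathlib

/-!
Cleaning of a dense pair: a sub-pair in which every vertex misses at most one sixth of the other side.
-/

set_option autoImplicit false

namespace Pool.Agent.FKC

open Finset Classical

variable {V : Type*} [Fintype V]

/-- the sub-pair `X' × Y'` maximises `|X'||Y'| - 6 mm(X',Y')` -/
theorem exists_clean (G : SimpleGraph V) (X Y : Finset V) :
    ∃ X' ⊆ X, ∃ Y' ⊆ Y,
      (∀ v ∈ X', 6 * (Y'.filter (fun w => ¬ G.Adj v w)).card ≤ Y'.card) ∧
      (∀ w ∈ Y', 6 * (X'.filter (fun v => ¬ G.Adj w v)).card ≤ X'.card) ∧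
      X.card * Y.card + 6 * ((X' ×ˢ Y').filter fun p => ¬ G.Adj p.1 p.2).card ≤
        X'.card * Y'.card + 6 * ((X ×ˢ Y).filter fun p => ¬ G.Adj p.1 p.2).card := by
  obtain ⟨⟨X', Y'⟩, hmem, hmax⟩ := exists_max_image (X.powerset ×ˢ Y.powerset)
    (fun p => (p.1.card : ℤ) * p.2.card - 6 * (((p.1 ×ˢ p.2).filter fun r => ¬ G.Adj r.1 r.2).card : ℤ))
    ⟨(X, Y), mem_product.2 ⟨mem_powerset_self X, mem_powerset_self Y⟩⟩
  rw [mem_product] at hmem
  have hX : X' ⊆ X := mem_powerset.1 hmem.1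
  have hY : Y' ⊆ Y := mem_powerset.1 hmem.2
  have hcount : ∀ A B : Finset V, ((A ×ˢ B).filter fun p => ¬ G.Adj p.1 p.2).card =
      ∑ v ∈ A, (B.filter fun w => ¬ G.Adj v w).card := by
    intro A B
    rw [card_filter, sum_product]
    refine sum_congr rfl fun v _ => ?_
    rw [card_filter]
  have hcount' : ∀ A B : Finset V, ((A ×ˢ B).filter fun p => ¬ G.Adj p.1 p.2).card =
      ∑ w ∈ B, (A.filter fun v => ¬ G.Adj w v).card := by
    intro A B
    rw [card_filter, sum_product_right]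
    refine sum_congr rfl fun w _ => ?_
    rw [card_filter]
    refine sum_congr rfl fun v _ => ?_
    rw [G.adj_comm w v]
  refine ⟨X', hX, Y', hY, ?_, ?_, ?_⟩
  · intro v hv
    have h1 := hmax (X'.erase v, Y') (mem_product.2
      ⟨mem_powerset.2 ((erase_subset v X').trans hX), mem_powerset.2 hY⟩)
    have h2 : ((X' ×ˢ Y').filter fun p => ¬ G.Adj p.1 p.2).card =
        (Y'.filter fun w => ¬ G.Adj v w).card + (((X'.erase v) ×ˢ Y').filter fun p => ¬ G.Adj p.1 p.2).card := by
      rw [hcount, hcount]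
      exact (add_sum_erase X' (fun v => (Y'.filter fun w => ¬ G.Adj v w).card) hv).symm
    have h3 : (X'.card : ℤ) = (X'.erase v).card + 1 := by
      rw [card_erase_of_mem hv]
      have := card_pos.2 ⟨v, hv⟩
      omega
    simp only [h2, h3] at h1
    push_cast at h1
    have h4 : (6 : ℤ) * ((Y'.filter fun w => ¬ G.Adj v w).card : ℤ) ≤ Y'.card := by linarith
    exact_mod_cast h4
  · intro w hw
    have h1 := hmax (X', Y'.erase w) (mem_product.2
      ⟨mem_powerset.2 hX, mem_powerset.2 ((erase_subset w Y').trans hY)⟩)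
    have h2 : ((X' ×ˢ Y').filter fun p => ¬ G.Adj p.1 p.2).card =
        (X'.filter fun v => ¬ G.Adj w v).card + ((X' ×ˢ (Y'.erase w)).filter fun p => ¬ G.Adj p.1 p.2).card := by
      rw [hcount', hcount']
      exact (add_sum_erase Y' (fun w => (X'.filter fun v => ¬ G.Adj w v).card) hw).symm
    have h3 : (Y'.card : ℤ) = (Y'.erase w).card + 1 := by
      rw [card_erase_of_mem hw]
      have := card_pos.2 ⟨w, hw⟩
      omega
    simp only [h2, h3] at h1
    push_cast at h1
    have h4 : (6 : ℤ) * ((X'.filter fun v => ¬ G.Adj w v).card : ℤ) ≤ X'.card := by linarith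
    exact_mod_cast h4
  · have h1 := hmax (X, Y) (mem_product.2 ⟨mem_powerset_self X, mem_powerset_self Y⟩)
    simp only at h1
    have h2 : (X.card : ℤ) * Y.card + 6 * (((X' ×ˢ Y').filter fun p => ¬ G.Adj p.1 p.2).card : ℤ) ≤
        (X'.card : ℤ) * Y'.card + 6 * (((X ×ˢ Y).filter fun p => ¬ G.Adj p.1 p.2).card : ℤ) := by linarith
    exact_mod_cast h2

end Pool.Agent.FKC
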