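import Mathlib

/-!
Counting in graphs with a proper vertex colouring: definitions.
-/

namespace Pool.Agent.FKC

open Finset Classical

variable {V ι : Type*} [Fintype V]

/-- the number of non-neighbours of `v` in `S` (`v` included if it is in `S`) -/
noncomputable def nn (G : SimpleGraph V) (S : Finset V) (v : V) : ℕ := (S.filter fun w => ¬ G.Adj v w).card

/-- the colour class of `a` in `S` -/
noncomputable def cl (col : V → ι) (S : Finset V) (a : ι) : Finset V := S.filter fun w => col w = a

/-- the number of non-neighbours of `v` in `S` in the other classes -/
noncomputable def ex (G : SimpleGraph V) (col : V → ι) (S : Finset V) (v : V) : ℕ :=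
  (S.filter fun w => col w ≠ col v ∧ ¬ G.Adj v w).card

/-- the number of pairs of non-adjacent vertices of `S` in different classes, the first one in the class `a` -/
noncomputable def Ex (G : SimpleGraph V) (col : V → ι) (S : Finset V) (a : ι) : ℕ :=
  ∑ v ∈ cl col S a, ex G col S v

/-- a proper colouring -/
def Proper (G : SimpleGraph V) (col : V → ι) : Prop := ∀ v w, col v = col w → ¬ G.Adj v w

end Pool.Agent.FKC
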