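import Mathlib
import Pool.Agent.FKC.Defs
import Pool.Agent.FKC.CaroWei

/-!
The clique `Q` of size at least `r + 1` and the bound for the vertices of `S` that miss a vertex of
`Q` in another colour class.
-/

namespace Pool.Agent.FKC

open Finset Classical

variable {V ι : Type*} [Fintype V]

/-- a colour class inside `S` is at most as large as the number of non-neighbours of its elements -/
theorem cl_card_le_nn (G : SimpleGraph V) (col : V → ι) (hcol : Proper G col) (S : Finset V) (v : V) :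
    (cl col S (col v)).card ≤ nn G S v := by
  unfold cl nn
  refine card_le_card (fun w hw => ?_)
  rw [mem_filter] at hw ⊢
  exact ⟨hw.1, hcol v w hw.2.symm⟩

theorem cl_card_le (G : SimpleGraph V) (col : V → ι) (hcol : Proper G col) (S : Finset V) {B : ℝ}
    (hB : ∀ v ∈ S, (nn G S v : ℝ) < B) (hB0 : 0 ≤ B) (a : ι) : ((cl col S a).card : ℝ) ≤ B := by
  rcases (cl col S a).eq_empty_or_nonempty with h | ⟨v, hv⟩
  · rw [h]; simpa using hB0
  · have hv2 : v ∈ S ∧ col v = a := by
      unfold cl at hv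
      rwa [mem_filter] at hv
    have h1 := cl_card_le_nn G col hcol S v
    rw [hv2.2] at h1
    have h2 : ((cl col S a).card : ℝ) ≤ nn G S v := by exact_mod_cast h1
    exact h2.trans (hB v hv2.1).le

/-- the colouring is injective on a clique -/
theorem col_injOn (G : SimpleGraph V) (col : V → ι) (hcol : Proper G col) (Q : Finset V)
    (hQ : G.IsClique (Q : Set V)) : Set.InjOn col (Q : Set V) := by
  intro v hv w hw h
  by_contra hne
  exact hcol v w h (hQ hv hw hne)

/-- C2 -/
theorem exists_Q2 [Fintype ι] (G : SimpleGraph V) (col : V → ι) (hcol : Proper G col) {r : ℕ} (_hr : 0 < r)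
    (hι : Fintype.card ι = r + 4) (S : Finset V) {B : ℝ} (hB : ∀ v ∈ S, (nn G S v : ℝ) < B) (hB0 : 0 ≤ B)
    (hS : (r : ℝ) * ∑ v ∈ S, (nn G S v : ℝ) < (S.card : ℝ) ^ 2) :
    ∃ Q ⊆ S, G.IsClique (Q : Set V) ∧ r + 1 ≤ Q.card ∧
      ((S.filter fun w => ∃ p ∈ Q, col p ≠ col w ∧ ¬ G.Adj p w).card : ℝ) ≤ 4 * B := by
  obtain ⟨Q, hQS, hQ, hmax, hrQ, _, hsum⟩ := caroWei_clique G S (fun v hv => (hB v hv).le) hS
  have hrQ' : r < Q.card := by exact_mod_cast hrQ
  refine ⟨Q, hQS, hQ, hrQ', ?_⟩
  set L := S.filter fun w => ∃ p ∈ Q, col p ≠ col w ∧ ¬ G.Adj p w with hL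
  set D := S.filter fun w => ∃ p ∈ Q, col p = col w with hD
  have hinj := col_injOn G col hcol Q hQ
  have hQι : Q.card ≤ r + 4 := by
    rw [← hι, ← card_image_of_injOn hinj]
    exact card_le_univ _
  -- the sum of the non-degrees over `Q`, counted from the other side
  have hdc : ∑ p ∈ Q, (nn G S p : ℝ) = ∑ w ∈ S, ((Q.filter fun p => ¬ G.Adj p w).card : ℝ) := by
    unfold nn
    have : ∑ p ∈ Q, (S.filter fun w => ¬ G.Adj p w).card = ∑ w ∈ S, (Q.filter fun p => ¬ G.Adj p w).card :=
      sum_card_bipartiteAbove_eq_sum_card_bipartiteBelow (fun p w => ¬ G.Adj p w)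
    exact_mod_cast this
  -- lower bound of the counts
  have hlow : ∀ w ∈ S, (1 : ℝ) + (if w ∈ L ∩ D then 1 else 0) ≤ ((Q.filter fun p => ¬ G.Adj p w).card : ℝ) := by
    intro w hw
    split_ifs with h
    · rw [mem_inter, hL, hD, mem_filter, mem_filter] at h
      obtain ⟨⟨_, p, hp, hpc, hpa⟩, _, p', hp', hpc'⟩ := h
      have hne : p ≠ p' := fun he => hpc (he ▸ hpc')
      have h2 : ({p, p'} : Finset V) ⊆ Q.filter fun p => ¬ G.Adj p w := by
        intro x hx
        rw [mem_insert, mem_singleton] at hx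
        rcases hx with rfl | rfl
        · exact mem_filter.2 ⟨hp, hpa⟩
        · exact mem_filter.2 ⟨hp', hcol _ _ hpc'⟩
      have h3 := card_le_card h2
      rw [card_pair hne] at h3
      have h4 : ((2 : ℕ) : ℝ) ≤ ((Q.filter fun p => ¬ G.Adj p w).card : ℝ) := by exact_mod_cast h3
      push_cast at h4
      linarith
    · obtain ⟨p, hp, hpa⟩ := hmax w hw
      have h3 : 1 ≤ (Q.filter fun p => ¬ G.Adj p w).card :=
        card_pos.2 ⟨p, mem_filter.2 ⟨hp, hpa⟩⟩
      have h4 : ((1 : ℕ) : ℝ) ≤ ((Q.filter fun p => ¬ G.Adj p w).card : ℝ) := by exact_mod_cast h3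
      push_cast at h4
      linarith
  have hLS : L ⊆ S := filter_subset _ _
  have h1 : ((S.card : ℝ)) + ((L ∩ D).card : ℝ) ≤ ∑ p ∈ Q, (nn G S p : ℝ) := by
    rw [hdc]
    refine le_trans (le_of_eq ?_) (sum_le_sum hlow)
    rw [sum_add_distrib, sum_const, nsmul_eq_mul, mul_one, sum_ite_mem, sum_const, nsmul_eq_mul, mul_one]
    rw [inter_eq_right.2 (inter_subset_left.trans hLS)]
  -- the part of `L` outside of the colours of `Q`
  have h2 : ((L \ D).card : ℝ) ≤ ((Fintype.card ι : ℝ) - Q.card) * B := by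
    have hsub : L \ D ⊆ (univ \ Q.image col).biUnion (fun a => cl col S a) := by
      intro w hw
      rw [mem_sdiff, hL, hD, mem_filter, mem_filter] at hw
      rw [mem_biUnion]
      refine ⟨col w, ?_, ?_⟩
      · rw [mem_sdiff, mem_image]
        refine ⟨mem_univ _, fun ⟨p, hp, hpc⟩ => hw.2 ⟨hw.1.1, p, hp, hpc⟩⟩
      · unfold cl
        rw [mem_filter]
        exact ⟨hw.1.1, rfl⟩
    have h3 : ((L \ D).card : ℝ) ≤ ∑ a ∈ univ \ Q.image col, ((cl col S a).card : ℝ) := by
      have := (card_le_card hsub).trans card_biUnion_le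
      exact_mod_cast this
    refine h3.trans ((sum_le_sum (fun a _ => cl_card_le G col hcol S hB hB0 a)).trans (le_of_eq ?_))
    rw [sum_const, nsmul_eq_mul]
    congr 1
    have h4 : (univ \ Q.image col).card + Q.card = Fintype.card ι := by
      rw [← card_image_of_injOn hinj, card_sdiff_add_card_eq_card (subset_univ _), card_univ]
    have h5 : (((univ \ Q.image col).card : ℝ)) + Q.card = Fintype.card ι := by exact_mod_cast h4
    linarith
  have h3 : (L.card : ℝ) = ((L ∩ D).card : ℝ) + ((L \ D).card : ℝ) := by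
    have := card_inter_add_card_sdiff L D
    exact_mod_cast this.symm
  rw [hι] at h2
  push_cast at h2
  rw [h3]
  have h4 : B * ((Q.card : ℝ) - r) + (((r : ℝ) + 4) - Q.card) * B = 4 * B := by ring
  linarith

end Pool.Agent.FKC
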