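import Mathlib
import Pool.Agent.FKC.Defs
import Pool.Agent.FKC.Clique2

/-!
The bound for the vertices of `S` that miss a vertex of the clique `Q` in another colour class, for a
colouring with `q` proper colours and one exceptional vertex (colour `none`).
-/

namespace Pool.Agent.FKC

open Finset Classical

variable {V : Type*} [Fintype V]

omit [Fintype V] in
theorem mem_cl3 {ι : Type*} (col : V → ι) (S : Finset V) (a : ι) (w : V) :
    w ∈ cl col S a ↔ w ∈ S ∧ col w = a := by
  unfold cl
  rw [mem_filter]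

/-- A3 -/
theorem lost_le {q : ℕ} (G : SimpleGraph V) (col : V → Option (Fin q)) (hcol : Proper G col)
    (hnone : (cl col univ none).card ≤ 1) (S Q : Finset V) (hQS : Q ⊆ S) (hQ : G.IsClique (Q : Set V))
    (hQn : ∀ p ∈ Q, col p ≠ none) (hmax : ∀ v ∈ S, ∃ p ∈ Q, ¬ G.Adj p v) {B r : ℝ}
    (hB : ∀ v ∈ S, (nn G S v : ℝ) < B) (hB0 : 0 ≤ B)
    (hsum : ∑ p ∈ Q, (nn G S p : ℝ) < S.card + B * ((Q.card : ℝ) - r)) :
    ((S.filter fun w => ∃ p ∈ Q, col p ≠ col w ∧ ¬ G.Adj p w).card : ℝ) ≤ ((q : ℝ) - r) * B + 1 := by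
  have _ := hQS
  set L := S.filter fun w => ∃ p ∈ Q, col p ≠ col w ∧ ¬ G.Adj p w with hL
  set D := S.filter fun w => ∃ p ∈ Q, col p = col w with hD
  have hinj := col_injOn G col hcol Q hQ
  -- the sum of the non-degrees over `Q`, counted from the other side
  have hdc : ∑ p ∈ Q, (nn G S p : ℝ) = ∑ w ∈ S, ((Q.filter fun p => ¬ G.Adj p w).card : ℝ) := by
    unfold nn
    have : ∑ p ∈ Q, (S.filter fun w => ¬ G.Adj p w).card = ∑ w ∈ S, (Q.filter fun p => ¬ G.Adj p w).card :=
      sum_card_bipartiteAbove_eq_sum_card_bipartiteBelow (fun p w => ¬ G.Adj p w)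
    exact_mod_cast this
  -- lower bound of the counts
  have hlow : ∀ w ∈ S, (1 : ℝ) + (if w ∈ L ∩ D then 1 else 0) ≤ ((Q.filter fun p => ¬ G.Adj p w).card : ℝ) := by
    intro w hw
    split_ifs with h
    · rw [mem_inter, hL, hD, mem_filter, mem_filter] at h
      obtain ⟨⟨_, p, hp, hpc, hpa⟩, _, p', hp', hpc'⟩ := h
      have hne : p ≠ p' := fun he => hpc (he ▸ hpc')
      have h2 : ({p, p'} : Finset V) ⊆ Q.filter fun p => ¬ G.Adj p w := by
        intro x hx
        rw [mem_insert, mem_singleton] at hx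
        rcases hx with rfl | rfl
        · exact mem_filter.2 ⟨hp, hpa⟩
        · exact mem_filter.2 ⟨hp', hcol _ _ hpc'⟩
      have h3 := card_le_card h2
      rw [card_pair hne] at h3
      have h4 : ((2 : ℕ) : ℝ) ≤ ((Q.filter fun p => ¬ G.Adj p w).card : ℝ) := by exact_mod_cast h3
      push_cast at h4
      linarith
    · obtain ⟨p, hp, hpa⟩ := hmax w hw
      have h3 : 1 ≤ (Q.filter fun p => ¬ G.Adj p w).card :=
        card_pos.2 ⟨p, mem_filter.2 ⟨hp, hpa⟩⟩
      have h4 : ((1 : ℕ) : ℝ) ≤ ((Q.filter fun p => ¬ G.Adj p w).card : ℝ) := by exact_mod_cast h3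
      push_cast at h4
      linarith
  have hLS : L ⊆ S := filter_subset _ _
  have h1 : ((S.card : ℝ)) + ((L ∩ D).card : ℝ) ≤ ∑ p ∈ Q, (nn G S p : ℝ) := by
    rw [hdc]
    refine le_trans (le_of_eq ?_) (sum_le_sum hlow)
    rw [sum_add_distrib, sum_const, nsmul_eq_mul, mul_one, sum_ite_mem, sum_const, nsmul_eq_mul, mul_one]
    rw [inter_eq_right.2 (inter_subset_left.trans hLS)]
  -- the part of `L` outside of the colours of `Q`
  set A : Finset (Fin q) := univ.filter (fun a => some a ∉ Q.image col) with hA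
  have hAcard : ((A.card : ℝ)) + Q.card = q := by
    have e1 : (univ.filter (fun a : Fin q => ¬ some a ∉ Q.image col)).image some = Q.image col := by
      ext c
      rw [mem_image]
      constructor
      · rintro ⟨a, ha, rfl⟩
        rw [mem_filter, not_not] at ha
        exact ha.2
      · intro hc
        obtain ⟨p, hp, hpc⟩ := mem_image.1 hc
        obtain ⟨a, ha⟩ := Option.ne_none_iff_exists'.1 (hQn p hp)
        refine ⟨a, ?_, by rw [← ha, hpc]⟩
        rw [mem_filter, not_not]
        exact ⟨mem_univ _, by rw [← ha, hpc]; exact hc⟩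
    have e2 := card_image_of_injective (univ.filter (fun a : Fin q => ¬ some a ∉ Q.image col))
      (Option.some_injective (Fin q))
    rw [e1, card_image_of_injOn hinj] at e2
    have e3 : A.card + (univ.filter (fun a : Fin q => ¬ some a ∉ Q.image col)).card =
        (univ : Finset (Fin q)).card := card_filter_add_card_filter_not _
    rw [← e2, card_univ, Fintype.card_fin] at e3
    exact_mod_cast e3
  have h2 : ((L \ D).card : ℝ) ≤ 1 + ((q : ℝ) - Q.card) * B := by
    have hsub : L \ D ⊆ cl col univ none ∪ A.biUnion (fun a => cl col S (some a)) := by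
      intro w hw
      rw [mem_sdiff, hL, hD, mem_filter, mem_filter] at hw
      rw [mem_union]
      rcases hc : col w with _ | a
      · left
        exact (mem_cl3 _ _ _ _).2 ⟨mem_univ _, hc⟩
      · right
        rw [mem_biUnion]
        refine ⟨a, ?_, ?_⟩
        · rw [hA, mem_filter, mem_image]
          refine ⟨mem_univ _, fun ⟨p, hp, hpc⟩ => hw.2 ⟨hw.1.1, p, hp, by rw [hpc, hc]⟩⟩
        · exact (mem_cl3 _ _ _ _).2 ⟨hw.1.1, hc⟩
    have h3 : ((L \ D).card : ℝ) ≤ 1 + ∑ a ∈ A, ((cl col S (some a)).card : ℝ) := by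
      have e1 := (card_le_card hsub).trans ((card_union_le _ _).trans
        (Nat.add_le_add hnone card_biUnion_le))
      exact_mod_cast e1
    have h4 : ∑ a ∈ A, ((cl col S (some a)).card : ℝ) ≤ (A.card : ℝ) * B := by
      refine (sum_le_sum (fun a _ => cl_card_le G col hcol S hB hB0 (some a))).trans (le_of_eq ?_)
      rw [sum_const, nsmul_eq_mul]
    have h5 : ((A.card : ℝ)) = (q : ℝ) - Q.card := by linarith
    rw [h5] at h4
    linarith
  have h3 : (L.card : ℝ) = ((L ∩ D).card : ℝ) + ((L \ D).card : ℝ) := by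
    have := card_inter_add_card_sdiff L D
    exact_mod_cast this.symm
  rw [h3]
  have h4 : B * ((Q.card : ℝ) - r) + ((q : ℝ) - Q.card) * B = ((q : ℝ) - r) * B := by ring
  linarith

end Pool.Agent.FKC
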