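import Pool.Agent.FKC.Defs

/-!
A subset of minimal size: `M(S) = ∑ v ∈ S, nn G S v`. Removing `v` from `S` changes `M(S)` by `- (2 nn G S v - 1)`.
-/

set_option autoImplicit false

namespace Pool.Agent.FKC

open Finset Classical

variable {V : Type*} [Fintype V]

theorem sum_nn_erase (G : SimpleGraph V) (S : Finset V) {v : V} (hv : v ∈ S) :
    ∑ u ∈ S.erase v, (nn G (S.erase v) u : ℝ) + 2 * (nn G S v : ℝ) =
      ∑ u ∈ S, (nn G S u : ℝ) + 1 := by
  have h1 : ∀ u ∈ S, (nn G S u : ℝ) = nn G (S.erase v) u + (if G.Adj v u then 0 else 1) := by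
    intro u _
    unfold nn
    by_cases h : G.Adj v u
    · rw [if_pos h, add_zero]
      congr 2
      ext w
      simp only [mem_filter, mem_erase]
      constructor
      · rintro ⟨h2, h3⟩
        exact ⟨⟨fun h4 => h3 (h4 ▸ h.symm), h2⟩, h3⟩
      · rintro ⟨⟨_, h2⟩, h3⟩
        exact ⟨h2, h3⟩
    · rw [if_neg h]
      have h2 : (S.filter fun w => ¬ G.Adj u w) = insert v ((S.erase v).filter fun w => ¬ G.Adj u w) := by
        ext w
        simp only [mem_filter, mem_erase, mem_insert]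
        constructor
        · rintro ⟨h3, h4⟩
          by_cases hw : w = v
          · exact Or.inl hw
          · exact Or.inr ⟨⟨hw, h3⟩, h4⟩
        · rintro (rfl | ⟨⟨_, h3⟩, h4⟩)
          · exact ⟨hv, fun h3 => h h3.symm⟩
          · exact ⟨h3, h4⟩
      rw [h2, card_insert_of_notMem (by simp)]
      push_cast
      rfl
  have h2 : ∑ u ∈ S, (if G.Adj v u then (0 : ℝ) else 1) = nn G S v := by
    unfold nn
    rw [card_filter]
    push_cast
    refine sum_congr rfl fun u _ => ?_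
    by_cases h : G.Adj v u <;> simp [h]
  have h3 : (nn G (S.erase v) v : ℝ) + 1 = nn G S v := by
    have h4 := h1 v hv
    rw [if_neg (G.loopless.irrefl v)] at h4
    exact h4.symm
  have h5 : ∑ u ∈ S, (nn G S u : ℝ) = ∑ u ∈ S, (nn G (S.erase v) u : ℝ) + nn G S v := by
    rw [← h2, ← sum_add_distrib]
    exact sum_congr rfl h1
  have h6 := Finset.sum_erase_add S (fun u => (nn G (S.erase v) u : ℝ)) hv
  linarith

/-- B2 -/
theorem exists_S2 (G : SimpleGraph V) {r : ℕ} (hr : 0 < r) {t : ℝ} (ht : 1 ≤ t)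
    (h0 : (r : ℝ) * ∑ v, (nn G univ v : ℝ) < (Fintype.card V : ℝ) ^ 2) :
    ∃ S : Finset V,
      (r : ℝ) * ((2 * t - 1) * ((Fintype.card V : ℝ) - S.card) + ∑ v ∈ S, (nn G S v : ℝ)) < (S.card : ℝ) ^ 2 ∧
      ∀ v ∈ S, (nn G S v : ℝ) < (S.card : ℝ) / r + t := by
  have hne : ((univ : Finset (Finset V)).filter fun S => (r : ℝ) *
      ((2 * t - 1) * ((Fintype.card V : ℝ) - S.card) + ∑ v ∈ S, (nn G S v : ℝ)) <
        (S.card : ℝ) ^ 2).Nonempty := by
    refine ⟨univ, ?_⟩
    rw [mem_filter]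
    refine ⟨mem_univ _, ?_⟩
    rw [card_univ, sub_self, mul_zero, zero_add]
    exact h0
  obtain ⟨S, hS, hmin⟩ := exists_min_image _ (fun S : Finset V => S.card) hne
  rw [mem_filter] at hS
  refine ⟨S, hS.2, fun v hv => ?_⟩
  by_contra hcon
  push Not at hcon
  have hcard : (S.erase v).card < S.card := card_erase_lt_of_mem hv
  have hnot : ¬ ((r : ℝ) * ((2 * t - 1) * ((Fintype.card V : ℝ) - (S.erase v).card) +
      ∑ u ∈ S.erase v, (nn G (S.erase v) u : ℝ)) < ((S.erase v).card : ℝ) ^ 2) := by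
    intro h
    have := hmin (S.erase v) (by rw [mem_filter]; exact ⟨mem_univ _, h⟩)
    exact absurd hcard (not_lt.2 this)
  apply hnot
  have h1 := sum_nn_erase G S hv
  have h2 : ((S.erase v).card : ℝ) = (S.card : ℝ) - 1 := by
    rw [card_erase_of_mem hv, Nat.cast_sub (card_pos.2 ⟨v, hv⟩), Nat.cast_one]
  have h3 : ∑ u ∈ S.erase v, (nn G (S.erase v) u : ℝ) =
      ∑ u ∈ S, (nn G S u : ℝ) + 1 - 2 * (nn G S v : ℝ) := by linarith
  rw [h2, h3]
  have hr' : (0 : ℝ) < r := by exact_mod_cast hr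
  have h4 : (S.card : ℝ) + r * t ≤ r * (nn G S v : ℝ) := by
    have h5 := mul_le_mul_of_nonneg_left hcon hr'.le
    have h6 : (r : ℝ) * ((S.card : ℝ) / r + t) = (S.card : ℝ) + r * t := by
      field_simp
    linarith
  have h7 := hS.2
  nlinarith

end Pool.Agent.FKC
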