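import Pool.Agent.FKC.Defs
import Pool.Agent.FK.LemP35

/-!
# The final inequality for one pair of classes

Two classes with few non-neighbours outside, complete to a clique with `q - 4` vertices, and with few non-edges
between them cannot exist.
-/

set_option autoImplicit false

namespace Pool.Agent.FKC

open Finset Classical

variable {V ι : Type*} [Fintype V]

/-- a clique meets a class in at most one vertex -/
theorem clique_class_le_one {G : SimpleGraph V} {col : V → ι} (hcol : Proper G col) {Q : Finset V}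
    (hQ : G.IsClique (Q : Set V)) (a : ι) : (Q.filter fun p => col p = a).card ≤ 1 := by
  rw [card_le_one]
  intro u hu v hv
  rw [mem_filter] at hu hv
  by_contra hne
  exact hcol u v (hu.2.trans hv.2.symm) (hQ (mem_coe.2 hu.1) (mem_coe.2 hv.1) hne)

/-- the nice part of a class is large -/
theorem nice_large {G : SimpleGraph V} (X Y : Finset V) (hY : 1 ≤ Y.card)
    (hm : 80 * ((X ×ˢ Y).filter fun p => ¬ G.Adj p.1 p.2).card ≤ X.card * Y.card) :
    7 * X.card ≤ 8 * (X.filter fun v => 10 * (Y.filter fun w => ¬ G.Adj v w).card ≤ Y.card).card := by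
  set m := ((X ×ˢ Y).filter fun p => ¬ G.Adj p.1 p.2).card with hmd
  have h1 : m = ∑ v ∈ X, (Y.filter fun w => ¬ G.Adj v w).card := by
    rw [hmd, card_filter, sum_product]
    refine sum_congr rfl fun v _ => ?_
    rw [card_filter]
  set P := X.filter fun v => 10 * (Y.filter fun w => ¬ G.Adj v w).card ≤ Y.card with hP
  have h2 : (X.filter fun v => ¬ 10 * (Y.filter fun w => ¬ G.Adj v w).card ≤ Y.card).card * Y.card ≤ 10 * m := by
    rw [h1, mul_sum, ← smul_eq_mul]
    calc (X.filter fun v => ¬ 10 * (Y.filter fun w => ¬ G.Adj v w).card ≤ Y.card).card • Y.card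
        = ∑ v ∈ X.filter fun v => ¬ 10 * (Y.filter fun w => ¬ G.Adj v w).card ≤ Y.card, Y.card := by
          rw [sum_const]
      _ ≤ ∑ v ∈ X.filter fun v => ¬ 10 * (Y.filter fun w => ¬ G.Adj v w).card ≤ Y.card,
            10 * (Y.filter fun w => ¬ G.Adj v w).card := by
          refine sum_le_sum fun v hv => ?_
          exact (not_le.1 (mem_filter.1 hv).2).le
      _ ≤ _ := sum_le_sum_of_subset (filter_subset _ _)
  have h3 := card_filter_add_card_filter_not (s := X)
    (fun v => 10 * (Y.filter fun w => ¬ G.Adj v w).card ≤ Y.card)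
  rw [← hP] at h3
  set N := (X.filter fun v => ¬ 10 * (Y.filter fun w => ¬ G.Adj v w).card ≤ Y.card).card with hN
  have h4 : 8 * N ≤ X.card := by
    have h5 : (8 * N) * Y.card ≤ X.card * Y.card := by
      calc (8 * N) * Y.card = 8 * (N * Y.card) := by ring
        _ ≤ 8 * (10 * m) := Nat.mul_le_mul_left _ h2
        _ = 80 * m := by ring
        _ ≤ _ := hm
    exact Nat.le_of_mul_le_mul_right h5 hY
  omega

/-- the vertices which miss a large part of `X'` -/
theorem Z_bound {G : SimpleGraph V} {col : V → ι} (hcol : Proper G col) (X : Finset V) (a : ι)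
    (hXa : ∀ v ∈ X, col v = a) :
    (univ.filter fun z => ∃ x ∈ X, G.Adj z x ∧
      3 * X.card ≤ 5 * (X.filter fun v => ¬ G.Adj z v).card + 5).card * (3 * X.card) ≤
    5 * Ex G col univ a + 5 * (univ.filter fun z => ∃ x ∈ X, G.Adj z x ∧
      3 * X.card ≤ 5 * (X.filter fun v => ¬ G.Adj z v).card + 5).card := by
  set Z := univ.filter fun z => ∃ x ∈ X, G.Adj z x ∧
      3 * X.card ≤ 5 * (X.filter fun v => ¬ G.Adj z v).card + 5 with hZ
  have h1 : Z.card * (3 * X.card) ≤ ∑ z ∈ Z, (5 * (X.filter fun v => ¬ G.Adj z v).card + 5) := by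
    rw [← smul_eq_mul, ← sum_const]
    refine sum_le_sum fun z hz => ?_
    obtain ⟨x, -, -, h⟩ := (mem_filter.1 hz).2
    exact h
  have h2 : ∑ z ∈ Z, (X.filter fun v => ¬ G.Adj z v).card ≤ Ex G col univ a := by
    have h3 : ∑ z ∈ Z, (X.filter fun v => ¬ G.Adj z v).card =
        ∑ v ∈ X, (Z.filter fun z => ¬ G.Adj v z).card := by
      simp_rw [card_filter]
      rw [sum_comm]
      refine sum_congr rfl fun v _ => sum_congr rfl fun z _ => ?_
      rw [G.adj_comm z v]
    rw [h3, Ex]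
    calc ∑ v ∈ X, (Z.filter fun z => ¬ G.Adj v z).card
        ≤ ∑ v ∈ X, ex G col univ v := by
          refine sum_le_sum fun v hv => card_le_card fun z hz => ?_
          rw [mem_filter] at hz ⊢
          refine ⟨mem_univ _, ?_, hz.2⟩
          obtain ⟨x, hx, hzx, -⟩ := (mem_filter.1 hz.1).2
          intro h
          exact hcol z x (h.trans ((hXa v hv).trans (hXa x hx).symm)) hzx
      _ ≤ _ := by
          refine sum_le_sum_of_subset fun v hv => ?_
          rw [cl, mem_filter]
          exact ⟨mem_univ _, hXa v hv⟩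
  calc Z.card * (3 * X.card) ≤ ∑ z ∈ Z, (5 * (X.filter fun v => ¬ G.Adj z v).card + 5) := h1
    _ = 5 * ∑ z ∈ Z, (X.filter fun v => ¬ G.Adj z v).card + 5 * Z.card := by
        rw [sum_add_distrib, ← mul_sum, sum_const, smul_eq_mul]
        ring
    _ ≤ _ := by omega

/-- G2: the final inequality for one pair of classes. -/
theorem pair_step {q : ℕ} (hq : 4 ≤ q) (G : SimpleGraph V) (hG : ¬ G.Colorable q)
    (hcrit : ∀ e ∈ G.edgeSet, (G.deleteEdges {e}).Colorable q) (col : V → ι) (hcol : Proper G col)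
    (Q X Y : Finset V) (a b : ι) (hab : a ≠ b) (hXa : ∀ v ∈ X, col v = a) (hYb : ∀ v ∈ Y, col v = b)
    (hQ : G.IsClique (Q : Set V)) (hQc : q ≤ Q.card + 2) (hQX : ∀ v ∈ X, ∀ p ∈ Q, col p ≠ a → G.Adj v p)
    (hQY : ∀ v ∈ Y, ∀ p ∈ Q, col p ≠ b → G.Adj v p) (hXl : 10000 ≤ X.card) (hYl : 10000 ≤ Y.card)
    (hm : (((X ×ˢ Y).filter fun p => ¬ G.Adj p.1 p.2).card : ℝ) ≤ (X.card : ℝ) * Y.card / 80)
    (hEa : (Ex G col univ a : ℝ) ≤ (X.card : ℝ) ^ 2 / 5) (hEb : (Ex G col univ b : ℝ) ≤ (Y.card : ℝ) ^ 2 / 5) :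
    False := by
  have hmN : 80 * ((X ×ˢ Y).filter fun p => ¬ G.Adj p.1 p.2).card ≤ X.card * Y.card := by
    have h1 : (80 : ℝ) * (((X ×ˢ Y).filter fun p => ¬ G.Adj p.1 p.2).card : ℝ) ≤ (X.card : ℝ) * Y.card := by
      linarith
    exact_mod_cast h1
  have hmN' : 80 * ((Y ×ˢ X).filter fun p => ¬ G.Adj p.1 p.2).card ≤ Y.card * X.card := by
    have h1 : ((Y ×ˢ X).filter fun p => ¬ G.Adj p.1 p.2).card = ((X ×ˢ Y).filter fun p => ¬ G.Adj p.1 p.2).card := by
      refine card_bij' (fun p _ => (p.2, p.1)) (fun p _ => (p.2, p.1)) ?_ ?_ ?_ ?_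
      · intro p hp
        rw [mem_filter, mem_product] at hp ⊢
        exact ⟨⟨hp.1.2, hp.1.1⟩, fun h => hp.2 h.symm⟩
      · intro p hp
        rw [mem_filter, mem_product] at hp ⊢
        exact ⟨⟨hp.1.2, hp.1.1⟩, fun h => hp.2 h.symm⟩
      · intro p _
        rfl
      · intro p _
        rfl
    rw [h1, Nat.mul_comm Y.card]
    exact hmN
  -- the clique
  obtain ⟨Q0, hQ0, hQ0c⟩ : ∃ Q0 : Finset V, Q0 ⊆ Q.filter (fun p => col p ≠ a ∧ col p ≠ b) ∧ Q0.card = q - 4 := by
    apply exists_subset_card_eq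
    have h1 := clique_class_le_one hcol hQ a
    have h2 := clique_class_le_one hcol hQ b
    have h3 : Q ⊆ (Q.filter (fun p => col p ≠ a ∧ col p ≠ b) ∪ Q.filter fun p => col p = a) ∪
        Q.filter fun p => col p = b := by
      intro p hp
      simp only [mem_union, mem_filter]
      tauto
    have h4 := card_le_card h3
    have h5 := card_union_le (Q.filter (fun p => col p ≠ a ∧ col p ≠ b) ∪ Q.filter fun p => col p = a)
      (Q.filter fun p => col p = b)
    have h6 := card_union_le (Q.filter (fun p => col p ≠ a ∧ col p ≠ b)) (Q.filter fun p => col p = a)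
    omega
  set X' := X.filter fun v => 10 * (Y.filter fun w => ¬ G.Adj v w).card ≤ Y.card with hX'
  set Y' := Y.filter fun v => 10 * (X.filter fun w => ¬ G.Adj v w).card ≤ X.card with hY'
  have hXc : 7 * X.card ≤ 8 * X'.card := nice_large X Y (by omega) hmN
  have hYc : 7 * Y.card ≤ 8 * Y'.card := nice_large Y X (by omega) hmN'
  have hX'X : X' ⊆ X := filter_subset _ _
  have hY'Y : Y' ⊆ Y := filter_subset _ _
  set ZX := univ.filter fun z => ∃ x ∈ X', G.Adj z x ∧
      3 * X'.card ≤ 5 * (X'.filter fun v => ¬ G.Adj z v).card + 5 with hZX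
  set ZY := univ.filter fun z => ∃ x ∈ Y', G.Adj z x ∧
      3 * Y'.card ≤ 5 * (Y'.filter fun v => ¬ G.Adj z v).card + 5 with hZY
  have hbX := Z_bound hcol X' a (fun v hv => hXa v (hX'X hv))
  have hbY := Z_bound hcol Y' b (fun v hv => hYb v (hY'Y hv))
  rw [← hZX] at hbX
  rw [← hZY] at hbY
  have key := Pool.Agent.FK.lemP35 G q hG hcrit Q0 X' Y'
    (fun u hu v hv huv => hQ (mem_coe.2 (mem_filter.1 (hQ0 hu)).1) (mem_coe.2 (mem_filter.1 (hQ0 hv)).1) huv)
    (by omega)
    (by
      rw [disjoint_left]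
      intro v hv hv'
      exact hab ((hXa v (hX'X hv)).symm.trans (hYb v (hY'Y hv'))))
    (fun v hv t ht => hQX v (hX'X hv) t (mem_filter.1 (hQ0 ht)).1 (mem_filter.1 (hQ0 ht)).2.1)
    (fun v hv t ht => hQY v (hY'Y hv) t (mem_filter.1 (hQ0 ht)).1 (mem_filter.1 (hQ0 ht)).2.2)
    (by omega) (by omega)
    (fun v hv => by
      have h1 := (mem_filter.1 hv).2
      have h2 : (Y'.filter fun w => ¬ G.Adj v w).card ≤ (Y.filter fun w => ¬ G.Adj v w).card :=
        card_le_card (filter_subset_filter _ hY'Y)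
      omega)
    (fun v hv => by
      have h1 := (mem_filter.1 hv).2
      have h2 : (X'.filter fun w => ¬ G.Adj v w).card ≤ (X.filter fun w => ¬ G.Adj v w).card :=
        card_le_card (filter_subset_filter _ hX'X)
      omega)
    ZX ZY
    (fun z x hx hzx h => mem_filter.2 ⟨mem_univ _, x, hx, hzx, h⟩)
    (fun z x hx hzx h => mem_filter.2 ⟨mem_univ _, x, hx, hzx, h⟩)
  -- edges between `X'` and `Y'`
  have hedge : X'.card * Y'.card ≤ ((X' ×ˢ Y').filter fun p => G.Adj p.1 p.2).card +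
      ((X ×ˢ Y).filter fun p => ¬ G.Adj p.1 p.2).card := by
    have h1 := card_filter_add_card_filter_not (s := X' ×ˢ Y') (fun p => G.Adj p.1 p.2)
    rw [card_product] at h1
    have h2 : ((X' ×ˢ Y').filter fun p => ¬ G.Adj p.1 p.2).card ≤
        ((X ×ˢ Y).filter fun p => ¬ G.Adj p.1 p.2).card :=
      card_le_card (filter_subset_filter _ (product_subset_product hX'X hY'Y))
    omega
  -- real numbers
  have kx : (7 : ℝ) * X.card ≤ 8 * X'.card := by exact_mod_cast hXc
  have ky : (7 : ℝ) * Y.card ≤ 8 * Y'.card := by exact_mod_cast hYc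
  have kX : (10000 : ℝ) ≤ X.card := by exact_mod_cast hXl
  have kY : (10000 : ℝ) ≤ Y.card := by exact_mod_cast hYl
  have kZ : (ZX.card : ℝ) * (3 * X'.card) ≤ 5 * Ex G col univ a + 5 * ZX.card := by exact_mod_cast hbX
  have kW : (ZY.card : ℝ) * (3 * Y'.card) ≤ 5 * Ex G col univ b + 5 * ZY.card := by exact_mod_cast hbY
  have kE : (X'.card : ℝ) * Y'.card ≤ X'.card * ZY.card + ZX.card * Y'.card +
      ((X ×ˢ Y).filter fun p => ¬ G.Adj p.1 p.2).card := by
    have := hedge.trans (Nat.add_le_add_right key _)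
    exact_mod_cast this
  generalize (X.card : ℝ) = x at *
  generalize (Y.card : ℝ) = y at *
  generalize (X'.card : ℝ) = x' at *
  generalize (Y'.card : ℝ) = y' at *
  generalize (ZX.card : ℝ) = z at *
  generalize (ZY.card : ℝ) = w at *
  generalize (Ex G col univ a : ℝ) = ea at *
  generalize (Ex G col univ b : ℝ) = eb at *
  generalize (((X ×ˢ Y).filter fun p => ¬ G.Adj p.1 p.2).card : ℝ) = mm at *
  have hx' : 8000 ≤ x' := by linarith
  have hy' : 8000 ≤ y' := by linarith
  have hea : ea ≤ 64 / 245 * x' ^ 2 := by nlinarith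
  have heb : eb ≤ 64 / 245 * y' ^ 2 := by nlinarith
  have hz : z ≤ 9 / 20 * x' := by
    by_contra h
    push Not at h
    nlinarith [mul_pos (sub_pos.2 h) (show (0 : ℝ) < 3 * x' - 5 by linarith)]
  have hw : w ≤ 9 / 20 * y' := by
    by_contra h
    push Not at h
    nlinarith [mul_pos (sub_pos.2 h) (show (0 : ℝ) < 3 * y' - 5 by linarith)]
  have hmm : mm ≤ 64 / 3920 * (x' * y') := by
    have h1 : x * y ≤ (8 / 7 * x') * (8 / 7 * y') :=
      mul_le_mul (by linarith) (by linarith) (by linarith) (by linarith)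
    nlinarith
  have h1 : x' * w ≤ x' * (9 / 20 * y') := mul_le_mul_of_nonneg_left hw (by linarith)
  have h2 : z * y' ≤ (9 / 20 * x') * y' := mul_le_mul_of_nonneg_right hz (by linarith)
  have h3 : 0 < x' * y' := by positivity
  nlinarith

end Pool.Agent.FKC
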