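import Mathlib
import Pool.Agent.FKC.Defs

/-!
# Dense critical graphs, upper bound: selection of two classes

A pure inequality. `x a` is the size of the cleaned class `a`, `E a` the number of non-adjacent pairs with one
element in the class `a` and the other in another class, `m a b` the number of non-adjacent pairs between the
cleaned classes.
-/

set_option autoImplicit false

namespace Pool.Agent.FKC

open Finset Classical

/-- the numerical core: with `49 ≤ q` -/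
theorem select_num2 {q : ℕ} (hq : 49 ≤ q) {n A B D : ℝ} (hn : 1000000 * (q : ℝ) ≤ n) (hA : 0 ≤ A)
    (hB : B ≤ n / ((q : ℝ) - 3) + 3 * n / (4 * q)) (hAD : (1 - 1 / 20) * n - 4 * B ≤ A + D)
    (h : 1 / 80 * (A ^ 2 - B * A) + 1 / 5 * (D ^ 2 / (q + 1)) - (q + 1) * (1 / 5 * (n / (100 * q)) ^ 2) ≤
      n ^ 2 / ((q : ℝ) - 3) - (n - 1) ^ 2 / q) : False := by
  have hq' : (49 : ℝ) ≤ q := by exact_mod_cast hq
  have hq0 : (0 : ℝ) < q := by linarith
  have hn0 : 0 < n := by nlinarith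
  have hq3 : (0 : ℝ) < (q : ℝ) - 3 := by linarith
  -- `q B ≤ 1.82 n`
  have h1 : (q : ℝ) * B ≤ 182 / 100 * n := by
    have h2 : (q : ℝ) * B ≤ q * (n / ((q : ℝ) - 3) + 3 * n / (4 * q)) :=
      mul_le_mul_of_nonneg_left hB hq0.le
    have h4 : (q : ℝ) * (n / ((q : ℝ) - 3) + 3 * n / (4 * q)) = (1 + 3 / ((q : ℝ) - 3) + 3 / 4) * n := by
      field_simp
      ring
    have h5 : 3 / ((q : ℝ) - 3) ≤ 3 / 46 := by
      apply div_le_div_of_nonneg_left (by norm_num) (by norm_num)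
      linarith
    rw [h4] at h2
    refine h2.trans (mul_le_mul_of_nonneg_right ?_ hn0.le)
    linarith
  have hB' : B ≤ 182 / 4900 * n := by
    have h2 : 49 * B ≤ 182 / 100 * n ∨ B ≤ 0 := by
      by_cases hB0 : B ≤ 0
      · exact Or.inr hB0
      · left
        push Not at hB0
        nlinarith
    rcases h2 with h2 | h2
    · linarith
    · have : 0 ≤ 182 / 4900 * n := by positivity
      linarith
  have hAD' : 80 / 100 * n ≤ A + D := by linarith
  -- multiply by `q`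
  have h3 := mul_le_mul_of_nonneg_left h hq0.le
  have h5 : (q : ℝ) * (n ^ 2 / ((q : ℝ) - 3) - (n - 1) ^ 2 / q) ≤ (3 / 46 + 1 / 1000) * n ^ 2 := by
    have e1 : (q : ℝ) * (n ^ 2 / ((q : ℝ) - 3) - (n - 1) ^ 2 / q) =
        3 / ((q : ℝ) - 3) * n ^ 2 + (2 * n - 1) := by
      field_simp
      ring
    rw [e1]
    have e2 : 3 / ((q : ℝ) - 3) ≤ 3 / 46 := by
      apply div_le_div_of_nonneg_left (by norm_num) (by norm_num)
      linarith
    have e3 : 3 / ((q : ℝ) - 3) * n ^ 2 ≤ 3 / 46 * n ^ 2 :=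
      mul_le_mul_of_nonneg_right e2 (sq_nonneg n)
    have e4 : 2 * n ≤ 1 / 1000 * n ^ 2 := by nlinarith
    linarith
  have h6 : (q : ℝ) * ((q + 1) * (1 / 5 * (n / (100 * q)) ^ 2)) ≤ 1 / 1000 * n ^ 2 := by
    have e1 : (q : ℝ) * ((q + 1) * (1 / 5 * (n / (100 * q)) ^ 2)) =
        (1 + 1 / q) * (1 / 50000) * n ^ 2 := by
      field_simp
      ring
    rw [e1]
    have e2 : 1 / (q : ℝ) ≤ 1 := by
      rw [div_le_one hq0]
      linarith
    apply mul_le_mul_of_nonneg_right _ (sq_nonneg n)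
    linarith
  have h7 : (49 / 50 : ℝ) * (D ^ 2 / 5) ≤ q * (1 / 5 * (D ^ 2 / (q + 1))) := by
    have e1 : (q : ℝ) * (1 / 5 * (D ^ 2 / (q + 1))) = (q / (q + 1)) * (D ^ 2 / 5) := by
      field_simp
    rw [e1]
    apply mul_le_mul_of_nonneg_right _ (by positivity)
    rw [div_le_div_iff₀ (by norm_num) (by linarith)]
    linarith
  have h4 : 49 / 80 * A ^ 2 ≤ (q : ℝ) / 80 * A ^ 2 := by
    apply mul_le_mul_of_nonneg_right _ (sq_nonneg A)
    linarith
  have h8 : (q : ℝ) * B / 80 * A ≤ 182 / 8000 * n * A := by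
    apply mul_le_mul_of_nonneg_right _ hA
    linarith
  have h9 : 49 / 80 * A ^ 2 - 182 / 8000 * n * A + 49 / 50 * (D ^ 2 / 5) ≤ (3 / 46 + 2 / 1000) * n ^ 2 := by
    have e1 : (q : ℝ) * (1 / 80 * (A ^ 2 - B * A) + 1 / 5 * (D ^ 2 / (q + 1)) -
        (q + 1) * (1 / 5 * (n / (100 * q)) ^ 2)) = (q : ℝ) / 80 * A ^ 2 - q * B / 80 * A +
        q * (1 / 5 * (D ^ 2 / (q + 1))) - q * ((q + 1) * (1 / 5 * (n / (100 * q)) ^ 2)) := by ring
    rw [e1] at h3
    linarith
  have hn2 : 0 < n ^ 2 := by positivity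
  by_cases hc : A ≤ 80 / 100 * n
  · have h10 : (80 / 100 * n - A) ^ 2 ≤ D ^ 2 := by
      apply pow_le_pow_left₀ (by linarith)
      linarith
    nlinarith [sq_nonneg (A - 21 / 100 * n)]
  · push Not at hc
    nlinarith [sq_nonneg D]

/-- **Selection of two classes.** -/
theorem select2 {ι : Type*} [Fintype ι] {q : ℕ} (hq : 49 ≤ q) (hι : Fintype.card ι = q + 1)
    (x E : ι → ℝ) (m : ι → ι → ℝ)
    {n B : ℝ} (hn : 1000000 * q ≤ n) (hx0 : ∀ a, 0 ≤ x a) (hE0 : ∀ a, 0 ≤ E a)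
    (hm0 : ∀ a b, 0 ≤ m a b) (hm : ∀ a, ∑ b ∈ univ.erase a, m a b ≤ E a)
    (hE : ∑ a, E a ≤ n ^ 2 / (q - 3) - (n - 1) ^ 2 / q) (hxB : ∀ a, x a ≤ B)
    (hB : B ≤ n / (q - 3) + 3 * n / (4 * q)) (hX : (1 - 1 / 20) * n - 4 * B ≤ ∑ a, x a) :
    ∃ a b, a ≠ b ∧ m a b ≤ x a * x b / 80 ∧ E a ≤ x a ^ 2 / 5 ∧ E b ≤ x b ^ 2 / 5 ∧
      n / (100 * q) ≤ x a ∧ n / (100 * q) ≤ x b := by
  by_contra hno
  push Not at hno
  have hq' : (49 : ℝ) ≤ q := by exact_mod_cast hq
  have hq0 : (0 : ℝ) < q := by linarith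
  set G0 := (univ : Finset ι).filter (fun a => E a ≤ x a ^ 2 / 5 ∧ n / (100 * q) ≤ x a) with hG0
  set A := ∑ a ∈ G0, x a with hA
  set D := ∑ a ∈ G0ᶜ, x a with hD
  have hAD : A + D = ∑ a, x a := sum_add_sum_compl G0 x
  have hA0 : 0 ≤ A := sum_nonneg fun a _ => hx0 a
  have hgood : ∀ a ∈ G0, ∀ b ∈ G0, a ≠ b → x a * x b / 80 ≤ m a b := by
    intro a ha b hb hab
    rw [hG0, mem_filter] at ha hb
    by_contra hlt
    push Not at hlt
    have := hno a b hab hlt.le ha.2.1 hb.2.1 ha.2.2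
    exact absurd hb.2.2 (not_le.mpr this)
  -- the good part
  have h1 : 1 / 80 * (A ^ 2 - B * A) ≤ ∑ a ∈ G0, E a := by
    have h2 : ∀ a ∈ G0, 1 / 80 * (x a * A - B * x a) ≤ E a := by
      intro a ha
      have h3 : ∑ b ∈ G0.erase a, x a * x b / 80 ≤ ∑ b ∈ univ.erase a, m a b := by
        refine (sum_le_sum (fun b hb => ?_)).trans
          (sum_le_sum_of_subset_of_nonneg (erase_subset_erase a (subset_univ _))
            (fun b _ _ => hm0 a b))
        exact hgood a ha b (mem_of_mem_erase hb) (ne_of_mem_erase hb).symm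
      have h4 : ∑ b ∈ G0.erase a, x a * x b / 80 = 1 / 80 * (x a * A - x a * x a) := by
        have h5 : ∑ b ∈ G0.erase a, x b = A - x a := by
          rw [hA, ← add_sum_erase G0 x ha]
          ring
        calc ∑ b ∈ G0.erase a, x a * x b / 80 = 1 / 80 * x a * ∑ b ∈ G0.erase a, x b := by
              rw [mul_sum]
              exact sum_congr rfl (fun b _ => by ring)
          _ = 1 / 80 * (x a * A - x a * x a) := by
              rw [h5]
              ring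
      have h5 : x a * x a ≤ B * x a := mul_le_mul_of_nonneg_right (hxB a) (hx0 a)
      have h6 := hm a
      linarith
    calc 1 / 80 * (A ^ 2 - B * A) = ∑ a ∈ G0, 1 / 80 * (x a * A - B * x a) := by
          rw [← mul_sum, sum_sub_distrib, ← sum_mul, ← mul_sum, ← hA]
          ring
      _ ≤ ∑ a ∈ G0, E a := sum_le_sum h2
  -- the bad part
  have h2 : 1 / 5 * (D ^ 2 / (q + 1)) - (q + 1) * (1 / 5 * (n / (100 * q)) ^ 2) ≤
      ∑ a ∈ G0ᶜ, E a := by
    have h3 : ∀ a ∈ G0ᶜ, 1 / 5 * x a ^ 2 - 1 / 5 * (n / (100 * q)) ^ 2 ≤ E a := by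
      intro a ha
      rw [mem_compl, hG0, mem_filter] at ha
      by_cases hc : E a ≤ x a ^ 2 / 5
      · have h4 : x a < n / (100 * q) := by
          by_contra hge
          push Not at hge
          exact ha ⟨mem_univ _, hc, hge⟩
        have h5 : x a ^ 2 ≤ (n / (100 * q)) ^ 2 := pow_le_pow_left₀ (hx0 a) h4.le 2
        have h6 := hE0 a
        linarith
      · push Not at hc
        have : 0 ≤ (n / (100 * (q : ℝ))) ^ 2 := sq_nonneg _
        linarith
    have h4 := sum_le_sum h3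
    rw [sum_sub_distrib, ← mul_sum, sum_const, nsmul_eq_mul] at h4
    have hcard : ((G0ᶜ).card : ℝ) ≤ q + 1 := by
      have := card_le_univ (G0ᶜ)
      rw [hι] at this
      exact_mod_cast this
    have h5 : D ^ 2 ≤ (q + 1) * ∑ a ∈ G0ᶜ, x a ^ 2 := by
      have h6 := sq_sum_le_card_mul_sum_sq (s := G0ᶜ) (f := x)
      exact h6.trans (mul_le_mul_of_nonneg_right hcard (sum_nonneg fun a _ => sq_nonneg _))
    have h6 : D ^ 2 / (q + 1) ≤ ∑ a ∈ G0ᶜ, x a ^ 2 := by
      rw [div_le_iff₀ (by linarith)]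
      linarith
    have h7 : ((G0ᶜ).card : ℝ) * (1 / 5 * (n / (100 * q)) ^ 2) ≤ (q + 1) * (1 / 5 * (n / (100 * q)) ^ 2) :=
      mul_le_mul_of_nonneg_right hcard (by positivity)
    linarith
  have h3 : ∑ a ∈ G0, E a + ∑ a ∈ G0ᶜ, E a = ∑ a, E a := sum_add_sum_compl G0 E
  refine select_num2 hq hn hA0 hB (D := D) ?_ ?_
  · rw [hAD]
    exact hX
  · linarith

end Pool.Agent.FKC
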