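import Pool.Agent.FKC.Sums2
import Pool.Agent.FKC.MinS2
import Pool.Agent.FKC.Clique2
import Pool.Agent.FKC.Select2
import Pool.Agent.FKC.PairStep2

/-!
The upper bound for the number of edges of a graph with many vertices which is not `q`-colourable but becomes
`q`-colourable when any edge is deleted, `q >= 49`: there are at least `n^2 / (q - 3)` ordered pairs of non-adjacent
vertices (the pairs of equal vertices included).
-/

namespace Pool.Agent.FKC

open Finset Classical



variable {V : Type*} [Fintype V]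

/-- a proper colouring with one vertex alone in the class `none` -/
theorem exists_col {q : ℕ} (G : SimpleGraph V) (hcrit : ∀ e ∈ G.edgeSet, (G.deleteEdges {e}).Colorable q)
    {v0 w0 : V} (h : G.Adj v0 w0) :
    ∃ col : V → Option (Fin q), Proper G col ∧ (cl col univ none).card = 1 := by
  obtain ⟨φ⟩ := hcrit s(v0, w0) h
  refine ⟨fun v => if v = v0 then none else some (φ v), ?_, ?_⟩
  · intro v w hvw hadj
    by_cases hv : v = v0
    · by_cases hw : w = v0
      · rw [hv, hw] at hadj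
        exact G.irrefl hadj
      · simp [hv, hw] at hvw
    · by_cases hw : w = v0
      · simp [hv, hw] at hvw
      · simp only [hv, hw, if_false, Option.some.injEq] at hvw
        refine φ.valid (v := v) (w := w) ?_ hvw
        rw [SimpleGraph.deleteEdges_adj]
        refine ⟨hadj, ?_⟩
        simp only [Set.mem_singleton_iff, Sym2.eq_iff]
        rintro (⟨h1, _⟩ | ⟨_, h2⟩)
        · exact hv h1
        · exact hw h2
  · have : cl (fun v => if v = v0 then none else some (φ v)) univ none = {v0} := by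
      ext v
      simp [cl]
    rw [this, Finset.card_singleton]

/-- the size of `S` -/
theorem S_large {q r n s M : ℝ} (hq : 49 ≤ q) (hr : r = q - 3) (hn : 1000000 * q ^ 2 ≤ n) (hs0 : 0 ≤ s)
    (hM : (s - 1) ^ 2 ≤ q * M) (h : r * ((2 * (3 * n / (4 * q)) - 1) * (n - s) + M) < s ^ 2) :
    (1 - 1 / 20) * n ≤ s := by
  by_contra hlt
  push Not at hlt
  have hq0 : (0 : ℝ) < q := by linarith
  obtain ⟨u, hu⟩ : ∃ u, u = n / q := ⟨_, rfl⟩
  have hnu : n = u * q := by rw [hu]; field_simp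
  have hu1 : 1000000 * q ≤ u := by
    rw [hu, le_div_iff₀ hq0]
    nlinarith
  have hn0 : 0 < n := by nlinarith
  have e1 : 2 * (3 * n / (4 * q)) - 1 = 3 / 2 * u - 1 := by
    rw [hu]
    field_simp
    ring
  rw [e1] at h
  have hr46 : 46 ≤ r := by linarith
  have hM1 : (s - 1) ^ 2 / q ≤ M := by
    rw [div_le_iff₀ hq0, mul_comm]
    exact hM
  have h1 : 46 * ((3 / 2 * u - 1) * (n / 20)) ≤ r * ((3 / 2 * u - 1) * (n - s)) := by
    refine mul_le_mul hr46 ?_ ?_ (by linarith)
    · exact mul_le_mul_of_nonneg_left (by linarith) (by linarith)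
    · exact mul_nonneg (by linarith) (by linarith)
  have h2 : r * ((s - 1) ^ 2 / q) ≤ r * M := mul_le_mul_of_nonneg_left hM1 (by linarith)
  have h3 : r * ((s - 1) ^ 2 / q) = (s - 1) ^ 2 - 3 * ((s - 1) ^ 2 / q) := by
    rw [hr]
    field_simp
  have h4 : (s - 1) ^ 2 / q ≤ (19 / 20) ^ 2 * (n * u) + 1 := by
    rw [div_le_iff₀ hq0]
    have h5 : (s - 1) ^ 2 ≤ s ^ 2 + 1 := by nlinarith
    have h6 : s ^ 2 ≤ (19 / 20) ^ 2 * n ^ 2 := by
      rw [← mul_pow]
      exact pow_le_pow_left₀ hs0 (by linarith) 2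
    have h7 : n ^ 2 = n * u * q := by rw [hnu]; ring
    rw [h7] at h6
    nlinarith
  have h8 : 43 / 10 * n + 100 ≤ 74 / 100 * (n * u) := by nlinarith
  nlinarith

theorem upper2 {q : ℕ} (hq : 49 ≤ q) (G : SimpleGraph V) (hV : 1000000 * q ^ 2 ≤ Fintype.card V)
    (hG : ¬ G.Colorable q) (hcrit : ∀ e ∈ G.edgeSet, (G.deleteEdges {e}).Colorable q)
    (hv : ∀ v, ∃ w, G.Adj v w) :
    (Fintype.card V : ℝ) ^ 2 ≤ (q - 3 : ℝ) * ∑ v, (nn G univ v : ℝ) := by
  by_contra hlt
  push Not at hlt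
  have hqR : (49 : ℝ) ≤ q := by exact_mod_cast hq
  set n : ℝ := (Fintype.card V : ℝ) with hn
  have hVR : 1000000 * (q : ℝ) ^ 2 ≤ n := by
    rw [hn]
    exact_mod_cast hV
  have hr : ((q - 3 : ℕ) : ℝ) = (q : ℝ) - 3 := by
    rw [Nat.cast_sub (by omega)]
    norm_num
  have hnpos : 0 < n := by nlinarith
  have hVne : Nonempty V := by
    rw [← Fintype.card_pos_iff]
    have : 0 < 1000000 * q ^ 2 := by positivity
    omega
  obtain ⟨v0⟩ := hVne
  obtain ⟨w0, hw0⟩ := hv v0
  obtain ⟨col, hcol, hcard1⟩ := exists_col G hcrit hw0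
  -- the set `S`
  have ht : (1 : ℝ) ≤ 3 * n / (4 * q) := by
    rw [le_div_iff₀ (by positivity)]
    nlinarith
  obtain ⟨S, hS1, hS2⟩ := exists_S2 G (r := q - 3) (by omega) ht (by rw [hr]; exact hlt)
  rw [hr] at hS1
  simp only [hr] at hS2
  set B : ℝ := (S.card : ℝ) / ((q : ℝ) - 3) + 3 * n / (4 * q) with hB
  have hSn : (S.card : ℝ) ≤ n := by
    rw [hn]
    exact_mod_cast Finset.card_le_univ S
  have hq3 : (0 : ℝ) < (q : ℝ) - 3 := by linarith
  have hB0 : 0 ≤ B := by positivity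
  have hBn : B ≤ n / ((q : ℝ) - 3) + 3 * n / (4 * q) := by
    rw [hB]
    have := div_le_div_of_nonneg_right hSn hq3.le
    linarith
  have hprod : 0 ≤ (2 * (3 * n / (4 * q)) - 1) * (n - S.card) :=
    mul_nonneg (by linarith) (by linarith)
  have hSM : ((q - 3 : ℕ) : ℝ) * ∑ v ∈ S, (nn G S v : ℝ) < (S.card : ℝ) ^ 2 := by
    rw [hr]
    refine lt_of_le_of_lt ?_ hS1
    refine mul_le_mul_of_nonneg_left ?_ hq3.le
    linarith
  obtain ⟨Q, hQS, hQc, hQcard, hL⟩ := exists_Q2 G col hcol (r := q - 3) (by omega)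
    (by rw [Fintype.card_option, Fintype.card_fin]; omega) S hS2 hB0 hSM
  set L := S.filter (fun w => ∃ p ∈ Q, col p ≠ col w ∧ ¬ G.Adj p w) with hLdef
  have hL' : (L.card : ℝ) ≤ 4 * B := by convert hL
  -- the size of `S`
  have hSne : 1 ≤ S.card := by
    by_contra h0
    have h0' : S.card = 0 := by omega
    rw [h0'] at hSM
    have : (0 : ℝ) ≤ ((q - 3 : ℕ) : ℝ) * ∑ v ∈ S, (nn G S v : ℝ) := by positivity
    norm_num at hSM
    linarith
  have hclS : (cl col S none).card ≤ 1 := by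
    rw [← hcard1]
    refine Finset.card_le_card ?_
    intro v hv
    rw [mem_cl] at hv ⊢
    exact ⟨Finset.mem_univ _, hv.2⟩
  have hSM2 : ((S.card : ℝ) - 1) ^ 2 ≤ q * ∑ v ∈ S, (nn G S v : ℝ) := by
    refine le_trans (sq_le_classes col S hclS hSne) ?_
    refine mul_le_mul_of_nonneg_left ?_ (Nat.cast_nonneg q)
    rw [← sum_sq_le G col hcol S]
    have : (0 : ℝ) ≤ ∑ a, (Ex G col S a : ℝ) := Finset.sum_nonneg (fun _ _ => Nat.cast_nonneg _)
    linarith
  have hSlarge : (1 - 1 / 20) * n ≤ S.card :=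
    S_large hqR rfl hVR (Nat.cast_nonneg _) hSM2 hS1
  -- the sets `X a`
  let X : Option (Fin q) → Finset V := fun a => (cl col S a) \ L
  have hXcl : ∀ a, X a ⊆ cl col univ a := by
    intro a v hv
    have := mem_cl.1 (Finset.mem_sdiff.1 hv).1
    exact mem_cl.2 ⟨Finset.mem_univ _, this.2⟩
  have hXB : ∀ a, ((X a).card : ℝ) ≤ B := by
    intro a
    refine le_trans ?_ (cls_card_le (hcol.on S) hB0 (fun v hv => (hS2 v hv).le) a)
    exact_mod_cast Finset.card_le_card Finset.sdiff_subset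
  have hXsum : (S.card : ℝ) - 4 * B ≤ ∑ a, ((X a).card : ℝ) := by
    have h1 : S.card ≤ (∑ a, (X a).card) + L.card := by
      have h2 : S.card = ∑ a, (cl col S a).card := card_eq_sum_cl col S
      have h3 : L.card = ∑ a, (cl col L a).card := card_eq_sum_cl col L
      rw [h2, h3, ← Finset.sum_add_distrib]
      refine Finset.sum_le_sum (fun a _ => ?_)
      have : cl col S a ⊆ X a ∪ cl col L a := by
        intro v hv
        by_cases hvL : v ∈ L
        · exact Finset.mem_union_right _ (mem_cl.2 ⟨hvL, (mem_cl.1 hv).2⟩)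
        · exact Finset.mem_union_left _ (Finset.mem_sdiff.2 ⟨hv, hvL⟩)
      exact le_trans (Finset.card_le_card this) (Finset.card_union_le _ _)
    have h1' : (S.card : ℝ) ≤ (∑ a, ((X a).card : ℝ)) + L.card := by exact_mod_cast h1
    linarith
  have hE : ∑ a, (Ex G col univ a : ℝ) ≤ n ^ 2 / ((q : ℝ) - 3) - (n - 1) ^ 2 / q := by
    have h1 := sum_sq_le G col hcol univ
    have h2 := sq_le_classes col univ hcard1.le (by
      rw [Finset.card_univ]
      exact Fintype.card_pos_iff.2 ⟨v0⟩)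
    rw [Finset.card_univ] at h2
    have h3 : ∑ v, (nn G univ v : ℝ) ≤ n ^ 2 / ((q : ℝ) - 3) := by
      rw [le_div_iff₀ hq3, mul_comm]
      exact hlt.le
    have h4 : (n - 1) ^ 2 / q ≤ ∑ a, ((cl col univ a).card : ℝ) ^ 2 := by
      rw [div_le_iff₀ (by linarith), mul_comm]
      exact h2
    linarith
  obtain ⟨a, b, hab, hm, hEa, hEb, hxa, hxb⟩ := select2 (ι := Option (Fin q)) hq
    (by rw [Fintype.card_option, Fintype.card_fin]) (fun a => ((X a).card : ℝ))
    (fun a => (Ex G col univ a : ℝ)) (fun a b => (mm G (X a) (X b) : ℝ)) (n := n) (B := B)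
    (by nlinarith) (fun _ => Nat.cast_nonneg _) (fun _ => Nat.cast_nonneg _) (fun _ _ => Nat.cast_nonneg _)
    (fun a => by exact_mod_cast sum_mm_le G col univ X hXcl a) hE hXB hBn (by linarith)
  have hbig : ∀ a, n / (100 * q) ≤ ((X a).card : ℝ) → 10000 ≤ (X a).card := by
    intro a h
    have h1 : (10000 : ℝ) ≤ n / (100 * q) := by
      rw [le_div_iff₀ (by positivity)]
      nlinarith
    have : (10000 : ℝ) ≤ ((X a).card : ℝ) := le_trans h1 h
    exact_mod_cast this
  have hadj : ∀ a, ∀ v ∈ X a, ∀ p ∈ Q, col p ≠ a → G.Adj v p := by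
    intro a v hv p hp hpa
    obtain ⟨hv1, hv2⟩ := Finset.mem_sdiff.1 hv
    obtain ⟨hvS, hva⟩ := mem_cl.1 hv1
    by_contra hno
    apply hv2
    rw [hLdef, Finset.mem_filter]
    exact ⟨hvS, p, hp, by rw [hva]; exact hpa, fun h => hno h.symm⟩
  exact pair_step (by omega) G hG hcrit col hcol Q (X a) (X b) a b hab
    (fun v hv => (mem_cl.1 (Finset.mem_sdiff.1 hv).1).2) (fun v hv => (mem_cl.1 (Finset.mem_sdiff.1 hv).1).2)
    hQc (by omega) (hadj a) (hadj b) (hbig a hxa) (hbig b hxb) hm hEa hEb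

end Pool.Agent.FKC
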