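import Pool.Agent.FK.LemP

/-!
# Dense critical graphs: the linear algebra lemma, strongest form

As `lemP`, with `1 / 6` for the misses and `2 / 3` for the vertices of `ZX`, `ZY`, and with the exact dimension of
the sum of two tensor products.
-/

set_option autoImplicit false

namespace Pool.Agent.FK

open SimpleGraph Finset

section Tensor

theorem finrank_ker_ge {X A : Type*} [Fintype X] [Fintype A] (L : (X → ℚ) →ₗ[ℚ] (A → ℚ)) :
    Fintype.card X - Fintype.card A ≤ Module.finrank ℚ (LinearMap.ker L) := by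
  have h1 := LinearMap.finrank_range_add_finrank_ker L
  have h2 : Module.finrank ℚ (LinearMap.range L) ≤ Fintype.card A := by
    have := Submodule.finrank_le (LinearMap.range L)
    rwa [Module.finrank_fintype_fun_eq_card] at this
  rw [Module.finrank_fintype_fun_eq_card] at h1
  omega

/-- Equations in rows, equations in columns and few prescribed zeros: a non-zero solution. -/
theorem exists_tensor {X Y A B : Type*} [Fintype X] [Fintype Y] [Fintype A] [Fintype B]
    (f : A → X → ℚ) (g : B → Y → ℚ) (N : Finset (X × Y))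
    (hN : N.card < (Fintype.card X - Fintype.card A) * (Fintype.card Y - Fintype.card B)) :
    ∃ M : X → Y → ℚ, (∃ x y, M x y ≠ 0) ∧ (∀ p ∈ N, M p.1 p.2 = 0) ∧
      (∀ a y, ∑ x, f a x * M x y = 0) ∧ (∀ b x, ∑ y, g b y * M x y = 0) := by
  classical
  let L1 : (X → ℚ) →ₗ[ℚ] (A → ℚ) :=
    { toFun := fun h a => ∑ x, f a x * h x
      map_add' := by
        intro h h'
        funext a
        simp only [Pi.add_apply, mul_add, Finset.sum_add_distrib]
      map_smul' := by
        intro r h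
        funext a
        simp only [Pi.smul_apply, smul_eq_mul, RingHom.id_apply, Finset.mul_sum]
        exact Finset.sum_congr rfl fun x _ => by ring }
  let L2 : (Y → ℚ) →ₗ[ℚ] (B → ℚ) :=
    { toFun := fun h a => ∑ x, g a x * h x
      map_add' := by
        intro h h'
        funext a
        simp only [Pi.add_apply, mul_add, Finset.sum_add_distrib]
      map_smul' := by
        intro r h
        funext a
        simp only [Pi.smul_apply, smul_eq_mul, RingHom.id_apply, Finset.mul_sum]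
        exact Finset.sum_congr rfl fun x _ => by ring }
  have hU := finrank_ker_ge L1
  have hW := finrank_ker_ge L2
  set U := LinearMap.ker L1 with hUdef
  set W := LinearMap.ker L2 with hWdef
  let h := Module.finBasis ℚ U
  let Φ : (Fin (Module.finrank ℚ U) → W) →ₗ[ℚ] (N → ℚ) :=
    { toFun := fun k p => ∑ i, (h i : X → ℚ) p.1.1 * (k i : Y → ℚ) p.1.2
      map_add' := by
        intro k k'
        funext p
        simp only [Pi.add_apply, Submodule.coe_add, mul_add, Finset.sum_add_distrib]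
      map_smul' := by
        intro r k
        funext p
        simp only [Pi.smul_apply, Submodule.coe_smul, smul_eq_mul, RingHom.id_apply, Finset.mul_sum]
        exact Finset.sum_congr rfl fun x _ => by ring }
  have hker : LinearMap.ker Φ ≠ ⊥ := by
    apply LinearMap.ker_ne_bot_of_finrank_lt
    rw [Module.finrank_fintype_fun_eq_card, Fintype.card_coe, Module.finrank_pi_fintype]
    simp only [Finset.sum_const, Finset.card_univ, Fintype.card_fin, smul_eq_mul]
    exact hN.trans_le (Nat.mul_le_mul hU hW)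
  obtain ⟨k, hk, hk0⟩ := (Submodule.ne_bot_iff _).1 hker
  refine ⟨fun x y => ∑ i, (h i : X → ℚ) x * (k i : Y → ℚ) y, ?_, ?_, ?_, ?_⟩
  · by_contra hno
    push Not at hno
    apply hk0
    funext i
    apply Subtype.ext
    funext y
    have h1 : ∑ i, ((k i : Y → ℚ) y) • (h i) = 0 := by
      apply Subtype.ext
      funext x
      have h2 := hno x y
      rw [Submodule.coe_sum, Finset.sum_apply]
      simp only [Submodule.coe_smul, Pi.smul_apply, smul_eq_mul]
      rw [ZeroMemClass.coe_zero, Pi.zero_apply, ← h2]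
      exact Finset.sum_congr rfl fun i _ => by ring
    have h3 := Fintype.linearIndependent_iff.1 h.linearIndependent _ h1 i
    rw [h3]
    rfl
  · intro p hp
    have h1 := congrFun (LinearMap.mem_ker.1 hk) ⟨p, hp⟩
    exact h1
  · intro a y
    have h1 : ∀ i, ∑ x, f a x * (h i : X → ℚ) x = 0 := fun i =>
      congrFun (LinearMap.mem_ker.1 (h i).2) a
    calc ∑ x, f a x * ∑ i, (h i : X → ℚ) x * (k i : Y → ℚ) y
        = ∑ i, (k i : Y → ℚ) y * ∑ x, f a x * (h i : X → ℚ) x := by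
          simp only [Finset.mul_sum]
          rw [Finset.sum_comm]
          exact Finset.sum_congr rfl fun i _ => Finset.sum_congr rfl fun x _ => by ring
      _ = 0 := by
          simp only [h1, mul_zero, Finset.sum_const_zero]
  · intro b x
    have h1 : ∀ i, ∑ y, g b y * (k i : Y → ℚ) y = 0 := fun i =>
      congrFun (LinearMap.mem_ker.1 (k i).2) b
    calc ∑ y, g b y * ∑ i, (h i : X → ℚ) x * (k i : Y → ℚ) y
        = ∑ i, (h i : X → ℚ) x * ∑ y, g b y * (k i : Y → ℚ) y := by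
          simp only [Finset.mul_sum]
          rw [Finset.sum_comm]
          exact Finset.sum_congr rfl fun i _ => Finset.sum_congr rfl fun x _ => by ring
      _ = 0 := by
          simp only [h1, mul_zero, Finset.sum_const_zero]

end Tensor

section Main6

variable {V : Type*} [DecidableEq V]

/-- the neighbours of `y` in `X` -/
theorem slice_card6 {G : SimpleGraph V} [DecidableRel G.Adj] (x y : V) (X : Finset V)
    (hy : 6 * (X.filter (fun v => ¬ G.Adj y v)).card ≤ X.card) :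
    5 * X.card ≤ 6 * (X.filter (fun v => G.Adj y v ∧ v ≠ x)).card + 6 := by
  have hSX : X.card ≤ (X.filter (fun v => G.Adj y v ∧ v ≠ x)).card +
      (X.filter (fun v => ¬ G.Adj y v)).card + 1 := by
    have h1 : X ⊆ (X.filter (fun v => G.Adj y v ∧ v ≠ x) ∪ X.filter (fun v => ¬ G.Adj y v)) ∪ {x} := by
      intro v hv
      rw [mem_union, mem_union, mem_singleton, mem_filter, mem_filter]
      tauto
    refine (card_le_card h1).trans ((card_union_le _ _).trans ?_)
    rw [card_singleton]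
    exact Nat.add_le_add_right (card_union_le _ _) 1
  omega

/-- The combinatorial part with three cases. -/
theorem local_structure6 {G : SimpleGraph V} [DecidableRel G.Adj] {q : ℕ} {x y : V}
    (hG : ¬ G.Colorable q) (φ : V → Fin q)
    (hφ : ∀ u v, G.Adj u v → φ u = φ v → (u = x ∧ v = y) ∨ (u = y ∧ v = x))
    (Q0 X Y : Finset V) (hQ : ∀ u ∈ Q0, ∀ v ∈ Q0, u ≠ v → G.Adj u v) (hQc : Q0.card + 4 = q)
    (hXY : Disjoint X Y) (hxX : x ∈ X) (hyY : y ∈ Y)
    (hX : ∀ v ∈ X, ∀ t ∈ Q0, G.Adj v t) (hY : ∀ v ∈ Y, ∀ t ∈ Q0, G.Adj v t)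
    (hX20 : 20 ≤ X.card) (hY20 : 20 ≤ Y.card)
    (hmX : ∀ v ∈ X, 6 * (Y.filter (fun w => ¬ G.Adj v w)).card ≤ Y.card)
    (hmY : ∀ w ∈ Y, 6 * (X.filter (fun v => ¬ G.Adj w v)).card ≤ X.card) :
    (∃ w : V, G.Adj w y ∧ 2 * Y.card ≤ 3 * (Y.filter (fun v => ¬ G.Adj w v)).card + 3 ∧
      ∀ v ∈ Y, G.Adj x v → G.Adj w v → v = y) ∨
    (∃ z : V, G.Adj z x ∧ 2 * X.card ≤ 3 * (X.filter (fun v => ¬ G.Adj z v)).card + 3 ∧
      ∀ v ∈ X, G.Adj y v → G.Adj z v → v = x) ∨
    (∃ z w : V, G.Adj z x ∧ G.Adj w y ∧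
      2 * X.card ≤ 3 * (X.filter (fun v => ¬ G.Adj z v)).card + 3 ∧
      2 * Y.card ≤ 3 * (Y.filter (fun v => ¬ G.Adj w v)).card + 3 ∧
      ∃ d : Fin q, φ x ≠ d ∧ (∀ v ∈ X, G.Adj z v → φ v = φ x ∨ φ v = d) ∧
        (∀ v ∈ Y, G.Adj w v → φ v = φ x ∨ φ v = d)) := by
  have hxy := same_col hG φ hφ
  have hxQ := hX x hxX
  have hyQ := hY y hyY
  have hxY : x ∉ Y := fun h => (disjoint_left.1 hXY hxX) h
  have hyX : y ∉ X := fun h => (disjoint_left.1 hXY h) hyY
  have hφ' : ∀ u v, G.Adj u v → φ u = φ v → (u = y ∧ v = x) ∨ (u = x ∧ v = y) :=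
    fun u v h1 h2 => (hφ u v h1 h2).symm
  obtain ⟨a, haR, hac, hacard⟩ :=
    popular hG φ hφ Q0 X hQ hQc hxQ hyQ hX hX20 (by have := hmY y hyY; omega)
  obtain ⟨b, hbR, hbc, hbcard⟩ :=
    popular hG φ hφ' Q0 Y hQ hQc hyQ hxQ hY hY20 (by have := hmX x hxX; omega)
  rw [← hxy] at hbc
  obtain ⟨z, hz1, hz2, hz3⟩ := exists_nbr hG φ hφ a hac
  obtain ⟨w, hw1, hw2, hw3⟩ := exists_nbr hG φ hφ' b (by rw [← hxy]; exact hbc)
  -- a colour with many vertices in the slice of `Y` does not occur in `X`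
  have missX : ∀ e : Fin q, Y.card < 6 * (Y.filter (fun v' => (G.Adj x v' ∧ v' ≠ y) ∧ φ v' = e)).card →
      ∀ v ∈ X, φ v ≠ e := by
    intro e he v hv hvb
    have h1 : Y.filter (fun v' => (G.Adj x v' ∧ v' ≠ y) ∧ φ v' = e) ⊆
        Y.filter (fun w => ¬ G.Adj v w) := by
      intro v' hv'
      rw [mem_filter] at hv' ⊢
      obtain ⟨hv'Y, ⟨-, hv'y⟩, hv'b⟩ := hv'
      refine ⟨hv'Y, fun hadj' => ?_⟩
      rcases hφ v v' hadj' (hvb.trans hv'b.symm) with ⟨-, h2⟩ | ⟨-, h2⟩
      · exact hv'y h2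
      · exact hxY (h2 ▸ hv'Y)
    have h2 := card_le_card h1
    have h3 := hmX v hv
    omega
  have missY : ∀ e : Fin q, X.card < 6 * (X.filter (fun v' => (G.Adj y v' ∧ v' ≠ x) ∧ φ v' = e)).card →
      ∀ v ∈ Y, φ v ≠ e := by
    intro e he v hv hva
    have h1 : X.filter (fun v' => (G.Adj y v' ∧ v' ≠ x) ∧ φ v' = e) ⊆
        X.filter (fun w => ¬ G.Adj v w) := by
      intro v' hv'
      rw [mem_filter] at hv' ⊢
      obtain ⟨hv'X, ⟨-, hv'x⟩, hv'a⟩ := hv'
      refine ⟨hv'X, fun hadj' => ?_⟩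
      rcases hφ v v' hadj' (hva.trans hv'a.symm) with ⟨-, h2⟩ | ⟨-, h2⟩
      · exact hyX (h2 ▸ hv'X)
      · exact hv'x h2
    have h2 := card_le_card h1
    have h3 := hmY v hv
    omega
  have missb : ∀ v ∈ X, φ v ≠ b := missX b (by omega)
  have missa : ∀ v ∈ Y, φ v ≠ a := missY a (by omega)
  have hab : a ≠ b := by
    intro hab
    have h1 : 0 < (X.filter (fun v => (G.Adj y v ∧ v ≠ x) ∧ φ v = a)).card := by omega
    obtain ⟨v, hv⟩ := card_pos.1 h1
    rw [mem_filter] at hv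
    exact missb v hv.1 (hv.2.2.trans hab)
  -- the fourth free colour
  have h4 := free_card φ hφ Q0 hQ hQc hxQ
  have hcR : φ x ∈ univ \ Q0.image φ := free_of_complete φ hφ Q0 hxQ hyQ x hxQ
  have hd : ((((univ \ Q0.image φ).erase (φ x)).erase a).erase b).card = 1 := by
    rw [card_erase_of_mem, card_erase_of_mem, card_erase_of_mem hcR, h4]
    · exact mem_erase.2 ⟨hac, haR⟩
    · exact mem_erase.2 ⟨hab.symm, mem_erase.2 ⟨hbc, hbR⟩⟩
  obtain ⟨d, hd⟩ := card_eq_one.1 hd
  have hd' : ∀ e, e ∈ univ \ Q0.image φ → e ≠ a → e ≠ b → e = φ x ∨ e = d := by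
    intro e he hea heb
    by_cases hec : e = φ x
    · exact Or.inl hec
    · right
      have : e ∈ (((univ \ Q0.image φ).erase (φ x)).erase a).erase b :=
        mem_erase.2 ⟨heb, mem_erase.2 ⟨hea, mem_erase.2 ⟨hec, he⟩⟩⟩
      rw [hd] at this
      exact mem_singleton.1 this
  have hdmem : d ∈ (((univ \ Q0.image φ).erase (φ x)).erase a).erase b := by
    rw [hd]
    exact mem_singleton_self _
  have hdc : φ x ≠ d := fun h => (mem_erase.1 (mem_erase.1 (mem_erase.1 hdmem).2).2).1 h.symm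
  have hda : d ≠ a := (mem_erase.1 (mem_erase.1 hdmem).2).1
  have hdb : d ≠ b := (mem_erase.1 hdmem).1
  -- vertices in the slices do not have the colour of `x`
  have sliceX : ∀ v, G.Adj y v → v ≠ x → φ v ≠ φ x := by
    intro v hyv hvx he
    rcases hφ y v hyv (hxy.symm.trans he.symm) with ⟨-, h1⟩ | ⟨-, h1⟩
    · exact hyv.ne h1.symm
    · exact hvx h1
  have sliceY : ∀ v, G.Adj x v → v ≠ y → φ v ≠ φ x := by
    intro v hxv hvy he
    rcases hφ x v hxv he.symm with ⟨-, h1⟩ | ⟨-, h1⟩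
    · exact hvy h1
    · exact hxv.ne h1.symm
  have colX : ∀ v ∈ X, G.Adj y v → v ≠ x → φ v = a ∨ φ v = d := by
    intro v hv h1 h2
    by_cases hva : φ v = a
    · exact Or.inl hva
    · rcases hd' _ (free_of_complete φ hφ Q0 hxQ hyQ v (hX v hv)) hva (missb v hv) with h | h
      · exact absurd h (sliceX v h1 h2)
      · exact Or.inr h
  have colY : ∀ v ∈ Y, G.Adj x v → v ≠ y → φ v = b ∨ φ v = d := by
    intro v hv h1 h2
    by_cases hvb : φ v = b
    · exact Or.inl hvb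
    · rcases hd' _ (free_of_complete φ hφ Q0 hxQ hyQ v (hY v hv)) (missa v hv) hvb with h | h
      · exact absurd h (sliceY v h1 h2)
      · exact Or.inr h
  have hsX := slice_card6 (G := G) x y X (hmY y hyY)
  have hsY := slice_card6 (G := G) y x Y (hmX x hxX)
  -- `z` is not adjacent to the vertices of colour `a`, `w` not to those of colour `b`
  have hza : ∀ v, φ v = a → ¬ G.Adj z v := by
    intro v hva h
    rcases hφ z v h (hz3.trans hva.symm) with ⟨h1, -⟩ | ⟨h1, -⟩
    · exact hz1.ne h1.symm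
    · exact hz2 h1
  have hwb : ∀ v, φ v = b → ¬ G.Adj w v := by
    intro v hvb h
    rcases hφ w v h (hw3.trans hvb.symm) with ⟨h1, -⟩ | ⟨h1, -⟩
    · exact hw2 h1
    · exact hw1.ne h1.symm
  by_cases hdX : X.card < 6 * (X.filter (fun v' => (G.Adj y v' ∧ v' ≠ x) ∧ φ v' = d)).card
  · -- case I: the slice of `Y` has only the colour `b`
    left
    have hYb : ∀ v ∈ Y, G.Adj x v → v ≠ y → φ v = b := by
      intro v hv h1 h2
      rcases colY v hv h1 h2 with h | h
      · exact h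
      · exact absurd h (missY d hdX v hv)
    refine ⟨w, hw1.symm, ?_, ?_⟩
    · have h1 : Y.filter (fun v => G.Adj x v ∧ v ≠ y) ⊆ Y.filter (fun v => ¬ G.Adj w v) := by
        intro v hv
        rw [mem_filter] at hv ⊢
        exact ⟨hv.1, hwb v (hYb v hv.1 hv.2.1 hv.2.2)⟩
      have h2 := card_le_card h1
      omega
    · intro v hv h1 h2
      by_contra hne
      exact hwb v (hYb v hv h1 hne) h2
  · by_cases hdY : Y.card < 6 * (Y.filter (fun v' => (G.Adj x v' ∧ v' ≠ y) ∧ φ v' = d)).card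
    · -- case II
      right; left
      have hXa : ∀ v ∈ X, G.Adj y v → v ≠ x → φ v = a := by
        intro v hv h1 h2
        rcases colX v hv h1 h2 with h | h
        · exact h
        · exact absurd h (missX d hdY v hv)
      refine ⟨z, hz1.symm, ?_, ?_⟩
      · have h1 : X.filter (fun v => G.Adj y v ∧ v ≠ x) ⊆ X.filter (fun v => ¬ G.Adj z v) := by
          intro v hv
          rw [mem_filter] at hv ⊢
          exact ⟨hv.1, hza v (hXa v hv.1 hv.2.1 hv.2.2)⟩
        have h2 := card_le_card h1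
        omega
      · intro v hv h1 h2
        by_contra hne
        exact hza v (hXa v hv h1 hne) h2
    · -- case III
      right; right
      refine ⟨z, w, hz1.symm, hw1.symm, ?_, ?_, d, hdc, ?_, ?_⟩
      · have h1 : X.filter (fun v => G.Adj y v ∧ v ≠ x) ⊆
            X.filter (fun v => ¬ G.Adj z v) ∪ X.filter (fun v' => (G.Adj y v' ∧ v' ≠ x) ∧ φ v' = d) := by
          intro v hv
          rw [mem_filter] at hv
          rw [mem_union, mem_filter, mem_filter]
          rcases colX v hv.1 hv.2.1 hv.2.2 with h | h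
          · exact Or.inl ⟨hv.1, hza v h⟩
          · exact Or.inr ⟨hv.1, hv.2, h⟩
        have h2 := (card_le_card h1).trans (card_union_le _ _)
        omega
      · have h1 : Y.filter (fun v => G.Adj x v ∧ v ≠ y) ⊆
            Y.filter (fun v => ¬ G.Adj w v) ∪ Y.filter (fun v' => (G.Adj x v' ∧ v' ≠ y) ∧ φ v' = d) := by
          intro v hv
          rw [mem_filter] at hv
          rw [mem_union, mem_filter, mem_filter]
          rcases colY v hv.1 hv.2.1 hv.2.2 with h | h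
          · exact Or.inl ⟨hv.1, hwb v h⟩
          · exact Or.inr ⟨hv.1, hv.2, h⟩
        have h2 := (card_le_card h1).trans (card_union_le _ _)
        omega
      · intro v hv hzv
        exact hd' _ (free_of_complete φ hφ Q0 hxQ hyQ v (hX v hv)) (fun h => hza v h hzv) (missb v hv)
      · intro v hv hwv
        exact hd' _ (free_of_complete φ hφ Q0 hxQ hyQ v (hY v hv)) (missa v hv) (fun h => hwb v h hwv)

/-- A matrix supported on the edges between `X` and `Y` with the row and column equations of `ZX` and `ZY` is zero. -/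
theorem matrix_zero (G : SimpleGraph V) [DecidableRel G.Adj] (q : ℕ) (hG : ¬ G.Colorable q)
    (hcrit : ∀ e ∈ G.edgeSet, (G.deleteEdges {e}).Colorable q)
    (Q0 X Y : Finset V) (hQ : ∀ u ∈ Q0, ∀ v ∈ Q0, u ≠ v → G.Adj u v) (hQc : Q0.card + 4 = q)
    (hXY : Disjoint X Y)
    (hX : ∀ v ∈ X, ∀ t ∈ Q0, G.Adj v t) (hY : ∀ v ∈ Y, ∀ t ∈ Q0, G.Adj v t)
    (hX20 : 20 ≤ X.card) (hY20 : 20 ≤ Y.card)
    (hmX : ∀ v ∈ X, 6 * (Y.filter (fun w => ¬ G.Adj v w)).card ≤ Y.card)
    (hmY : ∀ w ∈ Y, 6 * (X.filter (fun v => ¬ G.Adj w v)).card ≤ X.card)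
    (ZX ZY : Finset V)
    (hZX : ∀ z, ∀ x ∈ X, G.Adj z x →
      2 * X.card ≤ 3 * (X.filter (fun v => ¬ G.Adj z v)).card + 3 → z ∈ ZX)
    (hZY : ∀ w, ∀ y ∈ Y, G.Adj w y →
      2 * Y.card ≤ 3 * (Y.filter (fun v => ¬ G.Adj w v)).card + 3 → w ∈ ZY)
    (M : V → V → ℚ) (hM0 : ∀ x ∈ X, ∀ y ∈ Y, ¬ G.Adj x y → M x y = 0)
    (hMZ : ∀ z ∈ ZX, ∀ y ∈ Y, ∑ x ∈ X, (if G.Adj z x then M x y else 0) = 0)
    (hMW : ∀ w ∈ ZY, ∀ x ∈ X, ∑ y ∈ Y, (if G.Adj w y then M x y else 0) = 0) :
    ∀ x ∈ X, ∀ y ∈ Y, M x y = 0 := by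
  intro x hxX y hyY
  by_cases hadj : G.Adj x y
  swap
  · exact hM0 x hxX y hyY hadj
  obtain ⟨φ, hφ⟩ := exists_fun (hcrit s(x, y) hadj)
  have hneY : ∀ v ∈ X, ∀ v' ∈ Y, ¬ (v = y ∧ v' = x) := by
    rintro v hv v' hv' ⟨rfl, rfl⟩
    exact disjoint_left.1 hXY hv hyY
  rcases local_structure6 hG φ hφ Q0 X Y hQ hQc hXY hxX hyY hX hY hX20 hY20 hmX hmY with
    ⟨w, hwy, hwc, hw0⟩ | ⟨z, hzx, hzc, hz0⟩ | ⟨z, w, hzx, hwy, hzc, hwc, d, hcd, hBz, hBw⟩
  · -- case I
    have h1 := hMW w (hZY w y hyY hwy hwc) x hxX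
    rw [Finset.sum_eq_single y] at h1
    · rwa [if_pos hwy] at h1
    · intro v hv hne
      by_cases hwv : G.Adj w v
      · rw [if_pos hwv]
        exact hM0 x hxX v hv fun h => hne (hw0 v hv h hwv)
      · rw [if_neg hwv]
    · intro h
      exact absurd hyY h
  · -- case II
    have h1 := hMZ z (hZX z x hxX hzx hzc) y hyY
    rw [Finset.sum_eq_single x] at h1
    · rwa [if_pos hzx] at h1
    · intro v hv hne
      by_cases hzv : G.Adj z v
      · rw [if_pos hzv]
        exact hM0 v hv y hyY fun h => hne (hz0 v hv h.symm hzv)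
      · rw [if_neg hzv]
    · intro h
      exact absurd hxX h
  · -- case III
    have hxy := same_col hG φ hφ
    have h1 : ∑ v ∈ X, (if G.Adj z v ∧ φ v = φ x then
        ∑ v' ∈ Y, (if G.Adj w v' then M v v' else 0) else 0) = 0 := by
      refine Finset.sum_eq_zero fun v hv => ?_
      split_ifs
      · exact hMW w (hZY w y hyY hwy hwc) v hv
      · rfl
    have h2 : ∑ v' ∈ Y, (if G.Adj w v' ∧ φ v' = d then
        ∑ v ∈ X, (if G.Adj z v then M v v' else 0) else 0) = 0 := by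
      refine Finset.sum_eq_zero fun v hv => ?_
      split_ifs
      · exact hMZ z (hZX z x hxX hzx hzc) v hv
      · rfl
    have h3 : ∑ v ∈ X, ∑ v' ∈ Y, (if (G.Adj z v ∧ φ v = φ x) ∧ G.Adj w v' then M v v' else 0) = 0 := by
      refine Eq.trans ?_ h1
      refine Finset.sum_congr rfl fun v _ => ?_
      by_cases h : G.Adj z v ∧ φ v = φ x
      · simp [h]
      · simp only [h, false_and, if_false, Finset.sum_const_zero]
    have h4 : ∑ v ∈ X, ∑ v' ∈ Y, (if (G.Adj w v' ∧ φ v' = d) ∧ G.Adj z v then M v v' else 0) = 0 := by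
      rw [Finset.sum_comm]
      refine Eq.trans ?_ h2
      refine Finset.sum_congr rfl fun v _ => ?_
      by_cases h : G.Adj w v ∧ φ v = d
      · simp [h]
      · simp only [h, false_and, if_false, Finset.sum_const_zero]
    have h5 : ∑ v ∈ X, ∑ v' ∈ Y, ((if (G.Adj z v ∧ φ v = φ x) ∧ G.Adj w v' then M v v' else 0) -
        (if (G.Adj w v' ∧ φ v' = d) ∧ G.Adj z v then M v v' else 0)) = 0 := by
      simp only [Finset.sum_sub_distrib, h3, h4, sub_zero]
    have h6 : ∀ v ∈ X, ∀ v' ∈ Y, ¬ (v = x ∧ v' = y) →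
        ((if (G.Adj z v ∧ φ v = φ x) ∧ G.Adj w v' then M v v' else 0) -
        (if (G.Adj w v' ∧ φ v' = d) ∧ G.Adj z v then M v v' else 0)) = 0 := by
      intro v hv v' hv' heq
      by_cases hvv : G.Adj v v'
      swap
      · rw [hM0 v hv v' hv' hvv]
        simp
      have hcol : φ v ≠ φ v' := by
        intro h
        rcases hφ v v' hvv h with h3 | h3
        · exact heq h3
        · exact hneY v hv v' hv' h3
      by_cases hzv : G.Adj z v
      · by_cases hwv : G.Adj w v'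
        · rcases hBz v hv hzv with h5 | h5 <;> rcases hBw v' hv' hwv with h6 | h6
          · exact absurd (h5.trans h6.symm) hcol
          · rw [if_pos ⟨⟨hzv, h5⟩, hwv⟩, if_pos ⟨⟨hwv, h6⟩, hzv⟩, sub_self]
          · rw [if_neg, if_neg, sub_self]
            · rintro ⟨⟨-, h⟩, -⟩
              exact hcd (h6.symm.trans h)
            · rintro ⟨⟨-, h⟩, -⟩
              exact hcd (h.symm.trans h5)
          · exact absurd (h5.trans h6.symm) hcol
        · rw [if_neg (fun h => hwv h.2), if_neg (fun h => hwv h.1.1), sub_self]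
      · rw [if_neg (fun h => hzv h.1.1), if_neg (fun h => hzv h.2), sub_self]
    rw [Finset.sum_eq_single x, Finset.sum_eq_single y] at h5
    · rw [if_pos ⟨⟨hzx, rfl⟩, hwy⟩, if_neg, sub_zero] at h5
      · exact h5
      · rintro ⟨⟨-, h⟩, -⟩
        exact hcd (hxy.trans h)
    · intro v hv hne
      exact h6 x hxX v hv fun h => hne h.2
    · intro h
      exact absurd hyY h
    · intro v hv hne
      exact Finset.sum_eq_zero fun v' hv' => h6 v hv v' hv' fun h => hne h.1
    · intro h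
      exact absurd hxX h

/-- **The linear algebra lemma, strongest form.** -/
theorem lemP6 (G : SimpleGraph V) [DecidableRel G.Adj] (q : ℕ) (hG : ¬ G.Colorable q)
    (hcrit : ∀ e ∈ G.edgeSet, (G.deleteEdges {e}).Colorable q)
    (Q0 X Y : Finset V) (hQ : ∀ u ∈ Q0, ∀ v ∈ Q0, u ≠ v → G.Adj u v) (hQc : Q0.card + 4 = q)
    (hXY : Disjoint X Y)
    (hX : ∀ v ∈ X, ∀ t ∈ Q0, G.Adj v t) (hY : ∀ v ∈ Y, ∀ t ∈ Q0, G.Adj v t)
    (hX20 : 20 ≤ X.card) (hY20 : 20 ≤ Y.card)
    (hmX : ∀ v ∈ X, 6 * (Y.filter (fun w => ¬ G.Adj v w)).card ≤ Y.card)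
    (hmY : ∀ w ∈ Y, 6 * (X.filter (fun v => ¬ G.Adj w v)).card ≤ X.card)
    (ZX ZY : Finset V)
    (hZX : ∀ z, ∀ x ∈ X, G.Adj z x →
      2 * X.card ≤ 3 * (X.filter (fun v => ¬ G.Adj z v)).card + 3 → z ∈ ZX)
    (hZY : ∀ w, ∀ y ∈ Y, G.Adj w y →
      2 * Y.card ≤ 3 * (Y.filter (fun v => ¬ G.Adj w v)).card + 3 → w ∈ ZY) :
    (X.card - ZX.card) * (Y.card - ZY.card) ≤ ((X ×ˢ Y).filter (fun p => ¬ G.Adj p.1 p.2)).card := by
  classical
  by_contra hlt
  push Not at hlt
  set N : Finset (X × Y) := univ.filter fun p => ¬ G.Adj p.1.1 p.2.1 with hN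
  have hNc : N.card = ((X ×ˢ Y).filter (fun p => ¬ G.Adj p.1 p.2)).card := by
    refine Finset.card_bij (fun p _ => (p.1.1, p.2.1)) ?_ ?_ ?_
    · intro p hp
      rw [hN, mem_filter] at hp
      rw [mem_filter, mem_product]
      exact ⟨⟨p.1.2, p.2.2⟩, hp.2⟩
    · intro p _ p' _ h
      rw [Prod.mk.injEq] at h
      exact Prod.ext (Subtype.ext h.1) (Subtype.ext h.2)
    · intro p hp
      rw [mem_filter, mem_product] at hp
      refine ⟨(⟨p.1, hp.1.1⟩, ⟨p.2, hp.1.2⟩), ?_, rfl⟩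
      rw [hN, mem_filter]
      exact ⟨mem_univ _, hp.2⟩
  obtain ⟨M, ⟨x0, y0, hne⟩, hM0, hMZ, hMW⟩ := exists_tensor
    (fun (z : ZX) (x : X) => if G.Adj z.1 x.1 then (1 : ℚ) else 0)
    (fun (w : ZY) (y : Y) => if G.Adj w.1 y.1 then (1 : ℚ) else 0) N (by
      rw [hNc]
      simpa only [Fintype.card_coe] using hlt)
  let M' : V → V → ℚ := fun v w => if h : v ∈ X ∧ w ∈ Y then M ⟨v, h.1⟩ ⟨w, h.2⟩ else 0
  have hM' : ∀ (x : X) (y : Y), M' x y = M x y := fun x y => dif_pos ⟨x.2, y.2⟩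
  apply hne
  rw [← hM']
  refine matrix_zero G q hG hcrit Q0 X Y hQ hQc hXY hX hY hX20 hY20 hmX hmY ZX ZY hZX hZY M' ?_ ?_ ?_
    x0 x0.2 y0 y0.2
  · intro x hx y hy hxy
    have h1 := hM' ⟨x, hx⟩ ⟨y, hy⟩
    rw [h1]
    refine hM0 (⟨x, hx⟩, ⟨y, hy⟩) ?_
    rw [hN, mem_filter]
    exact ⟨mem_univ _, hxy⟩
  · intro z hz y hy
    rw [← Finset.sum_coe_sort X (fun x => if G.Adj z x then M' x y else 0)]
    refine Eq.trans ?_ (hMZ ⟨z, hz⟩ ⟨y, hy⟩)
    refine Finset.sum_congr rfl fun x _ => ?_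
    rw [← hM' x ⟨y, hy⟩]
    split_ifs <;> simp
  · intro w hw x hx
    rw [← Finset.sum_coe_sort Y (fun y => if G.Adj w y then M' x y else 0)]
    refine Eq.trans ?_ (hMW ⟨w, hw⟩ ⟨x, hx⟩)
    refine Finset.sum_congr rfl fun y _ => ?_
    rw [← hM' ⟨x, hx⟩ y]
    split_ifs <;> simp

end Main6

end Pool.Agent.FK
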