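import Pool.Agent.FKC.PairStep2
import Pool.Agent.FKC.LemPG
import Pool.Agent.FKC.Clean

/-!
# The final inequality for one pair of classes, version 3

Two classes with at most 3 percent of non-edges between them, complete to a clique with `q - 4` vertices and with few
non-neighbours outside, cannot exist (via `lemP6` and `exists_clean`).
-/

set_option autoImplicit false

namespace Pool.Agent.FKC

open Finset Classical

variable {V ι : Type*} [Fintype V]

/-- the vertices which miss a large part of `X` -/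
theorem Z_bound3 {G : SimpleGraph V} {col : V → ι} (hcol : Proper G col) (X : Finset V) (a : ι)
    (hXa : ∀ v ∈ X, col v = a) :
    (univ.filter fun z => ∃ x ∈ X, G.Adj z x ∧
      2 * X.card ≤ 3 * (X.filter fun v => ¬ G.Adj z v).card + 3).card * (2 * X.card) ≤
    3 * Ex G col univ a + 3 * (univ.filter fun z => ∃ x ∈ X, G.Adj z x ∧
      2 * X.card ≤ 3 * (X.filter fun v => ¬ G.Adj z v).card + 3).card := by
  set Z := univ.filter fun z => ∃ x ∈ X, G.Adj z x ∧
      2 * X.card ≤ 3 * (X.filter fun v => ¬ G.Adj z v).card + 3 with hZ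
  have h1 : Z.card * (2 * X.card) ≤ ∑ z ∈ Z, (3 * (X.filter fun v => ¬ G.Adj z v).card + 3) := by
    rw [← smul_eq_mul, ← sum_const]
    refine sum_le_sum fun z hz => ?_
    obtain ⟨x, -, -, h⟩ := (mem_filter.1 hz).2
    exact h
  have h2 : ∑ z ∈ Z, (X.filter fun v => ¬ G.Adj z v).card ≤ Ex G col univ a := by
    have h3 : ∑ z ∈ Z, (X.filter fun v => ¬ G.Adj z v).card =
        ∑ v ∈ X, (Z.filter fun z => ¬ G.Adj v z).card := by
      simp_rw [card_filter]
      rw [sum_comm]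
      refine sum_congr rfl fun v _ => sum_congr rfl fun z _ => ?_
      rw [G.adj_comm z v]
    rw [h3, Ex]
    calc ∑ v ∈ X, (Z.filter fun z => ¬ G.Adj v z).card
        ≤ ∑ v ∈ X, ex G col univ v := by
          refine sum_le_sum fun v hv => card_le_card fun z hz => ?_
          rw [mem_filter] at hz ⊢
          refine ⟨mem_univ _, ?_, hz.2⟩
          obtain ⟨x, hx, hzx, -⟩ := (mem_filter.1 hz.1).2
          intro h
          exact hcol z x (h.trans ((hXa v hv).trans (hXa x hx).symm)) hzx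
      _ ≤ _ := by
          refine sum_le_sum_of_subset fun v hv => ?_
          rw [cl, mem_filter]
          exact ⟨mem_univ _, hXa v hv⟩
  calc Z.card * (2 * X.card) ≤ ∑ z ∈ Z, (3 * (X.filter fun v => ¬ G.Adj z v).card + 3) := h1
    _ = 3 * ∑ z ∈ Z, (X.filter fun v => ¬ G.Adj z v).card + 3 * Z.card := by
        rw [sum_add_distrib, ← mul_sum, sum_const, smul_eq_mul]
        ring
    _ ≤ _ := by omega

/-- the numerical part -/
theorem pair_num3 {x y x' y' z w ea eb mm mm' : ℝ} (hX : 10000 ≤ x) (hY : 10000 ≤ y) (hx' : x' ≤ x)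
    (hy' : y' ≤ y) (hx0 : 0 ≤ x') (hy0 : 0 ≤ y') (hz0 : 0 ≤ z) (hw0 : 0 ≤ w) (hm' : 0 ≤ mm')
    (hm : mm ≤ 3 / 100 * (x * y)) (hc : x * y + 6 * mm' ≤ x' * y' + 6 * mm)
    (hea : ea ≤ 11 / 25 * x ^ 2) (heb : eb ≤ 11 / 25 * y ^ 2)
    (hz : z * (2 * x') ≤ 3 * ea + 3 * z) (hw : w * (2 * y') ≤ 3 * eb + 3 * w)
    (hk : z ≤ x' → w ≤ y' → (x' - z) * (y' - w) ≤ mm') : False := by
  have hP : 82 / 100 * (x * y) + 6 * mm' ≤ x' * y' := by linarith
  have hxy : 0 < x * y := by positivity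
  have hsx : 82 / 100 * x ≤ x' := by
    by_contra h
    push Not at h
    have h1 : x' * y' ≤ x' * y := mul_le_mul_of_nonneg_left hy' hx0
    have h2 : x' * y < 82 / 100 * x * y := mul_lt_mul_of_pos_right h (by linarith)
    nlinarith
  have hsy : 82 / 100 * y ≤ y' := by
    by_contra h
    push Not at h
    have h1 : x' * y' ≤ x * y' := mul_le_mul_of_nonneg_right hx' hy0
    have h2 : x * y' < x * (82 / 100 * y) := mul_lt_mul_of_pos_left h (by linarith)
    nlinarith
  have hx8 : 8200 ≤ x' := by linarith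
  have hy8 : 8200 ≤ y' := by linarith
  have hzx : z * x' ≤ 6602 / 10000 * x ^ 2 := by
    have h1 : 8200 * z ≤ z * x' := by nlinarith
    nlinarith
  have hwy : w * y' ≤ 6602 / 10000 * y ^ 2 := by
    have h1 : 8200 * w ≤ w * y' := by nlinarith
    nlinarith
  have hx2 : 6724 / 10000 * x ^ 2 ≤ x' ^ 2 := by nlinarith
  have hy2 : 6724 / 10000 * y ^ 2 ≤ y' ^ 2 := by nlinarith
  have hx2p : 0 < x ^ 2 := by positivity
  have hy2p : 0 < y ^ 2 := by positivity
  have hzle : z ≤ x' := by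
    by_contra h
    push Not at h
    nlinarith
  have hwle : w ≤ y' := by
    by_contra h
    push Not at h
    nlinarith
  have key := hk hzle hwle
  have h1 : x' ^ 2 - 6602 / 10000 * x ^ 2 ≤ x' * (x' - z) := by nlinarith
  have h2 : y' ^ 2 - 6602 / 10000 * y ^ 2 ≤ y' * (y' - w) := by nlinarith
  have h3 : (x' ^ 2 - 6602 / 10000 * x ^ 2) * (y' ^ 2 - 6602 / 10000 * y ^ 2) ≤
      (x' * (x' - z)) * (y' * (y' - w)) := by
    refine mul_le_mul h1 h2 (by linarith) ?_
    exact mul_nonneg hx0 (by linarith)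
  have h4 : (x' * (x' - z)) * (y' * (y' - w)) ≤ (x' * y') * mm' := by
    have : (x' * (x' - z)) * (y' * (y' - w)) = (x' * y') * ((x' - z) * (y' - w)) := by ring
    rw [this]
    exact mul_le_mul_of_nonneg_left key (by positivity)
  have h5 : (x' * y') * mm' ≤ (x' * y') * ((x' * y' - 82 / 100 * (x * y)) / 6) :=
    mul_le_mul_of_nonneg_left (by linarith) (by positivity)
  have h6 : 0 ≤ (x ^ 2 - x' ^ 2) * (y ^ 2 - y' ^ 2) := by
    refine mul_nonneg ?_ ?_
    · nlinarith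
    · nlinarith
  have h7 : 3398 / 10000 * ((x' * y') ^ 2 - 6602 / 10000 * (x * y) ^ 2) ≤
      (x' ^ 2 - 6602 / 10000 * x ^ 2) * (y' ^ 2 - 6602 / 10000 * y ^ 2) := by
    nlinarith
  have h8 : 3398 / 10000 * ((x' * y') ^ 2 - 6602 / 10000 * (x * y) ^ 2) ≤
      (x' * y') * ((x' * y' - 82 / 100 * (x * y)) / 6) := by linarith
  have h9 : 82 / 100 * (x * y) ≤ x' * y' := by linarith
  generalize x' * y' = p at *
  generalize x * y = r at *
  nlinarith

/-- C3: the final inequality for one pair of classes. -/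
theorem pair_step3 {q : ℕ} (hq : 4 ≤ q) (G : SimpleGraph V) (hG : ¬ G.Colorable q)
    (hcrit : ∀ e ∈ G.edgeSet, (G.deleteEdges {e}).Colorable q) (col : V → ι) (hcol : Proper G col)
    (Q X Y : Finset V) (a b : ι) (hab : a ≠ b) (hXa : ∀ v ∈ X, col v = a) (hYb : ∀ v ∈ Y, col v = b)
    (hQ : G.IsClique (Q : Set V)) (hQc : q ≤ Q.card + 2) (hQX : ∀ v ∈ X, ∀ p ∈ Q, col p ≠ a → G.Adj v p)
    (hQY : ∀ v ∈ Y, ∀ p ∈ Q, col p ≠ b → G.Adj v p) (hXl : 10000 ≤ X.card) (hYl : 10000 ≤ Y.card)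
    (hm : (((X ×ˢ Y).filter fun p => ¬ G.Adj p.1 p.2).card : ℝ) ≤ 3 / 100 * ((X.card : ℝ) * Y.card))
    (hEa : (Ex G col univ a : ℝ) ≤ 11 / 25 * (X.card : ℝ) ^ 2)
    (hEb : (Ex G col univ b : ℝ) ≤ 11 / 25 * (Y.card : ℝ) ^ 2) :
    False := by
  -- the clique
  obtain ⟨Q0, hQ0, hQ0c⟩ : ∃ Q0 : Finset V, Q0 ⊆ Q.filter (fun p => col p ≠ a ∧ col p ≠ b) ∧ Q0.card = q - 4 := by
    apply exists_subset_card_eq
    have h1 := clique_class_le_one hcol hQ a
    have h2 := clique_class_le_one hcol hQ b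
    have h3 : Q ⊆ (Q.filter (fun p => col p ≠ a ∧ col p ≠ b) ∪ Q.filter fun p => col p = a) ∪
        Q.filter fun p => col p = b := by
      intro p hp
      simp only [mem_union, mem_filter]
      tauto
    have h4 := card_le_card h3
    have h5 := card_union_le (Q.filter (fun p => col p ≠ a ∧ col p ≠ b) ∪ Q.filter fun p => col p = a)
      (Q.filter fun p => col p = b)
    have h6 := card_union_le (Q.filter (fun p => col p ≠ a ∧ col p ≠ b)) (Q.filter fun p => col p = a)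
    omega
  obtain ⟨X', hX'X, Y', hY'Y, hmX, hmY, hcl⟩ := exists_clean G X Y
  set ZX := univ.filter fun z => ∃ x ∈ X', G.Adj z x ∧
      2 * X'.card ≤ 3 * (X'.filter fun v => ¬ G.Adj z v).card + 3 with hZX
  set ZY := univ.filter fun z => ∃ x ∈ Y', G.Adj z x ∧
      2 * Y'.card ≤ 3 * (Y'.filter fun v => ¬ G.Adj z v).card + 3 with hZY
  have hbX := Z_bound3 hcol X' a (fun v hv => hXa v (hX'X hv))
  have hbY := Z_bound3 hcol Y' b (fun v hv => hYb v (hY'Y hv))
  rw [← hZX] at hbX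
  rw [← hZY] at hbY
  have key : 20 ≤ X'.card → 20 ≤ Y'.card → (X'.card - ZX.card) * (Y'.card - ZY.card) ≤
      ((X' ×ˢ Y').filter (fun p => ¬ G.Adj p.1 p.2)).card := fun h1 h2 =>
    Pool.Agent.FK.lemP6 G q hG hcrit Q0 X' Y'
      (fun u hu v hv huv => hQ (mem_coe.2 (mem_filter.1 (hQ0 hu)).1) (mem_coe.2 (mem_filter.1 (hQ0 hv)).1) huv)
      (by omega)
      (by
        rw [disjoint_left]
        intro v hv hv'
        exact hab ((hXa v (hX'X hv)).symm.trans (hYb v (hY'Y hv'))))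
      (fun v hv t ht => hQX v (hX'X hv) t (mem_filter.1 (hQ0 ht)).1 (mem_filter.1 (hQ0 ht)).2.1)
      (fun v hv t ht => hQY v (hY'Y hv) t (mem_filter.1 (hQ0 ht)).1 (mem_filter.1 (hQ0 ht)).2.2)
      h1 h2 hmX hmY ZX ZY
      (fun z x hx hzx h => mem_filter.2 ⟨mem_univ _, x, hx, hzx, h⟩)
      (fun z x hx hzx h => mem_filter.2 ⟨mem_univ _, x, hx, hzx, h⟩)
  have kX : (10000 : ℝ) ≤ X.card := by exact_mod_cast hXl
  have kY : (10000 : ℝ) ≤ Y.card := by exact_mod_cast hYl
  have kx : (X'.card : ℝ) ≤ X.card := by exact_mod_cast card_le_card hX'X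
  have ky : (Y'.card : ℝ) ≤ Y.card := by exact_mod_cast card_le_card hY'Y
  have kc : (X.card : ℝ) * Y.card + 6 * (((X' ×ˢ Y').filter fun p => ¬ G.Adj p.1 p.2).card : ℝ) ≤
      (X'.card : ℝ) * Y'.card + 6 * (((X ×ˢ Y).filter fun p => ¬ G.Adj p.1 p.2).card : ℝ) := by
    exact_mod_cast hcl
  have kZ : (ZX.card : ℝ) * (2 * X'.card) ≤ 3 * Ex G col univ a + 3 * ZX.card := by exact_mod_cast hbX
  have kW : (ZY.card : ℝ) * (2 * Y'.card) ≤ 3 * Ex G col univ b + 3 * ZY.card := by exact_mod_cast hbY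
  -- both parts are large
  have hxl : 20 ≤ X'.card := by
    by_contra h
    push Not at h
    have h1 : (X'.card : ℝ) ≤ 20 := by exact_mod_cast h.le
    have h2 : (X'.card : ℝ) * Y'.card ≤ 20 * Y.card :=
      mul_le_mul h1 ky (by positivity) (by norm_num)
    have h3 : (0 : ℝ) ≤ (((X' ×ˢ Y').filter fun p => ¬ G.Adj p.1 p.2).card : ℝ) := by positivity
    nlinarith
  have hyl : 20 ≤ Y'.card := by
    by_contra h
    push Not at h
    have h1 : (Y'.card : ℝ) ≤ 20 := by exact_mod_cast h.le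
    have h2 : (X'.card : ℝ) * Y'.card ≤ X.card * 20 :=
      mul_le_mul kx h1 (by positivity) (by positivity)
    have h3 : (0 : ℝ) ≤ (((X' ×ˢ Y').filter fun p => ¬ G.Adj p.1 p.2).card : ℝ) := by positivity
    nlinarith
  have key2 := key hxl hyl
  refine pair_num3 kX kY kx ky (Nat.cast_nonneg _) (Nat.cast_nonneg _) (Nat.cast_nonneg ZX.card)
    (Nat.cast_nonneg ZY.card) (Nat.cast_nonneg _) hm kc hEa hEb kZ kW ?_
  intro h1 h2
  have h3 : ZX.card ≤ X'.card := by exact_mod_cast h1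
  have h4 : ZY.card ≤ Y'.card := by exact_mod_cast h2
  rw [← Nat.cast_sub h3, ← Nat.cast_sub h4, ← Nat.cast_mul]
  exact_mod_cast key2

end Pool.Agent.FKC
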