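import Mathlib

/-!
# Dense critical graphs, upper bound: selection of two classes, third version

A pure inequality. `c a` is the size of the class `a`, `x a` the size of the cleaned class, `E a` the number of
non-adjacent pairs with one element in the class `a` and the other in another class, `m a b` the number of
non-adjacent pairs between the cleaned classes.
-/

set_option autoImplicit false

namespace Pool.Agent.FKC

open Finset Classical

/-- numerical core, at least five good classes -/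
theorem num3_five {q : ℝ} (hq : 21 ≤ q) :
    3 / ((q - 3) * q) + 15 / (97 * q ^ 2) + 5 / 100000 / q <
      11 / 25 * (3 * ((20 * (q - 3) - 81) / (20 * (q - 3))) ^ 2 / (3 * q + 29)) := by
  obtain ⟨s, rfl⟩ : ∃ s, q = s + 21 := ⟨q - 21, by ring⟩
  have hs : 0 ≤ s := by linarith
  rw [← sub_pos]
  have h1 : s + 21 - 3 ≠ 0 := by linarith
  have h2 : s + 21 ≠ 0 := by linarith
  have h3 : 3 * (s + 21) + 29 ≠ 0 := by linarith
  have e : 11 / 25 * (3 * ((20 * (s + 21 - 3) - 81) / (20 * (s + 21 - 3))) ^ 2 / (3 * (s + 21) + 29)) -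
      (3 / ((s + 21 - 3) * (s + 21)) + 15 / (97 * (s + 21) ^ 2) + 5 / 100000 / (s + 21)) =
      (4183827633/2425 + 2365916868/485*s + 1675596687/2425*s^2 + 160614409/4850*s^3 + 26397/50*s^4) /
      (400 * (s + 21 - 3) ^ 2 * (s + 21) ^ 2 * (3 * (s + 21) + 29)) := by
    field_simp
    ring
  rw [e]
  have h4 : 0 < s + 21 - 3 := by linarith
  positivity

/-- numerical core, at most four good classes -/
theorem num3_four {q : ℝ} (hq : 21 ≤ q) (k : ℕ) (hk : k ≤ 4) :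
    3 / ((q - 3) * q) + 3 / 97 * k / q ^ 2 + 5 / 100000 / q <
      3 / 100 * (k * (27 / (20 * (q - 3)))) ^ 2 +
      11 / 25 * (((20 * (q - 3) - 81 - 27 * k) / (20 * (q - 3))) ^ 2 / (q - k)) := by
  obtain ⟨s, rfl⟩ : ∃ s, q = s + 21 := ⟨q - 21, by ring⟩
  have hs : 0 ≤ s := by linarith
  have hk' : (k : ℝ) ≤ 4 := by exact_mod_cast hk
  rw [← sub_pos]
  have h1 : s + 21 - 3 ≠ 0 := by linarith
  have h2 : s + 21 ≠ 0 := by linarith
  have h3 : s + 21 - k ≠ 0 := by linarith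
  have e : 3 / 100 * (k * (27 / (20 * (s + 21 - 3)))) ^ 2 +
      11 / 25 * (((20 * (s + 21 - 3) - 81 - 27 * k) / (20 * (s + 21 - 3))) ^ 2 / (s + 21 - k)) -
      (3 / ((s + 21 - 3) * (s + 21)) + 3 / 97 * k / (s + 21) ^ 2 + 5 / 100000 / (s + 21)) =
      ((3 / 100 * k ^ 2 * 729 * (s + 21) ^ 2) * (s + 21 - k) +
        11 / 25 * (20 * (s + 21 - 3) - 81 - 27 * k) ^ 2 * (s + 21) ^ 2 -
        (1200 * (s + 21 - 3) * (s + 21) + 3 / 97 * k * 400 * (s + 21 - 3) ^ 2 +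
          5 / 100000 * 400 * (s + 21 - 3) ^ 2 * (s + 21)) * (s + 21 - k)) /
      (400 * (s + 21 - 3) ^ 2 * (s + 21) ^ 2 * (s + 21 - k)) := by
    field_simp
    ring
  rw [e]
  have h4 : 0 < s + 21 - 3 := by linarith
  have h5 : 0 < s + 21 - k := by linarith
  apply div_pos _ (by positivity)
  clear e
  interval_cases k
  · push_cast
    ring_nf
    positivity
  · push_cast
    ring_nf
    positivity
  · push_cast
    ring_nf
    positivity
  · push_cast
    ring_nf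
    positivity
  · push_cast
    ring_nf
    positivity

/-- at least five good classes -/
theorem select3_five {q n X A P g : ℝ} (hq : 21 ≤ q) (hg : 5 ≤ g) (hn : 1000000 * q ^ 2 ≤ n)
    (hX : n - 81 / 20 * (n / (q - 3)) - 4 ≤ X)
    (hII : ∀ τ, 0 ≤ τ → 2 * τ * (X - A) - (q - g) * τ ^ 2 ≤ P)
    (hI : 3 / 100 * A ^ 2 + 11 / 25 * P ≤ 3 * n ^ 2 / ((q - 3) * q) + 2 * n / q + 3 / 97 * g * n ^ 2 / q ^ 2 +
      11 / 25 * n ^ 2 / (10000 * q)) : False := by
  have hq0 : (0 : ℝ) < q := by linarith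
  have hr0 : (0 : ℝ) < q - 3 := by linarith
  have hn0 : 0 < n := by nlinarith
  have hn1 : 1000000 ≤ n := by nlinarith
  have hK := num3_five hq
  set ξ : ℝ := (20 * (q - 3) - 81) / (20 * (q - 3)) with hξ
  have hξ1 : ξ ≤ 1 := by
    rw [hξ, div_le_one (by linarith)]
    linarith
  have hξ0 : 31 / 40 ≤ ξ := by
    rw [hξ, le_div_iff₀ (by linarith)]
    linarith
  have hX' : ξ * n - 4 ≤ X := by
    have e : ξ * n = n - 81 / 20 * (n / (q - 3)) := by
      rw [hξ]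
      field_simp
    rw [e]
    exact hX
  have hd : (0 : ℝ) < 3 * q + 29 := by linarith
  set T : ℝ := 3 * ξ / (3 * q + 29) with hT
  have hT0 : 0 ≤ T := by
    rw [hT]
    apply div_nonneg _ hd.le
    linarith
  have hT1 : T ≤ 1 / q := by
    rw [hT, div_le_div_iff₀ hd hq0]
    nlinarith
  have hT2 : 1 / (2 * q) ≤ T := by
    rw [hT, div_le_div_iff₀ (by linarith) hd]
    nlinarith
  have hT3 : 3 / 97 / q ^ 2 ≤ 11 / 25 * T ^ 2 := by
    have h1 : (1 / (2 * q)) ^ 2 ≤ T ^ 2 := pow_le_pow_left₀ (by positivity) hT2 2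
    have h2 : (1 / (2 * q)) ^ 2 = 1 / 4 / q ^ 2 := by
      field_simp
      norm_num
    have h3 : 3 / 97 / q ^ 2 ≤ 11 / 25 * (1 / 4 / q ^ 2) := by
      rw [← mul_div_assoc]
      exact div_le_div_of_nonneg_right (by norm_num) (by positivity)
    linarith
  have hTT : 2 * T * ξ - (3 * q + 29) / 3 * T ^ 2 = 3 * ξ ^ 2 / (3 * q + 29) := by
    rw [hT]
    field_simp
    ring
  have h2 := hII (T * n) (by positivity)
  have hA2 : -(484 / 75) * (T * n) ^ 2 ≤ 3 / 100 * A ^ 2 - 22 / 25 * (T * n) * A := by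
    nlinarith [sq_nonneg (3 / 100 * A - 11 / 25 * (T * n))]
  have hTn : 0 ≤ T * n := by positivity
  have hXT : T * n * (ξ * n - 4) ≤ T * n * X := mul_le_mul_of_nonneg_left hX' hTn
  have hgT : (g - 5) * (3 / 97 / q ^ 2) * n ^ 2 ≤ (g - 5) * (11 / 25 * T ^ 2) * n ^ 2 := by
    apply mul_le_mul_of_nonneg_right _ (sq_nonneg n)
    exact mul_le_mul_of_nonneg_left hT3 (by linarith)
  have hTn1 : T * n ≤ 1 / q * n := mul_le_mul_of_nonneg_right hT1 hn0.le
  have herr : 6 * (1 / q * n) ≤ 6 / 1000000 * (1 / q * n ^ 2) := by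
    have h3 : 1 / q * n * 1000000 ≤ 1 / q * n * n := mul_le_mul_of_nonneg_left hn1 (by positivity)
    nlinarith
  have hKn := mul_lt_mul_of_pos_right hK (show (0 : ℝ) < n ^ 2 by positivity)
  have e1 : (3 / ((q - 3) * q) + 15 / (97 * q ^ 2) + 5 / 100000 / q) * n ^ 2 =
      3 * n ^ 2 / ((q - 3) * q) + 15 * (1 / 97 / q ^ 2 * n ^ 2) + 5 / 100000 * (1 / q * n ^ 2) := by
    field_simp
  have e2 : 3 / 97 * g * n ^ 2 / q ^ 2 = 3 * g * (1 / 97 / q ^ 2 * n ^ 2) := by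
    field_simp
  have e3 : 11 / 25 * n ^ 2 / (10000 * q) = 44 / 1000000 * (1 / q * n ^ 2) := by
    field_simp
    norm_num
  have e4 : 2 * n / q = 2 * (1 / q * n) := by
    field_simp
  have e5 : (g - 5) * (3 / 97 / q ^ 2) * n ^ 2 = 3 * (g - 5) * (1 / 97 / q ^ 2 * n ^ 2) := by
    field_simp
  rw [← hTT] at hKn
  rw [e1] at hKn
  rw [e2, e3, e4] at hI
  rw [e5] at hgT
  nlinarith

/-- at most four good classes -/
theorem select3_four {q n X A P : ℝ} (hq : 21 ≤ q) (k : ℕ) (hk : k ≤ 4) (hn : 1000000 * q ^ 2 ≤ n)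
    (hX : n - 81 / 20 * (n / (q - 3)) - 4 ≤ X) (hA : A ≤ k * (27 / 20 * (n / (q - 3)) + 1))
    (hII : ∀ τ, 0 ≤ τ → 2 * τ * (X - A) - (q - k) * τ ^ 2 ≤ P)
    (hI : 3 / 100 * A ^ 2 + 11 / 25 * P ≤ 3 * n ^ 2 / ((q - 3) * q) + 2 * n / q + 3 / 97 * k * n ^ 2 / q ^ 2 +
      11 / 25 * n ^ 2 / (10000 * q)) : False := by
  have hq0 : (0 : ℝ) < q := by linarith
  have hr0 : (0 : ℝ) < q - 3 := by linarith
  have hn0 : 0 < n := by nlinarith
  have hn1 : 2000000 ≤ n := by nlinarith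
  have hk0 : (0 : ℝ) ≤ k := Nat.cast_nonneg k
  have hk4 : (k : ℝ) ≤ 4 := by exact_mod_cast hk
  have hd : (0 : ℝ) < q - k := by linarith
  have hK := num3_four hq k hk
  set β : ℝ := 27 / (20 * (q - 3)) with hβ
  have hβ0 : 0 ≤ β := by
    rw [hβ]
    apply div_nonneg (by norm_num)
    linarith
  set ξ : ℝ := (20 * (q - 3) - 81 - 27 * k) / (20 * (q - 3)) with hξ
  have hξ1 : ξ ≤ 1 := by
    rw [hξ, div_le_one (by linarith)]
    linarith
  have hξ0 : 0 ≤ ξ := by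
    rw [hξ]
    apply div_nonneg _ (by linarith)
    linarith
  have hX' : ξ * n + k * β * n - 4 ≤ X := by
    have e : ξ * n + k * β * n = n - 81 / 20 * (n / (q - 3)) := by
      rw [hξ, hβ]
      field_simp
      ring
    rw [e]
    exact hX
  have hA' : A ≤ k * β * n + k := by
    have e : k * β * n + k = k * (27 / 20 * (n / (q - 3)) + 1) := by
      rw [hβ]
      field_simp
    rw [e]
    exact hA
  set T : ℝ := ξ / (q - k) with hT
  have hT0 : 0 ≤ T := by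
    rw [hT]
    exact div_nonneg hξ0 hd.le
  have hT1 : 22 / 25 * 8 * T ≤ 9 * (1 / q) := by
    have h1 : T ≤ 1 / (q - k) := div_le_div_of_nonneg_right hξ1 hd.le
    have h2 : 22 / 25 * 8 * (1 / (q - k)) ≤ 9 * (1 / q) := by
      rw [← mul_div_assoc, ← mul_div_assoc, div_le_div_iff₀ hd hq0]
      nlinarith
    nlinarith
  have hTβ : 3 / 50 * (k * β) ≤ 22 / 25 * T := by
    rw [hT, hβ, hξ, div_div, ← mul_div_assoc, ← mul_div_assoc, ← mul_div_assoc,
      div_le_div_iff₀ (by linarith) (mul_pos (by linarith) hd)]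
    have h1 : 81 * k * (q - k) ≤ 44 * (20 * (q - 3) - 81 - 27 * k) := by nlinarith
    have h2 := mul_le_mul_of_nonneg_right h1 (show (0 : ℝ) ≤ 20 * (q - 3) by linarith)
    nlinarith
  have hTT : 2 * T * ξ - (q - k) * T ^ 2 = ξ ^ 2 / (q - k) := by
    rw [hT]
    field_simp
    ring
  have h2 := hII (T * n) (by positivity)
  have hTn : 0 ≤ T * n := by positivity
  have hA2 : 3 / 100 * (2 * (k * β * n) * A - (k * β * n) ^ 2) ≤ 3 / 100 * A ^ 2 := by
    nlinarith [sq_nonneg (A - k * β * n)]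
  have hXT : T * n * (ξ * n + k * β * n - 4) ≤ T * n * X := mul_le_mul_of_nonneg_left hX' hTn
  have hAT : (22 / 25 * T - 3 / 50 * (k * β)) * n * A ≤
      (22 / 25 * T - 3 / 50 * (k * β)) * n * (k * β * n + k) := by
    apply mul_le_mul_of_nonneg_left hA'
    apply mul_nonneg _ hn0.le
    linarith
  have hTn1 : 22 / 25 * 8 * T * n ≤ 9 * (1 / q) * n := mul_le_mul_of_nonneg_right hT1 hn0.le
  have hTk : 22 / 25 * (T * n) * (4 + k) ≤ 22 / 25 * (T * n) * 8 := by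
    apply mul_le_mul_of_nonneg_left _ (by positivity)
    linarith
  have hkk : 0 ≤ 3 / 50 * (k * β) * n * k := by positivity
  have herr : 11 * (1 / q * n) ≤ 6 / 1000000 * (1 / q * n ^ 2) := by
    have h3 : 1 / q * n * 2000000 ≤ 1 / q * n * n := mul_le_mul_of_nonneg_left hn1 (by positivity)
    nlinarith
  have hKn := mul_lt_mul_of_pos_right hK (show (0 : ℝ) < n ^ 2 by positivity)
  have e1 : (3 / ((q - 3) * q) + 3 / 97 * k / q ^ 2 + 5 / 100000 / q) * n ^ 2 =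
      3 * n ^ 2 / ((q - 3) * q) + 3 / 97 * k * n ^ 2 / q ^ 2 + 5 / 100000 * (1 / q * n ^ 2) := by
    field_simp
  have e3 : 11 / 25 * n ^ 2 / (10000 * q) = 44 / 1000000 * (1 / q * n ^ 2) := by
    field_simp
    norm_num
  have e4 : 2 * n / q = 2 * (1 / q * n) := by
    field_simp
  rw [← hTT] at hKn
  rw [e1] at hKn
  rw [e3, e4] at hI
  nlinarith

/-- **Selection of two classes.** -/
theorem select3 {q : ℕ} (hq : 21 ≤ q) {n : ℝ} (hn : 1000000 * (q : ℝ) ^ 2 ≤ n) (x c E : Fin q → ℝ)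
    (m : Fin q → Fin q → ℝ) (hx0 : ∀ a, 0 ≤ x a) (hxc : ∀ a, x a ≤ c a) (hE0 : ∀ a, 0 ≤ E a)
    (hm0 : ∀ a b, 0 ≤ m a b) (hmE : ∀ a, ∑ b ∈ univ.erase a, m a b ≤ E a)
    (hc : n - 1 ≤ ∑ a, c a) (hM : ∑ a, (c a) ^ 2 + ∑ a, E a ≤ n ^ 2 / ((q : ℝ) - 3))
    (hxB : ∀ a, x a ≤ 27 / 20 * (n / ((q : ℝ) - 3)) + 1)
    (hsum : n - 81 / 20 * (n / ((q : ℝ) - 3)) - 4 ≤ ∑ a, x a) :
    ∃ a b, a ≠ b ∧ m a b ≤ 3 / 100 * (x a * x b) ∧ E a ≤ 11 / 25 * (x a) ^ 2 ∧ E b ≤ 11 / 25 * (x b) ^ 2 ∧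
      n / (100 * q) ≤ x a ∧ n / (100 * q) ≤ x b := by
  by_contra hno
  push Not at hno
  have hq' : (21 : ℝ) ≤ q := by exact_mod_cast hq
  have hq0 : (0 : ℝ) < q := by linarith
  have hn0 : 0 < n := by nlinarith
  set G0 := (univ : Finset (Fin q)).filter (fun a => E a ≤ 11 / 25 * (x a) ^ 2 ∧ n / (100 * q) ≤ x a) with hG0
  set A := ∑ a ∈ G0, x a with hA
  set P := ∑ a ∈ G0ᶜ, (x a) ^ 2 with hP
  set l : ℝ := n / q with hl
  have hl0 : 0 ≤ l := by rw [hl]; positivity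
  have hcard : ((G0ᶜ).card : ℝ) = q - (G0.card : ℝ) := by
    rw [card_compl, Fintype.card_fin, Nat.cast_sub]
    exact (card_le_univ G0).trans_eq (Fintype.card_fin q)
  have hgood : ∀ a ∈ G0, ∀ b ∈ G0, a ≠ b → 3 / 100 * (x a * x b) ≤ m a b := by
    intro a ha b hb hab
    rw [hG0, mem_filter] at ha hb
    by_contra hlt
    push Not at hlt
    have := hno a b hab hlt.le ha.2.1 hb.2.1 ha.2.2
    exact absurd hb.2.2 (not_le.mpr this)
  -- the good classes
  have h1 : ∀ a ∈ G0, 3 / 100 * (x a * A) + (2 * l * c a - 100 / 97 * l ^ 2) ≤ (c a) ^ 2 + E a := by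
    intro a ha
    have h3 : ∑ b ∈ G0.erase a, 3 / 100 * (x a * x b) ≤ ∑ b ∈ univ.erase a, m a b := by
      refine (sum_le_sum (fun b hb => ?_)).trans
        (sum_le_sum_of_subset_of_nonneg (erase_subset_erase a (subset_univ _))
          (fun b _ _ => hm0 a b))
      exact hgood a ha b (mem_of_mem_erase hb) (ne_of_mem_erase hb).symm
    have h4 : ∑ b ∈ G0.erase a, 3 / 100 * (x a * x b) = 3 / 100 * (x a * A - x a * x a) := by
      have h5 : ∑ b ∈ G0.erase a, x b = A - x a := by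
        rw [hA, ← add_sum_erase G0 x ha]
        ring
      calc ∑ b ∈ G0.erase a, 3 / 100 * (x a * x b) = 3 / 100 * x a * ∑ b ∈ G0.erase a, x b := by
            rw [mul_sum]
            exact sum_congr rfl (fun b _ => by ring)
        _ = 3 / 100 * (x a * A - x a * x a) := by
            rw [h5]
            ring
    have h5 : x a * x a ≤ c a * c a := mul_self_le_mul_self (hx0 a) (hxc a)
    have h6 := hmE a
    nlinarith [sq_nonneg (97 / 100 * c a - l)]
  -- the bad classes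
  have h2 : ∀ a ∈ G0ᶜ, 11 / 25 * (x a) ^ 2 - 11 / 25 * (n / (100 * q)) ^ 2 + (2 * l * c a - l ^ 2) ≤
      (c a) ^ 2 + E a := by
    intro a ha
    have h7 : 2 * l * c a - l ^ 2 ≤ (c a) ^ 2 := by nlinarith [sq_nonneg (c a - l)]
    rw [mem_compl, hG0, mem_filter] at ha
    by_cases hc : E a ≤ 11 / 25 * (x a) ^ 2
    · have h4 : x a < n / (100 * q) := by
        by_contra hge
        push Not at hge
        exact ha ⟨mem_univ _, hc, hge⟩
      have h5 : (x a) ^ 2 ≤ (n / (100 * q)) ^ 2 := pow_le_pow_left₀ (hx0 a) h4.le 2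
      have h6 := hE0 a
      linarith
    · push Not at hc
      have : 0 ≤ (n / (100 * (q : ℝ))) ^ 2 := sq_nonneg _
      linarith
  have h1' := sum_le_sum h1
  have h2' := sum_le_sum h2
  have e1 : ∑ a ∈ G0, (3 / 100 * (x a * A) + (2 * l * c a - 100 / 97 * l ^ 2)) =
      3 / 100 * A ^ 2 + 2 * l * (∑ a ∈ G0, c a) - G0.card * (100 / 97 * l ^ 2) := by
    rw [sum_add_distrib, sum_sub_distrib, ← mul_sum, ← sum_mul, ← mul_sum, sum_const, nsmul_eq_mul, ← hA]
    ring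
  have e2 : ∑ a ∈ G0ᶜ, (11 / 25 * (x a) ^ 2 - 11 / 25 * (n / (100 * q)) ^ 2 + (2 * l * c a - l ^ 2)) =
      11 / 25 * P - ((q : ℝ) - G0.card) * (11 / 25 * (n / (100 * q)) ^ 2) + 2 * l * (∑ a ∈ G0ᶜ, c a) -
        ((q : ℝ) - G0.card) * l ^ 2 := by
    have g1 : ∑ a ∈ G0ᶜ, 2 * l * c a = 2 * l * ∑ a ∈ G0ᶜ, c a := by rw [mul_sum]
    have g2 : ∑ a ∈ G0ᶜ, 11 / 25 * (x a) ^ 2 = 11 / 25 * P := by rw [hP, mul_sum]
    rw [sum_add_distrib, sum_sub_distrib, sum_sub_distrib, g1, g2, sum_const, sum_const,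
      nsmul_eq_mul, nsmul_eq_mul, hcard]
    ring
  have e3 : ∑ a ∈ G0, ((c a) ^ 2 + E a) + ∑ a ∈ G0ᶜ, ((c a) ^ 2 + E a) = ∑ a, (c a) ^ 2 + ∑ a, E a := by
    rw [sum_add_sum_compl, sum_add_distrib]
  have e4 : (∑ a ∈ G0, c a) + ∑ a ∈ G0ᶜ, c a = ∑ a, c a := sum_add_sum_compl G0 c
  have hXsum : A + ∑ a ∈ G0ᶜ, x a = ∑ a, x a := sum_add_sum_compl G0 x
  have hgq : (G0.card : ℝ) ≤ q := by
    have := (card_le_univ G0).trans_eq (Fintype.card_fin q)
    exact_mod_cast this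
  have hI : 3 / 100 * A ^ 2 + 11 / 25 * P ≤ 3 * n ^ 2 / (((q : ℝ) - 3) * q) + 2 * n / q +
      3 / 97 * G0.card * n ^ 2 / (q : ℝ) ^ 2 + 11 / 25 * n ^ 2 / (10000 * q) := by
    have f1 : 2 * l * (n - 1) ≤ 2 * l * ∑ a, c a := mul_le_mul_of_nonneg_left hc (by positivity)
    have f2 : ((q : ℝ) - G0.card) * (11 / 25 * (n / (100 * q)) ^ 2) ≤ 11 / 25 * n ^ 2 / (10000 * q) := by
      have f3 : ((q : ℝ) - G0.card) * (11 / 25 * (n / (100 * q)) ^ 2) ≤ q * (11 / 25 * (n / (100 * q)) ^ 2) := by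
        apply mul_le_mul_of_nonneg_right _ (by positivity)
        have : (0 : ℝ) ≤ G0.card := Nat.cast_nonneg _
        linarith
      refine f3.trans_eq ?_
      field_simp
      norm_num
    have f4 : n ^ 2 / ((q : ℝ) - 3) = 3 * n ^ 2 / (((q : ℝ) - 3) * q) + n ^ 2 / q := by
      have : (q : ℝ) - 3 ≠ 0 := by linarith
      field_simp
      ring
    have f5 : 2 * l * (n - 1) = 2 * n ^ 2 / q - 2 * n / q := by
      rw [hl]
      field_simp
    have f6 : (q : ℝ) * l ^ 2 = n ^ 2 / q := by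
      rw [hl]
      field_simp
    have f7 : (G0.card : ℝ) * (100 / 97 * l ^ 2) + ((q : ℝ) - G0.card) * l ^ 2 =
        3 / 97 * G0.card * n ^ 2 / (q : ℝ) ^ 2 + n ^ 2 / q := by
      rw [← f6, hl]
      field_simp
      ring
    have f8 : 2 * n ^ 2 / (q : ℝ) = 2 * (n ^ 2 / q) := by ring
    have f9 : 2 * l * (∑ a ∈ G0, c a) + 2 * l * (∑ a ∈ G0ᶜ, c a) = 2 * l * ∑ a, c a := by
      rw [← e4]
      ring
    rw [e1] at h1'
    rw [e2] at h2'
    linarith
  have hII : ∀ τ, 0 ≤ τ → 2 * τ * (∑ a, x a - A) - ((q : ℝ) - G0.card) * τ ^ 2 ≤ P := by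
    intro τ _
    have f1 : ∑ a ∈ G0ᶜ, (2 * τ * x a - τ ^ 2) ≤ P := by
      rw [hP]
      apply sum_le_sum
      intro a _
      nlinarith [sq_nonneg (x a - τ)]
    have f2 : ∑ a ∈ G0ᶜ, (2 * τ * x a - τ ^ 2) = 2 * τ * (∑ a, x a - A) - ((q : ℝ) - G0.card) * τ ^ 2 := by
      rw [sum_sub_distrib, ← mul_sum, sum_const, nsmul_eq_mul, hcard, ← hXsum]
      ring
    linarith
  by_cases hg : 5 ≤ G0.card
  · exact select3_five (g := (G0.card : ℝ)) hq' (by exact_mod_cast hg) hn hsum hII hI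
  · push Not at hg
    refine select3_four hq' G0.card (by omega) hn hsum ?_ hII hI
    have f1 := sum_le_sum (fun a (_ : a ∈ G0) => hxB a)
    rw [sum_const, nsmul_eq_mul] at f1
    exact f1

end Pool.Agent.FKC
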