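import Pool.Agent.FKC.Upper2
import Pool.Agent.FKC.Clique3
import Pool.Agent.FKC.PairStep3
import Pool.Agent.FKC.Select3

/-!
The upper bound for the number of edges of a graph with many vertices which is not `q`-colourable but becomes
`q`-colourable when any edge is deleted, `21 <= q <= 48`: there are at least `n^2 / (q - 3)` ordered pairs of
non-adjacent vertices (the pairs of equal vertices included).
-/

set_option autoImplicit false

namespace Pool.Agent.FKC

open Finset Classical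

variable {V : Type*} [Fintype V]

/-- the main inequality for the number of vertices which are kept -/
theorem size_num {r n s D B t0 : ℝ} (hr : 18 ≤ r) (hr2 : r ≤ 45) (hn : 1000000 ≤ n) (hs : 1 ≤ s) (hsn : s ≤ n)
    (ht0 : t0 = 7 / 20 * (n / r)) (hD : D = s ^ 2 / r - 2 * t0 * (n - s)) (hD0 : 0 < D)
    (hB : B = s / r + (t0 + 1 / 2)) :
    n - 81 / 20 * (n / r) - 4 ≤ s - ((r + 3 - s ^ 2 / D) * B + 1) := by
  have hr0 : (0 : ℝ) < r := by linarith
  obtain ⟨u, hu⟩ : ∃ u, u = n / r := ⟨_, rfl⟩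
  have hnu : n = u * r := by rw [hu]; field_simp
  obtain ⟨d, hd⟩ : ∃ d, d = n - s := ⟨_, rfl⟩
  have hd0 : 0 ≤ d := by rw [hd]; linarith
  obtain ⟨e, he⟩ : ∃ e, e = d / r := ⟨_, rfl⟩
  have hde : d = e * r := by rw [he]; field_simp
  have he0 : 0 ≤ e := by rw [he]; positivity
  have hs' : s = (u - e) * r := by linarith
  have hu0 : 0 < u := by rw [hu]; positivity
  have heu : e ≤ u := by
    have : 0 ≤ (u - e) * r := by rw [← hs']; linarith
    have h2 : 0 ≤ u - e := nonneg_of_mul_nonneg_left this hr0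
    linarith
  have hB' : B = 27 / 20 * u - e + 1 / 2 := by
    rw [hB, ht0, ← hu, hs']
    field_simp
    ring
  have hB0 : 0 ≤ B := by rw [hB']; nlinarith
  have hD' : D = (u - e) ^ 2 * r - 7 / 10 * u * (e * r) := by
    rw [hD, ht0, ← hu, ← hd, hde, hs']
    field_simp
    ring
  obtain ⟨w, hw⟩ : ∃ w, w = s ^ 2 / D := ⟨_, rfl⟩
  have hwD : w * D = s ^ 2 := by rw [hw]; field_simp
  rw [← hu, ← hw]
  -- the product of w - r and D is 7/10 u e r ^ 2
  have h1 : (w - r) * D = 7 / 10 * u * e * r ^ 2 := by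
    rw [sub_mul, hwD, hD', hs']
    ring
  have hwr : 0 ≤ w - r := by
    by_contra hneg
    push Not at hneg
    have h2 : (w - r) * D < 0 := mul_neg_of_neg_of_pos hneg hD0
    have h3 : 0 ≤ 7 / 10 * u * e * r ^ 2 := by positivity
    linarith
  -- n B is at least 27/20 D
  have h2 : 27 / 20 * D ≤ n * B := by
    rw [hD', hB', hnu]
    have h3 : 0 ≤ u * e * r := by positivity
    have h4 : e ^ 2 * r ≤ u * e * r := by
      have : e * e ≤ u * e := mul_le_mul_of_nonneg_right heu he0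
      nlinarith
    have h5 : 0 ≤ u * r := by positivity
    nlinarith
  -- the product of w - r and B is at least 189/200 d
  have h3 : 189 / 200 * d ≤ (w - r) * B := by
    have h4 : (w - r) * (27 / 20 * D) ≤ (w - r) * (n * B) := mul_le_mul_of_nonneg_left h2 hwr
    have h5 : (w - r) * (27 / 20 * D) = 189 / 200 * d * n := by
      have : (w - r) * (27 / 20 * D) = 27 / 20 * ((w - r) * D) := by ring
      rw [this, h1, hde, hnu]
      ring
    rw [h5] at h4
    have h6 : (w - r) * (n * B) = (w - r) * B * n := by ring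
    rw [h6] at h4
    exact le_of_mul_le_mul_right h4 (by linarith)
  have h4 : (r + 3 - w) * B = 3 * B - (w - r) * B := by ring
  rw [h4, hB']
  rw [hB'] at h3
  have h5 : s = n - d := by rw [hd]; ring
  have h6 : d ≤ 45 * e := by
    rw [hde, mul_comm]
    exact mul_le_mul_of_nonneg_right hr2 he0
  rw [h5]
  linarith

omit [Fintype V] in
/-- a proper colouring where the class `none` consists of a given vertex -/
theorem exists_col3 {q : ℕ} (G : SimpleGraph V) (hcrit : ∀ e ∈ G.edgeSet, (G.deleteEdges {e}).Colorable q)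
    {v0 w0 : V} (h : G.Adj v0 w0) :
    ∃ col : V → Option (Fin q), Proper G col ∧ ∀ v, col v = none ↔ v = v0 := by
  obtain ⟨φ⟩ := hcrit s(v0, w0) h
  refine ⟨fun v => if v = v0 then none else some (φ v), ?_, ?_⟩
  · intro v w hvw hadj
    by_cases hv : v = v0
    · by_cases hw : w = v0
      · rw [hv, hw] at hadj
        exact G.irrefl hadj
      · simp [hv, hw] at hvw
    · by_cases hw : w = v0
      · simp [hv, hw] at hvw
      · simp only [hv, hw, if_false, Option.some.injEq] at hvw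
        refine φ.valid (v := v) (w := w) ?_ hvw
        rw [SimpleGraph.deleteEdges_adj]
        refine ⟨hadj, ?_⟩
        simp only [Set.mem_singleton_iff, Sym2.eq_iff]
        rintro (⟨h1, _⟩ | ⟨_, h2⟩)
        · exact hv h1
        · exact hw h2
  · intro v
    by_cases hv : v = v0 <;> simp [hv]

theorem upper3 {q : ℕ} (hq : 21 ≤ q) (hq2 : q ≤ 48) (G : SimpleGraph V) (hV : 1000000 * q ^ 2 ≤ Fintype.card V)
    (hG : ¬ G.Colorable q) (hcrit : ∀ e ∈ G.edgeSet, (G.deleteEdges {e}).Colorable q)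
    (hv : ∀ v, ∃ w, G.Adj v w) :
    (Fintype.card V : ℝ) ^ 2 ≤ (q - 3 : ℝ) * ∑ v, (nn G univ v : ℝ) := by
  by_contra hlt
  push Not at hlt
  have hqR : (21 : ℝ) ≤ q := by exact_mod_cast hq
  have hqR2 : (q : ℝ) ≤ 48 := by exact_mod_cast hq2
  set n : ℝ := (Fintype.card V : ℝ) with hn
  have hVR : 1000000 * (q : ℝ) ^ 2 ≤ n := by
    rw [hn]
    exact_mod_cast hV
  have hr : ((q - 3 : ℕ) : ℝ) = (q : ℝ) - 3 := by
    rw [Nat.cast_sub (by omega)]
    norm_num
  have hn6 : 1000000 ≤ n := by nlinarith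
  have hnpos : 0 < n := by linarith
  have hq3 : (0 : ℝ) < (q : ℝ) - 3 := by linarith
  -- the set `S`
  obtain ⟨t0, ht0⟩ : ∃ t0 : ℝ, t0 = 7 / 20 * (n / ((q : ℝ) - 3)) := ⟨_, rfl⟩
  have ht1 : (1 : ℝ) ≤ t0 := by
    have : (100 : ℝ) ≤ n / ((q : ℝ) - 3) := by
      rw [le_div_iff₀ hq3]
      nlinarith
    rw [ht0]
    linarith
  obtain ⟨S, hS1, hS2⟩ := exists_S2 G (r := q - 3) (by omega) (t := t0 + 1 / 2) (by linarith)
    (by rw [hr]; exact hlt)
  rw [hr] at hS1
  simp only [hr] at hS2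
  obtain ⟨B, hB⟩ : ∃ B : ℝ, B = (S.card : ℝ) / ((q : ℝ) - 3) + (t0 + 1 / 2) := ⟨_, rfl⟩
  have hS3 : ∀ v ∈ S, (nn G S v : ℝ) < B := by rw [hB]; exact hS2
  have hSn : (S.card : ℝ) ≤ n := by
    rw [hn]
    exact_mod_cast Finset.card_le_univ S
  have hB0 : 0 ≤ B := by rw [hB]; positivity
  have hM0 : (0 : ℝ) ≤ ∑ v ∈ S, (nn G S v : ℝ) := by positivity
  obtain ⟨D, hD⟩ : ∃ D : ℝ, D = (S.card : ℝ) ^ 2 / ((q : ℝ) - 3) - 2 * t0 * (n - S.card) := ⟨_, rfl⟩
  have hMD : ∑ v ∈ S, (nn G S v : ℝ) < D := by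
    have h1 : (2 * (t0 + 1 / 2) - 1) * (n - S.card) + ∑ v ∈ S, (nn G S v : ℝ)
        < (S.card : ℝ) ^ 2 / ((q : ℝ) - 3) := by
      rw [lt_div_iff₀ hq3, mul_comm]
      exact hS1
    rw [hD]
    linarith
  have hD0 : 0 < D := lt_of_le_of_lt hM0 hMD
  have hprod : 0 ≤ 2 * t0 * (n - S.card) := mul_nonneg (by linarith) (by linarith)
  have hSpos : 1 ≤ S.card := by
    by_contra h0
    have h0' : S.card = 0 := by omega
    rw [h0'] at hD hprod
    norm_num at hD hprod
    linarith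
  have hSposR : (1 : ℝ) ≤ S.card := by exact_mod_cast hSpos
  -- the clique `Q`
  obtain ⟨r1, hr1⟩ : ∃ r1 : ℝ, r1 = (S.card : ℝ) ^ 2 / D := ⟨_, rfl⟩
  have hr1pos : 0 < r1 := by rw [hr1]; positivity
  have hr1D : r1 * D = (S.card : ℝ) ^ 2 := by rw [hr1]; field_simp
  have hr1M : r1 * ∑ v ∈ S, (nn G S v : ℝ) < (S.card : ℝ) ^ 2 := by
    rw [← hr1D]
    exact mul_lt_mul_of_pos_left hMD hr1pos
  have hrr1 : (q : ℝ) - 3 ≤ r1 := by
    rw [hr1, le_div_iff₀ hD0]
    have h1 : D ≤ (S.card : ℝ) ^ 2 / ((q : ℝ) - 3) := by rw [hD]; linarith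
    rw [le_div_iff₀ hq3] at h1
    linarith
  obtain ⟨Q, hQS, hQc, hQm, hQcard, _, hQsum⟩ := caroWei_clique G S (fun v hv => (hS3 v hv).le) hr1M
  have hQcard' : q ≤ Q.card + 2 := by
    have h1 : (q : ℝ) < Q.card + 3 := by linarith
    have h2 : q < Q.card + 3 := by exact_mod_cast h1
    omega
  -- the exceptional vertex
  obtain ⟨v0, hv0⟩ : ∃ v0, v0 ∉ Q := by
    have hVne : Nonempty V := by
      rw [← Fintype.card_pos_iff]
      have : 0 < 1000000 * q ^ 2 := by positivity
      omega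
    obtain ⟨v1⟩ := hVne
    obtain ⟨w1, hw1⟩ := hv v1
    obtain ⟨col1, hcol1, _⟩ := exists_col3 G hcrit hw1
    have h1 : Q.card ≤ q + 1 := by
      have h2 := Finset.card_image_of_injOn (col_injOn G col1 hcol1 Q hQc)
      rw [← h2]
      refine le_trans (Finset.card_le_univ _) ?_
      rw [Fintype.card_option, Fintype.card_fin]
    by_contra hno
    push Not at hno
    have h2 : Fintype.card V ≤ Q.card := by
      rw [← Finset.card_univ]
      exact Finset.card_le_card (fun v _ => hno v)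
    have h3 : q ≤ q ^ 2 := by nlinarith
    nlinarith
  obtain ⟨w0, hw0⟩ := hv v0
  obtain ⟨col, hcol, hnone⟩ := exists_col3 G hcrit hw0
  have hnone1 : (cl col univ none).card ≤ 1 := by
    have h1 : cl col univ none ⊆ {v0} := by
      intro v hv
      rw [mem_cl] at hv
      exact Finset.mem_singleton.2 ((hnone v).1 hv.2)
    exact le_trans (Finset.card_le_card h1) (by rw [Finset.card_singleton])
  have hQn : ∀ p ∈ Q, col p ≠ none := fun p hp h => hv0 ((hnone p).1 h ▸ hp)
  -- the lost vertices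
  have hLle := lost_le G col hcol hnone1 S Q hQS hQc hQn hQm hS3 hB0 hQsum
  obtain ⟨L, hL⟩ : ∃ L, L = S.filter (fun w => ∃ p ∈ Q, col p ≠ col w ∧ ¬ G.Adj p w) := ⟨_, rfl⟩
  have hL' : (L.card : ℝ) ≤ ((q : ℝ) - r1) * B + 1 := by rw [hL]; convert hLle
  have hLS : L ⊆ S := by rw [hL]; exact Finset.filter_subset _ _
  have hsize := size_num (r := (q : ℝ) - 3) (n := n) (s := (S.card : ℝ)) (D := D) (B := B) (t0 := t0)
    (by linarith) (by linarith) hn6 hSposR hSn ht0 hD hD0 hB
  -- the sets `X a`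
  obtain ⟨X, hX⟩ : ∃ X : Fin q → Finset V, ∀ a, X a = (cl col S (some a)) \ L := ⟨_, fun _ => rfl⟩
  have hXcl : ∀ a, X a ⊆ cl col univ (some a) := by
    intro a v hv
    rw [hX] at hv
    have := mem_cl.1 (Finset.mem_sdiff.1 hv).1
    exact mem_cl.2 ⟨Finset.mem_univ _, this.2⟩
  have hBn : B ≤ 27 / 20 * (n / ((q : ℝ) - 3)) + 1 := by
    have := div_le_div_of_nonneg_right hSn hq3.le
    rw [hB, ht0]
    linarith
  have hXB : ∀ a, ((X a).card : ℝ) ≤ 27 / 20 * (n / ((q : ℝ) - 3)) + 1 := by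
    intro a
    refine le_trans ?_ hBn
    refine le_trans ?_ (cls_card_le (hcol.on S) hB0 (fun v hv => (hS3 v hv).le) (some a))
    rw [hX]
    exact_mod_cast Finset.card_le_card Finset.sdiff_subset
  have hXsum : (S.card : ℝ) - (((q : ℝ) - r1) * B + 1) ≤ ∑ a, ((X a).card : ℝ) := by
    have h1 : S \ L ⊆ univ.biUnion X := by
      intro v hv
      obtain ⟨hvS, hvL⟩ := Finset.mem_sdiff.1 hv
      rcases hc : col v with _ | a
      · exfalso
        apply hvL
        obtain ⟨p, hp, hpv⟩ := hQm v hvS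
        rw [hL, Finset.mem_filter]
        exact ⟨hvS, p, hp, by rw [hc]; exact hQn p hp, hpv⟩
      · rw [Finset.mem_biUnion]
        refine ⟨a, Finset.mem_univ _, ?_⟩
        rw [hX, Finset.mem_sdiff, mem_cl]
        exact ⟨⟨hvS, hc⟩, hvL⟩
    have h2 : S.card ≤ (∑ a, (X a).card) + L.card := by
      have h3 := le_trans (Finset.card_le_card h1) Finset.card_biUnion_le
      have h4 := Finset.card_sdiff_add_card_eq_card hLS
      omega
    have h3 : (S.card : ℝ) ≤ (∑ a, ((X a).card : ℝ)) + L.card := by exact_mod_cast h2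
    linarith
  have hsum : n - 81 / 20 * (n / ((q : ℝ) - 3)) - 4 ≤ ∑ a, ((X a).card : ℝ) := by
    refine le_trans hsize (le_trans (le_of_eq ?_) hXsum)
    rw [hr1]
    ring
  have hc : n - 1 ≤ ∑ a : Fin q, ((cl col univ (some a)).card : ℝ) := by
    have h1 := card_eq_sum_cl col univ
    rw [Fintype.sum_option, Finset.card_univ] at h1
    have h2 : Fintype.card V ≤ 1 + ∑ a : Fin q, (cl col univ (some a)).card := by omega
    have h3 : (Fintype.card V : ℝ) ≤ 1 + ∑ a : Fin q, ((cl col univ (some a)).card : ℝ) := by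
      exact_mod_cast h2
    rw [hn]
    linarith
  have hM : ∑ a : Fin q, ((cl col univ (some a)).card : ℝ) ^ 2 + ∑ a : Fin q, (Ex G col univ (some a) : ℝ)
      ≤ n ^ 2 / ((q : ℝ) - 3) := by
    have h1 := sum_sq_le G col hcol univ
    rw [Fintype.sum_option, Fintype.sum_option] at h1
    have h3 : ∑ v, (nn G univ v : ℝ) ≤ n ^ 2 / ((q : ℝ) - 3) := by
      rw [le_div_iff₀ hq3, mul_comm]
      exact hlt.le
    have h4 : (0 : ℝ) ≤ ((cl col univ none).card : ℝ) ^ 2 := by positivity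
    have h5 : (0 : ℝ) ≤ (Ex G col univ none : ℝ) := Nat.cast_nonneg _
    linarith
  have hmE : ∀ a : Fin q, ∑ b ∈ univ.erase a, (mm G (X a) (X b) : ℝ) ≤ (Ex G col univ (some a) : ℝ) := by
    intro a
    obtain ⟨X', hX'n, hX's⟩ : ∃ X' : Option (Fin q) → Finset V, X' none = ∅ ∧ ∀ a, X' (some a) = X a :=
      ⟨fun o => o.elim ∅ X, rfl, fun _ => rfl⟩
    have hX'cl : ∀ o, X' o ⊆ cl col univ o := by
      intro o
      rcases o with _ | a
      · rw [hX'n]
        exact Finset.empty_subset _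
      · rw [hX's]
        exact hXcl a
    have h1 := sum_mm_le G col univ X' hX'cl (some a)
    have h2 : ∑ b ∈ univ.erase a, mm G (X a) (X b) =
        ∑ o ∈ (univ.erase a).image (some : Fin q → Option (Fin q)), mm G (X' (some a)) (X' o) := by
      rw [Finset.sum_image (fun x _ y _ h => Option.some.inj h)]
      exact Finset.sum_congr rfl (fun b _ => by rw [hX's, hX's])
    have h3 : ∑ b ∈ univ.erase a, mm G (X a) (X b) ≤ Ex G col univ (some a) := by
      rw [h2]
      refine le_trans (Finset.sum_le_sum_of_subset ?_) h1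
      intro o ho
      obtain ⟨b, hb, rfl⟩ := Finset.mem_image.1 ho
      exact (@Finset.mem_erase _ (fun a b => Classical.propDecidable (a = b)) _ _ _).2
        ⟨fun h => (Finset.mem_erase.1 hb).1 (Option.some.inj h), Finset.mem_univ _⟩
    exact_mod_cast h3
  obtain ⟨a, b, hab, hm, hEa, hEb, hxa, hxb⟩ := select3 hq hVR (fun a => ((X a).card : ℝ))
    (fun a => ((cl col univ (some a)).card : ℝ)) (fun a => (Ex G col univ (some a) : ℝ))
    (fun a b => (mm G (X a) (X b) : ℝ)) (fun _ => Nat.cast_nonneg _)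
    (fun a => by exact_mod_cast Finset.card_le_card (hXcl a)) (fun _ => Nat.cast_nonneg _)
    (fun _ _ => Nat.cast_nonneg _) hmE hc hM hXB hsum
  have hbig : ∀ a, n / (100 * q) ≤ ((X a).card : ℝ) → 10000 ≤ (X a).card := by
    intro a h
    have h1 : (10000 : ℝ) ≤ n / (100 * q) := by
      rw [le_div_iff₀ (by positivity)]
      nlinarith
    have : (10000 : ℝ) ≤ ((X a).card : ℝ) := le_trans h1 h
    exact_mod_cast this
  have hadj : ∀ a, ∀ v ∈ X a, ∀ p ∈ Q, col p ≠ some a → G.Adj v p := by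
    intro a v hv p hp hpa
    rw [hX] at hv
    obtain ⟨hv1, hv2⟩ := Finset.mem_sdiff.1 hv
    obtain ⟨hvS, hva⟩ := mem_cl.1 hv1
    by_contra hno
    apply hv2
    rw [hL, Finset.mem_filter]
    exact ⟨hvS, p, hp, by rw [hva]; exact hpa, fun h => hno h.symm⟩
  exact pair_step3 (by omega) G hG hcrit col hcol Q (X a) (X b) (some a) (some b)
    (fun h => hab (Option.some.inj h)) (fun v hv => (mem_cl.1 (hXcl a hv)).2)
    (fun v hv => (mem_cl.1 (hXcl b hv)).2) hQc hQcard' (hadj a) (hadj b) (hbig a hxa) (hbig b hxb) hm hEa hEb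

end Pool.Agent.FKC
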