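import Pool.Agent.FKC.Limit
import Pool.Agent.FKC.Upper2
import Pool.Agent.FKC.Upper3
import Pool.Agent.FKL.LowF
import Pool.Agent.FC14.CompLim

/-!
# The limit of `F_k(n) / n ^ 2` for `k ≥ 22`
-/

set_option autoImplicit false

namespace Pool.Agent.FKC

open SimpleGraph Finset Classical

/-- counting the pairs of non-adjacent vertices -/
theorem sum_nn_eq_edges {n : ℕ} (G : SimpleGraph (Fin n)) :
    (∑ v, (nn G univ v : ℝ)) + 2 * (Nat.card G.edgeSet : ℝ) = (n : ℝ) ^ 2 := by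
  have h1 : ∀ v : Fin n, nn G univ v + G.degree v = n := by
    intro v
    have h2 : G.degree v = (univ.filter fun w => G.Adj v w).card := by
      rw [← SimpleGraph.card_neighborFinset_eq_degree]
      congr 1
      ext w
      simp
    rw [h2]
    show (univ.filter fun w => ¬ G.Adj v w).card + (univ.filter fun w => G.Adj v w).card = n
    rw [add_comm, Finset.card_filter_add_card_filter_not, Finset.card_univ, Fintype.card_fin]
  have h3 : ∑ v, (nn G univ v + G.degree v) = n * n := by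
    rw [Finset.sum_congr rfl fun v _ => h1 v, Finset.sum_const, Finset.card_univ, Fintype.card_fin,
      smul_eq_mul]
  rw [Finset.sum_add_distrib, G.sum_degrees_eq_twice_card_edges] at h3
  have h4 : Nat.card G.edgeSet = G.edgeFinset.card := by
    rw [Nat.card_eq_fintype_card, SimpleGraph.edgeFinset_card]
  rw [h4]
  have h5 : ((∑ v, nn G univ v : ℕ) : ℝ) + 2 * (G.edgeFinset.card : ℝ) = (n : ℝ) * n := by
    exact_mod_cast h3
  push_cast at h5
  rw [h5]
  ring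

/-- **The upper bound**: a critical graph with at least `10 ^ 6 (k - 1) ^ 2` vertices. -/
theorem upper_edges {q : ℕ} (hq : 21 ≤ q) {n : ℕ} (hn : 1000000 * q ^ 2 ≤ n) (G : SimpleGraph (Fin n))
    (hG : FC14.FC q G) :
    2 * (Nat.card G.edgeSet : ℝ) ≤ (1 - 1 / ((q : ℝ) - 3)) * (n : ℝ) ^ 2 := by
  have h1 : (Fintype.card (Fin n) : ℝ) ^ 2 ≤ (q - 3 : ℝ) * ∑ v, (nn G univ v : ℝ) := by
    rcases le_or_gt q 48 with h48 | h48
    · exact upper3 hq h48 G (by rw [Fintype.card_fin]; exact hn) hG.1 hG.2.1 hG.2.2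
    · exact upper2 h48 G (by rw [Fintype.card_fin]; exact hn) hG.1 hG.2.1 hG.2.2
  rw [Fintype.card_fin] at h1
  have h2 := sum_nn_eq_edges G
  have hq' : (21 : ℝ) ≤ q := by exact_mod_cast hq
  have h3 : (0 : ℝ) < (q : ℝ) - 3 := by linarith
  have h4 : (n : ℝ) ^ 2 / ((q : ℝ) - 3) ≤ ∑ v, (nn G univ v : ℝ) := by
    rw [div_le_iff₀ h3, mul_comm]
    exact h1
  have h5 : (1 - 1 / ((q : ℝ) - 3)) * (n : ℝ) ^ 2 = (n : ℝ) ^ 2 - (n : ℝ) ^ 2 / ((q : ℝ) - 3) := by
    ring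
  rw [h5]
  linarith

/-- **The limit** for `k ≥ 22`. -/
theorem limit (k : ℕ) (hk : 22 ≤ k) :
    Filter.Tendsto (fun n : ℕ => (FC14.F k n : ℝ) / (n : ℝ) ^ 2) Filter.atTop
      (nhds (1 / 2 * (1 - 1 / ((k : ℝ) - 4)))) := by
  obtain ⟨q, rfl⟩ : ∃ q, k = q + 1 := ⟨k - 1, by omega⟩
  have hq : 21 ≤ q := by omega
  have hq' : (21 : ℝ) ≤ q := by exact_mod_cast hq
  have he : (((q + 1 : ℕ) : ℝ) - 4) = (q : ℝ) - 3 := by
    push_cast
    ring
  refine tendsto_of_bounds q _ (FKL.fk_lower (q + 1) (by omega)) ?_ ?_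
  · intro ε hε
    refine ⟨1000000 * q ^ 2, fun n hn G hG => ?_⟩
    have h1 := upper_edges hq hn G hG
    rw [he]
    have h2 : (G.edgeSet.ncard : ℝ) = (Nat.card G.edgeSet : ℝ) := rfl
    rw [h2]
    have h3 : 0 ≤ ε * (n : ℝ) ^ 2 := by positivity
    have h4 : (2 * (1 / 2 * (1 - 1 / ((q : ℝ) - 3))) + ε) * (n : ℝ) ^ 2 =
        (1 - 1 / ((q : ℝ) - 3)) * (n : ℝ) ^ 2 + ε * (n : ℝ) ^ 2 := by ring
    rw [h4]
    linarith
  · rw [he]
    have h3 : (0 : ℝ) < (q : ℝ) - 3 := by linarith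
    have h4 : 1 / ((q : ℝ) - 3) ≤ 1 := by
      rw [div_le_one h3]
      linarith
    linarith

end Pool.Agent.FKC
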