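import Pool.Agent.FC14.Exist

/-!
# From the two bounds to the limit

`F k n` is the largest number of edges of a `k`-critical graph with exactly `n` vertices.
-/

set_option autoImplicit false

namespace Pool.Agent.FKC

open SimpleGraph Filter FC14

/-- The limit from the two bounds (`k = q + 1`). -/
theorem tendsto_of_bounds (q : ℕ) (L : ℝ)
    (hlow : ∀ ε : ℝ, 0 < ε → ∃ n₀ : ℕ, ∀ n : ℕ, n₀ ≤ n → (L - ε) * (n : ℝ) ^ 2 ≤ F (q + 1) n)
    (hup : ∀ ε : ℝ, 0 < ε → ∃ n₀ : ℕ, ∀ n : ℕ, n₀ ≤ n → ∀ G : SimpleGraph (Fin n), FC q G →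
      2 * (G.edgeSet.ncard : ℝ) ≤ (2 * L + ε) * (n : ℝ) ^ 2) (hL : 0 ≤ L) :
    Tendsto (fun n : ℕ => (F (q + 1) n : ℝ) / (n : ℝ) ^ 2) atTop (nhds L) := by
  rw [Metric.tendsto_atTop]
  intro ε hε
  obtain ⟨n₁, h1⟩ := hlow (ε / 2) (by linarith)
  obtain ⟨n₂, h2⟩ := hup ε hε
  refine ⟨max 1 (max n₁ n₂), fun n hn => ?_⟩
  have hn1 : 1 ≤ n := le_trans (le_max_left _ _) hn
  have hn2 : n₁ ≤ n := le_trans (le_trans (le_max_left _ _) (le_max_right _ _)) hn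
  have hn3 : n₂ ≤ n := le_trans (le_trans (le_max_right _ _) (le_max_right _ _)) hn
  have hpos : (0 : ℝ) < (n : ℝ) ^ 2 := by
    have : (0 : ℝ) < n := by exact_mod_cast hn1
    positivity
  have hlo := h1 n hn2
  have hhi : (F (q + 1) n : ℝ) ≤ (L + ε / 2) * (n : ℝ) ^ 2 := by
    rcases Nat.eq_zero_or_pos (F (q + 1) n) with h3 | h3
    · rw [h3, Nat.cast_zero]
      positivity
    · obtain ⟨G, hG, hGe⟩ := exists_of_F_pos h3
      have h4 := h2 n hn3 G hG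
      rw [hGe] at h4
      linarith
  rw [Real.dist_eq, abs_lt]
  constructor
  · have h5 : L - ε / 2 ≤ (F (q + 1) n : ℝ) / (n : ℝ) ^ 2 := by
      rw [le_div_iff₀ hpos]
      exact hlo
    linarith
  · have h5 : (F (q + 1) n : ℝ) / (n : ℝ) ^ 2 ≤ L + ε / 2 := by
      rw [div_le_iff₀ hpos]
      exact hhi
    linarith

end Pool.Agent.FKC
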