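import Pool.Agent.FKC.Defs
import Pool.Agent.FKC.Classes

/-!
The choice of a minimal set with few non-adjacent pairs.
-/

namespace Pool.Agent.FKC

open Finset Classical

variable {V ι : Type*} [Fintype V]

omit [Fintype V] in
/-- the sum of the numbers of non-neighbours after the removal of a vertex -/
theorem minS_erase (G : SimpleGraph V) {S : Finset V} {v : V} (hv : v ∈ S) :
    ∑ w ∈ S.erase v, nn G (S.erase v) w + 2 * nn G S v = ∑ w ∈ S, nn G S w + 1 := by
  have h1 : ∀ w ∈ S.erase v, nn G S w = nn G (S.erase v) w + if ¬ G.Adj w v then 1 else 0 := by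
    intro w _
    unfold nn
    conv_lhs => rw [← Finset.insert_erase hv, Finset.filter_insert]
    by_cases h : G.Adj w v
    · simp [h]
    · rw [if_pos h, if_pos h, Finset.card_insert_of_notMem]
      intro hmem
      exact (Finset.notMem_erase v S) (Finset.mem_filter.1 hmem).1
  have h2 : ∑ w ∈ S.erase v, (if ¬ G.Adj w v then 1 else 0) + 1 = nn G S v := by
    rw [← Finset.card_filter]
    unfold nn
    have e : (S.filter fun w => ¬ G.Adj v w) =
        insert v ((S.erase v).filter fun w => ¬ G.Adj w v) := by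
      ext w
      simp only [Finset.mem_filter, Finset.mem_insert, Finset.mem_erase]
      constructor
      · rintro ⟨hw, hvw⟩
        by_cases hwv : w = v
        · exact Or.inl hwv
        · exact Or.inr ⟨⟨hwv, hw⟩, fun h => hvw h.symm⟩
      · rintro (rfl | ⟨⟨_, hw⟩, hvw⟩)
        · exact ⟨hv, G.irrefl⟩
        · exact ⟨hw, fun h => hvw h.symm⟩
    rw [e, Finset.card_insert_of_notMem]
    intro hmem
    exact (Finset.notMem_erase v S) (Finset.mem_filter.1 hmem).1
  have h3 : ∑ w ∈ S, nn G S w = nn G S v + ∑ w ∈ S.erase v, nn G S w :=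
    (Finset.add_sum_erase S (fun w => nn G S w) hv).symm
  rw [h3, Finset.sum_congr rfl h1, Finset.sum_add_distrib]
  omega

omit [Fintype V] in
/-- a vertex with many non-neighbours can be removed -/
theorem minS_step (G : SimpleGraph V) {S : Finset V} {v : V} (hv : v ∈ S) {r : ℕ} (hr : 0 < r)
    (hS : r * ∑ w ∈ S, nn G S w < S.card ^ 2) (hnn : (S.card : ℝ) / r + 1 / 2 ≤ nn G S v) :
    r * ∑ w ∈ S.erase v, nn G (S.erase v) w < (S.erase v).card ^ 2 := by
  have h1 := minS_erase G hv
  have hc : (S.erase v).card + 1 = S.card := Finset.card_erase_add_one hv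
  have hr' : (0 : ℝ) < r := by exact_mod_cast hr
  have h2 : (S.card : ℝ) + r / 2 ≤ r * nn G S v := by
    have := mul_le_mul_of_nonneg_left hnn hr'.le
    have e : (r : ℝ) * ((S.card : ℝ) / r + 1 / 2) = S.card + r / 2 := by
      field_simp
    linarith
  have h2' : 2 * S.card + r ≤ 2 * (r * nn G S v) := by
    have : (2 : ℝ) * S.card + r ≤ 2 * (r * nn G S v) := by linarith
    exact_mod_cast this
  have h3 : r * ∑ w ∈ S.erase v, nn G (S.erase v) w + 2 * (r * nn G S v) =
      r * ∑ w ∈ S, nn G S w + r := by
    have := congrArg (fun x => r * x) h1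
    simp only [mul_add, mul_one] at this
    rw [← this]
    ring
  rw [← hc] at hS h2'
  have h4 : ((S.erase v).card + 1) ^ 2 = (S.erase v).card ^ 2 + 2 * (S.erase v).card + 1 := by ring
  rw [h4] at hS
  omega

theorem exists_S [Fintype ι] (G : SimpleGraph V) (col : V → ι) (hcol : Proper G col) {r : ℕ} (hr : 0 < r)
    (good : Finset ι) {t b : ℝ} (ht : 0 < t) (h0 : r * ∑ v, nn G univ v < Fintype.card V ^ 2)
    (hgood : ∀ a ∈ good, (Fintype.card V : ℝ) / r + 1 / 2 ≤ (cl col univ a).card - (Ex G col univ a : ℝ) / t + t)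
    (hb : (Fintype.card V : ℝ) / r + 1 / 2 ≤ b) :
    ∃ S : Finset V, r * ∑ v ∈ S, nn G S v < S.card ^ 2 ∧
      (∀ a ∈ good, t * (((cl col univ a).card : ℝ) - (cl col S a).card) ≤ Ex G col univ a) ∧
      (∀ v ∈ S, col v ∈ good → (ex G col S v : ℝ) < t) ∧
      (∀ v ∈ S, col v ∉ good → (nn G S v : ℝ) < b) := by
  have hr' : (0 : ℝ) < r := by exact_mod_cast hr
  -- minimal set
  let P : Finset V → Prop := fun S => r * ∑ v ∈ S, nn G S v < S.card ^ 2 ∧
    ∀ v, v ∉ S → col v ∈ good → t ≤ ex G col univ v
  have hP0 : P univ := ⟨by simpa using h0, fun v hv => absurd (mem_univ v) hv⟩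
  obtain ⟨S, hSP, hSmin⟩ := Finset.exists_min_image ((univ : Finset (Finset V)).filter P)
    Finset.card ⟨univ, by simpa using hP0⟩
  have hS : P S := (Finset.mem_filter.1 hSP).2
  have hmin : ∀ v ∈ S, ¬ P (S.erase v) := by
    intro v hv hP
    have := hSmin (S.erase v) (by simpa using hP)
    have h2 : (S.erase v).card + 1 = S.card := Finset.card_erase_add_one hv
    omega
  have hcard : (S.card : ℝ) / r ≤ (Fintype.card V : ℝ) / r := by
    have : (S.card : ℝ) ≤ Fintype.card V := by exact_mod_cast Finset.card_le_univ S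
    gcongr
  -- the lost vertices of the good classes
  have hlost : ∀ a ∈ good, t * (((cl col univ a).card : ℝ) - (cl col S a).card) ≤ Ex G col univ a := by
    intro a ha
    have hsub : cl col S a ⊆ cl col univ a := by
      intro v hv
      rw [mem_cl] at hv ⊢
      exact ⟨mem_univ v, hv.2⟩
    have h1 : (((cl col univ a) \ (cl col S a)).card : ℝ) =
        ((cl col univ a).card : ℝ) - (cl col S a).card := by
      rw [Finset.card_sdiff_of_subset hsub, Nat.cast_sub (Finset.card_le_card hsub)]
    rw [← h1]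
    calc t * (((cl col univ a) \ (cl col S a)).card : ℝ)
        = ∑ v ∈ (cl col univ a) \ (cl col S a), t := by
          rw [Finset.sum_const, nsmul_eq_mul, mul_comm]
      _ ≤ ∑ v ∈ (cl col univ a) \ (cl col S a), (ex G col univ v : ℝ) := by
          refine Finset.sum_le_sum fun v hv => ?_
          rw [Finset.mem_sdiff, mem_cl, mem_cl] at hv
          refine hS.2 v (fun hvS => hv.2 ⟨hvS, hv.1.2⟩) ?_
          rw [hv.1.2]
          exact ha
      _ ≤ ∑ v ∈ cl col univ a, (ex G col univ v : ℝ) :=
          Finset.sum_le_sum_of_subset_of_nonneg Finset.sdiff_subset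
            (fun _ _ _ => Nat.cast_nonneg _)
      _ = Ex G col univ a := by
          unfold Ex
          push_cast
          rfl
  have hexmono : ∀ v, ex G col S v ≤ ex G col univ v := by
    intro v
    unfold ex
    refine Finset.card_le_card ?_
    intro w hw
    rw [Finset.mem_filter] at hw ⊢
    exact ⟨mem_univ w, hw.2⟩
  refine ⟨S, hS.1, hlost, ?_, ?_⟩
  · intro v hv hg
    by_contra hcon
    push Not at hcon
    apply hmin v hv
    refine ⟨minS_step G hv hr hS.1 ?_, ?_⟩
    · rw [nn_eq (hcol.on S) hv]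
      push_cast
      have h1 := hgood _ hg
      have h2 := hlost _ hg
      have h3 : ((cl col univ (col v)).card : ℝ) - (cl col S (col v)).card ≤
          (Ex G col univ (col v) : ℝ) / t := by
        rw [le_div_iff₀ ht]
        linarith
      linarith
    · intro w hw hwg
      by_cases hwv : w = v
      · subst hwv
        exact hcon.trans (by exact_mod_cast hexmono w)
      · exact hS.2 w (fun hwS => hw (Finset.mem_erase.2 ⟨hwv, hwS⟩)) hwg
  · intro v hv hg
    by_contra hcon
    push Not at hcon
    apply hmin v hv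
    refine ⟨minS_step G hv hr hS.1 (by linarith), ?_⟩
    intro w hw hwg
    by_cases hwv : w = v
    · subst hwv
      exact absurd hwg hg
    · exact hS.2 w (fun hwS => hw (Finset.mem_erase.2 ⟨hwv, hwS⟩)) hwg

end Pool.Agent.FKC
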