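import Pool.Agent.FKC.Defs

/-!
Choice of two good colour classes which meet a clique and lose few vertices.
-/

namespace Pool.Agent.FKC

open Finset Classical

variable {V ι : Type*} [Fintype V]

/-- a proper colouring is injective on a clique -/
theorem col_inj_on_clique {G : SimpleGraph V} {col : V → ι} (hcol : Proper G col) {Q : Finset V}
    (hQ : G.IsClique (Q : Set V)) {p q : V} (hp : p ∈ Q) (hq : q ∈ Q) (h : col p = col q) : p = q := by
  by_contra hne
  exact hcol p q h (hQ hp hq hne)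

/-- for a fixed vertex `v` of the clique, the non-neighbours in the classes of the other vertices of the clique -/
theorem sum_miss_le {G : SimpleGraph V} {col : V → ι} (hcol : Proper G col) {S Q : Finset V}
    (hQ : G.IsClique (Q : Set V)) {v : V} (hv : v ∈ Q) :
    ∑ p ∈ Q.erase v, ((cl col S (col p)).filter fun w => ¬ G.Adj v w).card ≤ ex G col S v := by
  unfold ex
  rw [← Finset.card_biUnion]
  · refine Finset.card_le_card ?_
    intro w hw
    rw [Finset.mem_biUnion] at hw
    obtain ⟨p, hp, hw⟩ := hw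
    simp only [cl, Finset.mem_filter, Finset.mem_erase] at hw hp ⊢
    refine ⟨hw.1.1, ?_, hw.2⟩
    rw [hw.1.2]
    exact fun hh => hp.1 (col_inj_on_clique hcol hQ hp.2 hv hh)
  · intro p hp q hq hpq
    have hp' := (Finset.mem_erase.1 hp).2
    have hq' := (Finset.mem_erase.1 hq).2
    refine Finset.disjoint_left.2 ?_
    intro w hw1 hw2
    simp only [cl, Finset.mem_filter] at hw1 hw2
    exact hpq (col_inj_on_clique hcol hQ hp' hq' (hw1.1.2.symm.trans hw2.1.2))

/-- the vertices of the class of `p` lost because of some other vertex of the clique -/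
noncomputable def lost (G : SimpleGraph V) (col : V → ι) (S Q : Finset V) (p : V) : ℕ :=
  ((cl col S (col p)).filter fun w => ∃ v ∈ Q, v ≠ p ∧ ¬ G.Adj v w).card

theorem lost_le (G : SimpleGraph V) (col : V → ι) (S Q : Finset V) (p : V) :
    lost G col S Q p ≤ ∑ v ∈ Q.erase p, ((cl col S (col p)).filter fun w => ¬ G.Adj v w).card := by
  unfold lost
  refine le_trans (Finset.card_le_card ?_) (Finset.card_biUnion_le)
  intro w hw
  rw [Finset.mem_filter] at hw
  obtain ⟨hw1, v, hv, hvp, hvw⟩ := hw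
  rw [Finset.mem_biUnion]
  exact ⟨v, Finset.mem_erase.2 ⟨hvp, hv⟩, Finset.mem_filter.2 ⟨hw1, hvw⟩⟩

theorem sum_lost_le {G : SimpleGraph V} {col : V → ι} (hcol : Proper G col) {S Q : Finset V}
    (hQ : G.IsClique (Q : Set V)) : ∑ p ∈ Q, lost G col S Q p ≤ ∑ v ∈ Q, ex G col S v := by
  calc ∑ p ∈ Q, lost G col S Q p
      ≤ ∑ p ∈ Q, ∑ v ∈ Q.erase p, ((cl col S (col p)).filter fun w => ¬ G.Adj v w).card :=
        Finset.sum_le_sum (fun p _ => lost_le G col S Q p)
    _ = ∑ v ∈ Q, ∑ p ∈ Q.erase v, ((cl col S (col p)).filter fun w => ¬ G.Adj v w).card := by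
        refine Finset.sum_comm' ?_
        intro p v
        simp only [Finset.mem_erase]
        tauto
    _ ≤ ∑ v ∈ Q, ex G col S v := Finset.sum_le_sum (fun v hv => sum_miss_le hcol hQ hv)

theorem exists_pair [Fintype ι] (G : SimpleGraph V) (col : V → ι) (hcol : Proper G col) (good : Finset ι)
    {S Q : Finset V} (hQS : Q ⊆ S) (hQ : G.IsClique (Q : Set V)) {t b L : ℝ} (ht : 0 ≤ t) (hb : 0 ≤ b) (hL : 0 < L)
    (hex : ∀ v ∈ S, col v ∈ good → (ex G col S v : ℝ) < t) (hnn : ∀ v ∈ S, col v ∉ good → (nn G S v : ℝ) < b)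
    (hnum : (Q.card : ℝ) * t + (goodᶜ.card : ℝ) * b < L * ((Q.card : ℝ) - goodᶜ.card - 1)) :
    ∃ p ∈ Q, ∃ q ∈ Q, p ≠ q ∧ col p ∈ good ∧ col q ∈ good ∧ col p ≠ col q ∧
      (((cl col S (col p)).filter fun w => ∃ v ∈ Q, v ≠ p ∧ ¬ G.Adj v w).card : ℝ) ≤ L ∧
      (((cl col S (col q)).filter fun w => ∃ v ∈ Q, v ≠ q ∧ ¬ G.Adj v w).card : ℝ) ≤ L := by
  by_contra hno
  -- the good and bad vertices of the clique
  set Qg := Q.filter (fun v => col v ∈ good) with hQg
  set Qb := Q.filter (fun v => ¬ col v ∈ good) with hQb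
  have hcard : Qg.card + Qb.card = Q.card := Finset.card_filter_add_card_filter_not _
  have hbad : Qb.card ≤ goodᶜ.card := by
    refine Finset.card_le_card_of_injOn col ?_ ?_
    · intro v hv
      have hv' := (Finset.mem_filter.1 (Finset.mem_coe.1 hv)).2
      exact Finset.mem_coe.2 (Finset.mem_compl.2 hv')
    · intro v hv w hw hvw
      exact col_inj_on_clique hcol hQ (Finset.mem_filter.1 (Finset.mem_coe.1 hv)).1
        (Finset.mem_filter.1 (Finset.mem_coe.1 hw)).1 hvw
  -- the upper bound of the sum of losses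
  have hup : (∑ p ∈ Qg, (lost G col S Q p : ℝ)) ≤ (Q.card : ℝ) * t + (goodᶜ.card : ℝ) * b := by
    have h1 : (∑ p ∈ Qg, (lost G col S Q p : ℝ)) ≤ ∑ p ∈ Q, (lost G col S Q p : ℝ) :=
      Finset.sum_le_sum_of_subset_of_nonneg (Finset.filter_subset _ _) (fun _ _ _ => Nat.cast_nonneg _)
    have h2 : (∑ p ∈ Q, (lost G col S Q p : ℝ)) ≤ ∑ v ∈ Q, (ex G col S v : ℝ) := by
      exact_mod_cast sum_lost_le (S := S) hcol hQ
    have h3 : ∑ v ∈ Q, (ex G col S v : ℝ) = ∑ v ∈ Qg, (ex G col S v : ℝ) + ∑ v ∈ Qb, (ex G col S v : ℝ) :=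
      (Finset.sum_filter_add_sum_filter_not Q _ _).symm
    have h4 : ∑ v ∈ Qg, (ex G col S v : ℝ) ≤ Qg.card * t := by
      rw [← nsmul_eq_mul]
      refine Finset.sum_le_card_nsmul _ _ _ (fun v hv => ?_)
      have hv' := Finset.mem_filter.1 hv
      exact (hex v (hQS hv'.1) hv'.2).le
    have h5 : ∑ v ∈ Qb, (ex G col S v : ℝ) ≤ Qb.card * b := by
      rw [← nsmul_eq_mul]
      refine Finset.sum_le_card_nsmul _ _ _ (fun v hv => ?_)
      have hv' := Finset.mem_filter.1 hv
      refine le_trans ?_ (hnn v (hQS hv'.1) hv'.2).le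
      have : ex G col S v ≤ nn G S v := by
        unfold ex nn
        refine Finset.card_le_card ?_
        intro w hw
        rw [Finset.mem_filter] at hw ⊢
        exact ⟨hw.1, hw.2.2⟩
      exact_mod_cast this
    have h6 : (Qg.card : ℝ) * t ≤ Q.card * t := by
      refine mul_le_mul_of_nonneg_right ?_ ht
      exact_mod_cast Finset.card_filter_le _ _
    have h7 : (Qb.card : ℝ) * b ≤ goodᶜ.card * b := by
      refine mul_le_mul_of_nonneg_right ?_ hb
      exact_mod_cast hbad
    linarith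
  -- the lower bound
  have hlow : L * ((Qg.card : ℝ) - 1) ≤ ∑ p ∈ Qg, (lost G col S Q p : ℝ) := by
    by_cases hex1 : ∃ p ∈ Qg, (lost G col S Q p : ℝ) ≤ L
    · obtain ⟨p, hp, hpL⟩ := hex1
      have hp' := Finset.mem_filter.1 hp
      have hrest : ∀ q ∈ Qg.erase p, L ≤ (lost G col S Q q : ℝ) := by
        intro q hq
        by_contra hlt
        push Not at hlt
        have hq1 := Finset.mem_erase.1 hq
        have hq' := Finset.mem_filter.1 hq1.2
        refine hno ⟨p, hp'.1, q, hq'.1, fun h => hq1.1 h.symm, hp'.2, hq'.2, ?_, hpL, hlt.le⟩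
        exact fun hh => hq1.1 (col_inj_on_clique hcol hQ hp'.1 hq'.1 hh).symm
      have h1 : ((Qg.erase p).card : ℝ) * L ≤ ∑ q ∈ Qg.erase p, (lost G col S Q q : ℝ) := by
        rw [← nsmul_eq_mul]
        exact Finset.card_nsmul_le_sum _ _ _ hrest
      have h2 : ((Qg.erase p).card : ℝ) = Qg.card - 1 := by
        rw [Finset.card_erase_of_mem hp, Nat.cast_sub, Nat.cast_one]
        exact Finset.card_pos.2 ⟨p, hp⟩
      have h3 : ∑ q ∈ Qg.erase p, (lost G col S Q q : ℝ) ≤ ∑ q ∈ Qg, (lost G col S Q q : ℝ) :=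
        Finset.sum_le_sum_of_subset_of_nonneg (Finset.erase_subset _ _) (fun _ _ _ => Nat.cast_nonneg _)
      rw [h2] at h1
      linarith
    · push Not at hex1
      have h1 : (Qg.card : ℝ) * L ≤ ∑ q ∈ Qg, (lost G col S Q q : ℝ) := by
        rw [← nsmul_eq_mul]
        exact Finset.card_nsmul_le_sum _ _ _ (fun q hq => (hex1 q hq).le)
      linarith
  have hQgc : (Q.card : ℝ) - goodᶜ.card ≤ Qg.card := by
    have : Q.card ≤ Qg.card + goodᶜ.card := by omega
    have h : (Q.card : ℝ) ≤ Qg.card + goodᶜ.card := by exact_mod_cast this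
    linarith
  have : L * ((Q.card : ℝ) - goodᶜ.card - 1) ≤ L * ((Qg.card : ℝ) - 1) :=
    mul_le_mul_of_nonneg_left (by linarith) hL.le
  linarith

end Pool.Agent.FKC
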