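import Mathlib

/-!
The selection of two colour classes (a pure inequality).
-/

namespace Pool.Agent.FKC

open Finset Classical

/-- Selection of two classes, general constants. -/
theorem select_pair_gen {ι : Type*} [Fintype ι] (x E : ι → ℝ) (m : ι → ι → ℝ)
    {n ξ B ρ δ ε κ : ℝ} (hn : 0 < n) (hρ : 0 ≤ ρ) (hδ : 0 ≤ δ) (hcard : 0 < Fintype.card ι)
    (hx0 : ∀ a, 0 ≤ x a) (hxB : ∀ a, x a ≤ B * n) (hsum : ξ * n ≤ ∑ a, x a)
    (hE0 : ∀ a, 0 ≤ E a) (hm0 : ∀ a b, 0 ≤ m a b)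
    (hm : ∀ a, ∑ b ∈ univ.erase a, m a b ≤ E a) (hE : ∑ a, E a ≤ κ * n ^ 2)
    (hnum : ∀ α : ℝ, 0 ≤ α → κ + Fintype.card ι * (ρ * ε ^ 2) <
      ρ / Fintype.card ι * (max (ξ - α) 0) ^ 2 + δ * α ^ 2 - δ * B * α) :
    ∃ a b, a ≠ b ∧ m a b ≤ δ * (x a * x b) ∧ E a ≤ ρ * x a ^ 2 ∧ E b ≤ ρ * x b ^ 2 ∧
      ε * n ≤ x a ∧ ε * n ≤ x b := by
  by_contra hcon
  push Not at hcon
  set q : ℝ := (Fintype.card ι : ℝ) with hq
  have hq0 : 0 < q := by rw [hq]; exact_mod_cast hcard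
  set P : Finset ι := univ.filter fun a => E a ≤ ρ * x a ^ 2 ∧ ε * n ≤ x a with hP
  set A : ℝ := ∑ a ∈ P, x a with hA
  have hA0 : 0 ≤ A := sum_nonneg fun a _ => hx0 a
  -- the bad classes
  have h1 : ∀ a ∈ Pᶜ, ρ * x a ^ 2 - ρ * (ε * n) ^ 2 ≤ E a := by
    intro a ha
    rw [mem_compl, hP, mem_filter] at ha
    push Not at ha
    have ha' := ha (mem_univ a)
    by_cases h : E a ≤ ρ * x a ^ 2
    · have h2 := ha' h
      have h3 : x a ^ 2 ≤ (ε * n) ^ 2 := pow_le_pow_left₀ (hx0 a) h2.le 2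
      have h4 := mul_le_mul_of_nonneg_left h3 hρ
      have h5 := hE0 a
      linarith
    · push Not at h
      have : 0 ≤ ρ * (ε * n) ^ 2 := by positivity
      linarith
  -- the good classes
  have h2 : ∀ a ∈ P, δ * (x a * (A - x a)) ≤ E a := by
    intro a ha
    have hle : ∑ b ∈ P.erase a, δ * (x a * x b) ≤ ∑ b ∈ P.erase a, m a b := by
      refine sum_le_sum fun b hb => ?_
      rw [mem_erase] at hb
      by_contra hlt
      push Not at hlt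
      have ha2 := (mem_filter.1 ha).2
      have hb2 := (mem_filter.1 hb.2).2
      have := hcon a b (Ne.symm hb.1) hlt.le ha2.1 hb2.1 ha2.2
      linarith [hb2.2]
    have hle2 : ∑ b ∈ P.erase a, m a b ≤ ∑ b ∈ univ.erase a, m a b :=
      sum_le_sum_of_subset_of_nonneg (erase_subset_erase _ (subset_univ _)) fun b _ _ => hm0 a b
    have hle3 := hm a
    have hs : ∑ b ∈ P.erase a, δ * (x a * x b) = δ * (x a * (A - x a)) := by
      rw [← mul_sum, ← mul_sum, hA]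
      congr 2
      rw [← sum_erase_add P x ha]
      ring
    linarith
  have h3 : ∑ a ∈ P, δ * (x a * (A - x a)) ≥ δ * (A ^ 2 - B * n * A) := by
    rw [← mul_sum]
    refine mul_le_mul_of_nonneg_left ?_ hδ
    have : ∑ a ∈ P, x a * (A - x a) ≥ ∑ a ∈ P, x a * (A - B * n) :=
      sum_le_sum fun a _ => mul_le_mul_of_nonneg_left (by linarith [hxB a]) (hx0 a)
    rw [← sum_mul, ← hA] at this
    nlinarith
  have h4 : ∑ a ∈ Pᶜ, (ρ * x a ^ 2 - ρ * (ε * n) ^ 2) ≥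
      ρ / q * (max (ξ * n - A) 0) ^ 2 - q * (ρ * (ε * n) ^ 2) := by
    rw [sum_sub_distrib, ← mul_sum, sum_const, nsmul_eq_mul]
    have hc : ((Pᶜ).card : ℝ) ≤ q := by
      rw [hq]; exact_mod_cast card_le_univ _
    have hc2 : ((Pᶜ).card : ℝ) * (ρ * (ε * n) ^ 2) ≤ q * (ρ * (ε * n) ^ 2) :=
      mul_le_mul_of_nonneg_right hc (by positivity)
    have hs : (∑ a ∈ Pᶜ, x a) = (∑ a, x a) - A := by
      rw [hA, ← sum_add_sum_compl P x]; ring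
    have hcs : (∑ a ∈ Pᶜ, x a) ^ 2 ≤ ((Pᶜ).card : ℝ) * ∑ a ∈ Pᶜ, x a ^ 2 := sq_sum_le_card_mul_sum_sq
    have hsq0 : 0 ≤ ∑ a ∈ Pᶜ, x a ^ 2 := sum_nonneg fun a _ => sq_nonneg _
    have hcs2 : (∑ a ∈ Pᶜ, x a) ^ 2 ≤ q * ∑ a ∈ Pᶜ, x a ^ 2 :=
      hcs.trans (mul_le_mul_of_nonneg_right hc hsq0)
    have hmax : (max (ξ * n - A) 0) ^ 2 ≤ (∑ a ∈ Pᶜ, x a) ^ 2 := by
      refine pow_le_pow_left₀ (le_max_right _ _) ?_ 2
      refine max_le ?_ (sum_nonneg fun a _ => hx0 a)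
      rw [hs]; linarith
    have h5 : ρ / q * (max (ξ * n - A) 0) ^ 2 ≤ ρ / q * (q * ∑ a ∈ Pᶜ, x a ^ 2) :=
      mul_le_mul_of_nonneg_left (hmax.trans hcs2) (by positivity)
    have h6 : ρ / q * (q * ∑ a ∈ Pᶜ, x a ^ 2) = ρ * ∑ a ∈ Pᶜ, x a ^ 2 := by
      field_simp
    linarith
  have h5 : ∑ a, E a ≥ ρ / q * (max (ξ * n - A) 0) ^ 2 - q * (ρ * (ε * n) ^ 2) + δ * (A ^ 2 - B * n * A) := by
    rw [← sum_add_sum_compl P E]
    have := sum_le_sum h1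
    have := sum_le_sum h2
    linarith
  have h6 := hnum (A / n) (by positivity)
  have hmaxn : max (ξ * n - A) 0 = n * max (ξ - A / n) 0 := by
    rw [mul_max_of_nonneg _ _ hn.le, mul_zero]
    congr 1
    field_simp
  have hn2 : 0 < n ^ 2 := by positivity
  have h7 := mul_lt_mul_of_pos_right h6 hn2
  have e1 : (ρ / q * (max (ξ - A / n) 0) ^ 2 + δ * (A / n) ^ 2 - δ * B * (A / n)) * n ^ 2 =
      ρ / q * (max (ξ * n - A) 0) ^ 2 + δ * (A ^ 2 - B * n * A) := by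
    rw [hmaxn]
    field_simp
    ring
  have e2 : (κ + q * (ρ * ε ^ 2)) * n ^ 2 = κ * n ^ 2 + q * (ρ * (ε * n) ^ 2) := by ring
  rw [e1, e2] at h7
  linarith

/-- Step (7): selection of two classes for at least 49 colours. -/
theorem select_pair {ι : Type*} [Fintype ι] {q : ℕ} (hq : 49 ≤ q) (hcard : Fintype.card ι = q)
    (x E : ι → ℝ) (m : ι → ι → ℝ) {n : ℝ} (hn : 0 < n) (hx0 : ∀ a, 0 ≤ x a)
    (hxB : ∀ a, x a ≤ (1 / ((q : ℝ) - 3) + 3 / (4 * q)) * n) (hsum : 84 / 100 * n ≤ ∑ a, x a)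
    (hE0 : ∀ a, 0 ≤ E a) (hm0 : ∀ a b, 0 ≤ m a b)
    (hm : ∀ a, ∑ b ∈ univ.erase a, m a b ≤ E a) (hE : ∑ a, E a ≤ 3 / (((q : ℝ) - 3) * q) * n ^ 2) :
    ∃ a b, a ≠ b ∧ m a b ≤ 1 / 80 * (x a * x b) ∧ E a ≤ 1 / 5 * x a ^ 2 ∧ E b ≤ 1 / 5 * x b ^ 2 ∧
      1 / (100 * q) * n ≤ x a ∧ 1 / (100 * q) * n ≤ x b := by
  have hqR : (49 : ℝ) ≤ q := by exact_mod_cast hq
  have hq3 : (46 : ℝ) ≤ (q : ℝ) - 3 := by linarith
  refine select_pair_gen x E m hn (by norm_num) (by norm_num) (by omega) hx0 hxB hsum hE0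
    hm0 hm hE ?_
  intro α hα
  rw [hcard]
  have hq0 : (0 : ℝ) < q := by linarith
  have hr0 : (0 : ℝ) < (q : ℝ) - 3 := by linarith
  -- multiply by q
  suffices h : (3 / (((q : ℝ) - 3) * q) + q * (1 / 5 * (1 / (100 * q)) ^ 2)) * q <
      (1 / 5 / q * (max (84 / 100 - α) 0) ^ 2 + 1 / 80 * α ^ 2 -
        1 / 80 * (1 / ((q : ℝ) - 3) + 3 / (4 * q)) * α) * q from lt_of_mul_lt_mul_right h hq0.le
  have e1 : (3 / (((q : ℝ) - 3) * q) + q * (1 / 5 * (1 / (100 * q)) ^ 2)) * q =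
      3 / ((q : ℝ) - 3) + 1 / 50000 := by
    field_simp
    ring
  have e2 : (1 / 5 / q * (max (84 / 100 - α) 0) ^ 2 + 1 / 80 * α ^ 2 -
        1 / 80 * (1 / ((q : ℝ) - 3) + 3 / (4 * q)) * α) * q =
      1 / 5 * (max (84 / 100 - α) 0) ^ 2 + q / 80 * α ^ 2 - 1 / 80 * (q / ((q : ℝ) - 3) + 3 / 4) * α := by
    field_simp
  rw [e1, e2]
  have b1 : 3 / ((q : ℝ) - 3) ≤ 3 / 46 := div_le_div_of_nonneg_left (by norm_num) (by norm_num) hq3
  have b2 : (q : ℝ) / ((q : ℝ) - 3) ≤ 49 / 46 := by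
    rw [div_le_div_iff₀ hr0 (by norm_num)]
    linarith
  have b3 : 49 / 80 * α ^ 2 ≤ (q : ℝ) / 80 * α ^ 2 :=
    mul_le_mul_of_nonneg_right (by linarith) (sq_nonneg α)
  have b4 : 1 / 80 * ((q : ℝ) / ((q : ℝ) - 3) + 3 / 4) * α ≤ 1 / 80 * (49 / 46 + 3 / 4) * α :=
    mul_le_mul_of_nonneg_right (by linarith) hα
  rcases le_total α (84 / 100) with h | h
  · rw [max_eq_left (by linarith)]
    nlinarith [sq_nonneg (α - 22 / 100)]
  · rw [max_eq_right (by linarith)]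
    nlinarith [sq_nonneg (α - 84 / 100)]

end Pool.Agent.FKC
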