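import Pool.Agent.FKC.Classes

/-!
Sums over the colour classes.
-/

namespace Pool.Agent.FKC

open Finset Classical

variable {V ι : Type*}

theorem sum_sq_le [Fintype ι] (G : SimpleGraph V) (col : V → ι) (hcol : Proper G col) (S : Finset V) :
    ∑ a, ((cl col S a).card : ℝ) ^ 2 + ∑ a, (Ex G col S a : ℝ) = ∑ v ∈ S, (nn G S v : ℝ) := by
  have h := sum_nn_eq (hcol.on S)
  have h' : ((∑ v ∈ S, nn G S v : ℕ) : ℝ) = ((∑ a, Ex G col S a + ∑ a, (cl col S a).card ^ 2 : ℕ) : ℝ) := by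
    exact_mod_cast h
  push_cast at h'
  rw [h', add_comm]

/-- one class with at most one vertex, the others indexed by `q` colours -/
theorem sq_le_classes {q : ℕ} (col : V → Option (Fin q)) (S : Finset V) (h1 : (cl col S none).card ≤ 1)
    (hS : 1 ≤ S.card) : ((S.card : ℝ) - 1) ^ 2 ≤ q * ∑ a, ((cl col S a).card : ℝ) ^ 2 := by
  have hsum := card_eq_sum_cl col S
  rw [Fintype.sum_option] at hsum
  have h2 : ((S.card : ℝ) - 1) ≤ ∑ a : Fin q, ((cl col S (some a)).card : ℝ) := by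
    have h3 : S.card ≤ 1 + ∑ a : Fin q, (cl col S (some a)).card := by omega
    have h4 : (S.card : ℝ) ≤ 1 + ∑ a : Fin q, ((cl col S (some a)).card : ℝ) := by exact_mod_cast h3
    linarith
  have h5 : (0 : ℝ) ≤ (S.card : ℝ) - 1 := by
    have : (1 : ℝ) ≤ S.card := by exact_mod_cast hS
    linarith
  have h6 : ((S.card : ℝ) - 1) ^ 2 ≤ (∑ a : Fin q, ((cl col S (some a)).card : ℝ)) ^ 2 :=
    pow_le_pow_left₀ h5 h2 2
  have h7 : (∑ a : Fin q, ((cl col S (some a)).card : ℝ)) ^ 2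
      ≤ q * ∑ a : Fin q, ((cl col S (some a)).card : ℝ) ^ 2 := by
    have := sq_sum_le_card_mul_sum_sq (s := (Finset.univ : Finset (Fin q)))
      (f := fun a => ((cl col S (some a)).card : ℝ))
    simpa using this
  have h8 : (q : ℝ) * ∑ a : Fin q, ((cl col S (some a)).card : ℝ) ^ 2
      ≤ q * ∑ a, ((cl col S a).card : ℝ) ^ 2 := by
    refine mul_le_mul_of_nonneg_left ?_ (Nat.cast_nonneg q)
    rw [Fintype.sum_option]
    have : (0 : ℝ) ≤ ((cl col S none).card : ℝ) ^ 2 := by positivity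
    linarith
  linarith

end Pool.Agent.FKC
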