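import Pool.Agent.FKC.Defs
import Pool.Agent.FK.CntTuran

/-!
A clique from Turan's theorem, in the form used by the counting half.
-/

namespace Pool.Agent.FKC

open Finset Classical

variable {V ι : Type*} [Fintype V]

theorem turan_clique (G : SimpleGraph V) {r : ℕ} (hr : 0 < r) (S : Finset V)
    (h : r * ∑ v ∈ S, nn G S v < S.card ^ 2) : ∃ Q ⊆ S, G.IsClique (Q : Set V) ∧ Q.card = r + 1 := by
  have h1 : ∑ v ∈ S, nn G S v + ((S ×ˢ S).filter (fun p => G.Adj p.1 p.2)).card = S.card ^ 2 := by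
    rw [Finset.card_filter, Finset.sum_product, ← Finset.sum_add_distrib, sq, ← smul_eq_mul, ← Finset.sum_const]
    refine Finset.sum_congr rfl (fun v _ => ?_)
    rw [← Finset.card_filter]
    unfold nn
    rw [add_comm]
    exact Finset.card_filter_add_card_filter_not (s := S) (fun w => G.Adj v w)
  have h2 : (r - 1) * S.card ^ 2 < r * ((S ×ˢ S).filter (fun p => G.Adj p.1 p.2)).card := by
    obtain ⟨k, rfl⟩ : ∃ k, r = k + 1 := ⟨r - 1, by omega⟩
    rw [Nat.add_sub_cancel]
    nlinarith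
  obtain ⟨Q, hQS, hc, hQ⟩ := Pool.Agent.FK.turan_clique G r S h2
  exact ⟨Q, hQS, fun u hu v hv huv => hQ u hu v hv huv, hc⟩

end Pool.Agent.FKC
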